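import Pool.Agent.H27.Kato.Defs

/-!
# Basic facts on Orlicz spaces: norm versus modular, constructors, completeness
-/

open MeasureTheory Set Filter Topology
open scoped ENNReal NNReal

namespace Pool.Agent.H27.Kato

namespace OrliczSpace

variable {Ω : Type*} [MeasurableSpace Ω] {φ : OrliczFn} {μ : Measure Ω}

lemma norm_eq (f : OrliczSpace φ μ) : ‖f‖ = luxNorm f := rfl

lemma mem_nset {f : OrliczSpace φ μ} {s : ℝ} (h : ‖f‖ < s) : s ∈ nset f :=
  mem_nset_of_norm_lt h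

lemma rho_inv_le_one {f : OrliczSpace φ μ} {s : ℝ} (h : ‖f‖ < s) :
    rho μ φ (fun x => s⁻¹ * f x) ≤ 1 := (mem_nset h).2

lemma norm_le {f : OrliczSpace φ μ} {s : ℝ} (hs : 0 < s)
    (h : rho μ φ (fun x => s⁻¹ * f x) ≤ 1) : ‖f‖ ≤ s := norm_le_of_mem ⟨hs, h⟩

lemma rho_le_one {f : OrliczSpace φ μ} (h : ‖f‖ ≤ 1) : rho μ φ f ≤ 1 := by
  refine rho_fatou (g := fun n x => ((1 : ℝ) + 1 / ((n : ℝ) + 1))⁻¹ * f x)
    (fun n => f.aesm.const_mul _) ?_ ?_
  · filter_upwards with x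
    have h1 : Tendsto (fun n : ℕ => ((1 : ℝ) + 1 / ((n : ℝ) + 1))⁻¹ * f x) atTop
        (𝓝 (((1 : ℝ) + 0)⁻¹ * f x)) :=
      ((tendsto_const_nhds.add tendsto_one_div_add_atTop_nhds_zero_nat).inv₀
        (by norm_num)).mul_const _
    simpa using h1
  · filter_upwards with n
    apply rho_inv_le_one
    have : (0 : ℝ) < 1 / ((n : ℝ) + 1) := by positivity
    linarith

/-- `ρ(f) ≤ K` implies `‖f‖ ≤ K` for `K ≥ 1`. -/
lemma norm_le_of_rho_le {f : OrliczSpace φ μ} {K : ℝ} (hK : 1 ≤ K)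
    (h : rho μ φ f ≤ ENNReal.ofReal K) : ‖f‖ ≤ K := by
  have hK0 : 0 < K := by linarith
  apply norm_le hK0
  refine (rho_mul_le (by positivity) (inv_le_one_of_one_le₀ hK)).trans ?_
  refine (mul_le_mul_right h _).trans ?_
  rw [← ENNReal.ofReal_mul (by positivity), inv_mul_cancel₀ hK0.ne', ENNReal.ofReal_one]

/-- `κ ≤ ρ(f)` implies `κ ≤ ‖f‖` for `κ ≤ 1`. -/
lemma le_norm_of_le_rho {f : OrliczSpace φ μ} {κ : ℝ} (hκ : κ ≤ 1)
    (h : ENNReal.ofReal κ ≤ rho μ φ f) : κ ≤ ‖f‖ := by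
  by_contra hlt
  rw [not_le] at hlt
  obtain ⟨s, hs1, hs2⟩ := exists_between hlt
  have hs0 : 0 < s := lt_of_le_of_lt (norm_nonneg f) hs1
  have h1 := rho_inv_le_one hs1
  have h2 : rho μ φ (fun x => s * (s⁻¹ * f x)) ≤ ENNReal.ofReal s * 1 :=
    (rho_mul_le hs0.le (by linarith)).trans (mul_le_mul_right h1 _)
  have h3 : (fun x => s * (s⁻¹ * f x)) = (f : Ω → ℝ) := by
    ext x
    rw [← mul_assoc, mul_inv_cancel₀ hs0.ne', one_mul]
  rw [h3, mul_one] at h2
  have h4 := h.trans h2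
  have := (ENNReal.ofReal_le_ofReal_iff hs0.le).1 h4
  linarith

lemma norm_mono {f g : OrliczSpace φ μ} (h : ∀ᵐ x ∂μ, |f x| ≤ |g x|) : ‖f‖ ≤ ‖g‖ := by
  apply le_of_forall_pos_le_add
  intro ε hε
  have h0 : 0 ≤ ‖g‖ := norm_nonneg g
  apply norm_le (by linarith)
  refine (rho_mono ?_).trans (rho_inv_le_one (f := g) (s := ‖g‖ + ε) (by linarith))
  filter_upwards [h] with x hx
  rw [abs_mul, abs_mul]
  exact mul_le_mul_of_nonneg_left hx (abs_nonneg _)

/-- Constructor from a function of finite modular. -/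
noncomputable def mk (g : Ω → ℝ) (hg : AEStronglyMeasurable g μ) (h : rho μ φ g < ∞) :
    OrliczSpace φ μ :=
  ⟨AEEqFun.mk g hg, 1, one_pos, by
    have : ∫⁻ x, ENNReal.ofReal (φ (|(AEEqFun.mk g hg : Ω →ₘ[μ] ℝ) x| / 1)) ∂μ = rho μ φ g := by
      unfold rho
      apply lintegral_congr_ae
      filter_upwards [AEEqFun.coeFn_mk g hg] with x hx
      rw [hx, div_one]
    rw [this]
    exact h⟩

lemma coe_mk (g : Ω → ℝ) (hg : AEStronglyMeasurable g μ) (h : rho μ φ g < ∞) :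
    ∀ᵐ x ∂μ, (mk g hg h : OrliczSpace φ μ) x = g x := AEEqFun.coeFn_mk g hg

/-- Constructor from a function dominated by an element. -/
noncomputable def ofLe (g : Ω → ℝ) (hg : AEStronglyMeasurable g μ) (f : OrliczSpace φ μ)
    (h : ∀ᵐ x ∂μ, |g x| ≤ |f x|) : OrliczSpace φ μ :=
  ⟨AEEqFun.mk g hg, by
    obtain ⟨s, hs, hf⟩ : ∃ s : ℝ, 0 < s ∧ ∫⁻ x, ENNReal.ofReal (φ (|f.toAE x| / s)) ∂μ < ∞ := f.2
    refine ⟨s, hs, lt_of_le_of_lt ?_ hf⟩
    apply lintegral_mono_ae
    filter_upwards [AEEqFun.coeFn_mk g hg, h] with x hx h2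
    rw [hx]
    exact ENNReal.ofReal_le_ofReal (φ.mono (by positivity) (by gcongr))⟩

lemma coe_ofLe (g : Ω → ℝ) (hg : AEStronglyMeasurable g μ) (f : OrliczSpace φ μ)
    (h : ∀ᵐ x ∂μ, |g x| ≤ |f x|) : ∀ᵐ x ∂μ, (ofLe g hg f h) x = g x := AEEqFun.coeFn_mk g hg

/-- restriction of an element to a measurable set -/
noncomputable def res (A : Set Ω) (hA : MeasurableSet A) (f : OrliczSpace φ μ) :
    OrliczSpace φ μ :=
  ofLe (A.indicator f) (f.aesm.indicator hA) f (by
    filter_upwards with x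
    by_cases hx : x ∈ A
    · rw [indicator_of_mem hx]
    · rw [indicator_of_notMem hx, abs_zero]
      exact abs_nonneg _)

lemma coe_res (A : Set Ω) (hA : MeasurableSet A) (f : OrliczSpace φ μ) :
    ∀ᵐ x ∂μ, (res A hA f) x = A.indicator f x := coe_ofLe _ _ _ _

lemma rho_add_disj {ι : Type*} (s : Finset ι) (f : ι → Ω → ℝ)
    (hf : ∀ i ∈ s, AEStronglyMeasurable (f i) μ)
    (hd : ∀ i ∈ s, ∀ j ∈ s, i ≠ j → ∀ᵐ x ∂μ, f i x = 0 ∨ f j x = 0) :
    rho μ φ (fun x => ∑ i ∈ s, f i x) = ∑ i ∈ s, rho μ φ (f i) := by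
  classical
  induction s using Finset.induction_on with
  | empty => simp
  | insert a s ha ih =>
    rw [Finset.sum_insert ha, ← ih (fun i hi => hf i (Finset.mem_insert_of_mem hi))
      (fun i hi j hj hij => hd i (Finset.mem_insert_of_mem hi) j (Finset.mem_insert_of_mem hj) hij)]
    unfold rho
    rw [← lintegral_add_left' (aemeas_rho (hf a (Finset.mem_insert_self a s)))]
    apply lintegral_congr_ae
    have h1 : ∀ᵐ x ∂μ, ∀ j ∈ s, f a x = 0 ∨ f j x = 0 := by
      rw [Filter.eventually_all_finset]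
      intro j hj
      exact hd a (Finset.mem_insert_self a s) j (Finset.mem_insert_of_mem hj)
        (by rintro rfl; exact ha hj)
    filter_upwards [h1] with x hx
    simp only [Finset.sum_insert ha]
    by_cases h0 : f a x = 0
    · rw [h0]
      simp [φ.zero']
    · have : ∑ i ∈ s, f i x = 0 := by
        apply Finset.sum_eq_zero
        intro j hj
        rcases hx j hj with h | h
        · exact absurd h h0
        · exact h
      rw [this]
      simp [φ.zero']

/-- Integrability. -/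
lemma lintegral_le [IsFiniteMeasure μ] : ∃ K : ℝ≥0∞, K ≠ ∞ ∧ ∀ f : OrliczSpace φ μ,
    ∫⁻ x, ENNReal.ofReal |f x| ∂μ ≤ K * ENNReal.ofReal ‖f‖ := by
  obtain ⟨u, hu, hpu⟩ := φ.exists_pos
  -- `v ≤ u + (u / φ u) φ v`
  have key : ∀ v : ℝ, 0 ≤ v → v ≤ u + (u / φ u) * φ v := by
    intro v hv
    rcases le_total v u with h | h
    · have : 0 ≤ (u / φ u) * φ v := mul_nonneg (by positivity) (φ.nonneg hv)
      linarith
    · have hv0 : 0 < v := lt_of_lt_of_le hu h
      have h1 := φ.map_mul_le (u := v) (t := u / v) hv (by positivity)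
        ((div_le_one hv0).2 h)
      rw [div_mul_cancel₀ _ hv0.ne'] at h1
      have h2 : v * φ u ≤ u * φ v := by
        have := mul_le_mul_of_nonneg_left h1 hv
        calc v * φ u ≤ v * (u / v * φ v) := this
          _ = u * φ v := by field_simp
      have h3 : v ≤ (u / φ u) * φ v := by
        rw [div_mul_eq_mul_div, le_div_iff₀ hpu]
        exact h2
      linarith
  refine ⟨ENNReal.ofReal u * μ univ + ENNReal.ofReal (u / φ u), ?_, ?_⟩
  · exact ENNReal.add_ne_top.2 ⟨ENNReal.mul_ne_top ENNReal.ofReal_ne_top (measure_ne_top _ _),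
      ENNReal.ofReal_ne_top⟩
  · intro f
    set K := ENNReal.ofReal u * μ univ + ENNReal.ofReal (u / φ u) with hK
    have hKt : K ≠ ∞ := ENNReal.add_ne_top.2
      ⟨ENNReal.mul_ne_top ENNReal.ofReal_ne_top (measure_ne_top _ _), ENNReal.ofReal_ne_top⟩
    have main : ∀ s : ℝ, ‖f‖ < s → ∫⁻ x, ENNReal.ofReal |f x| ∂μ ≤ K * ENNReal.ofReal s := by
      intro s hs
      have hs0 : 0 < s := lt_of_le_of_lt (norm_nonneg f) hs
      have h1 := rho_inv_le_one hs
      have h2 : ∫⁻ x, ENNReal.ofReal |s⁻¹ * f x| ∂μ ≤ K := by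
        calc ∫⁻ x, ENNReal.ofReal |s⁻¹ * f x| ∂μ
            ≤ ∫⁻ x, (ENNReal.ofReal u + ENNReal.ofReal (u / φ u) *
                ENNReal.ofReal (φ |s⁻¹ * f x|)) ∂μ := by
              apply lintegral_mono
              intro x
              show ENNReal.ofReal |s⁻¹ * f x| ≤ ENNReal.ofReal u + ENNReal.ofReal (u / φ u) *
                ENNReal.ofReal (φ |s⁻¹ * f x|)
              rw [← ENNReal.ofReal_mul (by positivity), ← ENNReal.ofReal_add hu.le
                (mul_nonneg (by positivity) (φ.nonneg (abs_nonneg _)))]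
              exact ENNReal.ofReal_le_ofReal (key _ (abs_nonneg _))
          _ = ENNReal.ofReal u * μ univ + ENNReal.ofReal (u / φ u) *
                rho μ φ (fun x => s⁻¹ * f x) := by
              rw [lintegral_add_left measurable_const, lintegral_const,
                lintegral_const_mul' _ _ ENNReal.ofReal_ne_top]
              rfl
          _ ≤ K := by
              rw [hK]
              gcongr
              calc ENNReal.ofReal (u / φ u) * rho μ φ (fun x => s⁻¹ * f x)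
                  ≤ ENNReal.ofReal (u / φ u) * 1 := mul_le_mul_right h1 _
                _ = _ := mul_one _
      have h3 : ∫⁻ x, ENNReal.ofReal |f x| ∂μ =
          ENNReal.ofReal s * ∫⁻ x, ENNReal.ofReal |s⁻¹ * f x| ∂μ := by
        rw [← lintegral_const_mul' _ _ ENNReal.ofReal_ne_top]
        congr 1
        ext x
        rw [← ENNReal.ofReal_mul hs0.le, abs_mul, abs_of_pos (inv_pos.2 hs0), ← mul_assoc,
          mul_inv_cancel₀ hs0.ne', one_mul]
      rw [h3, mul_comm]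
      exact mul_le_mul_left h2 _
    have h4 : Tendsto (fun n : ℕ => K * ENNReal.ofReal (‖f‖ + 1 / ((n : ℝ) + 1))) atTop
        (𝓝 (K * ENNReal.ofReal (‖f‖ + 0))) := by
      apply ENNReal.Tendsto.const_mul _ (Or.inr hKt)
      exact ENNReal.tendsto_ofReal
        (tendsto_const_nhds.add tendsto_one_div_add_atTop_nhds_zero_nat)
    rw [add_zero] at h4
    refine ge_of_tendsto' h4 (fun n => main _ ?_)
    have : (0 : ℝ) < 1 / ((n : ℝ) + 1) := by positivity
    linarith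

/-- Fatou property of the norm. -/
lemma fatou {f : ℕ → OrliczSpace φ μ} {g : Ω → ℝ} (hg : AEStronglyMeasurable g μ)
    (h : ∀ᵐ x ∂μ, Tendsto (fun n => f n x) atTop (𝓝 (g x))) {C : ℝ}
    (hC : ∀ᶠ n in atTop, ‖f n‖ ≤ C) :
    ∃ G : OrliczSpace φ μ, (∀ᵐ x ∂μ, G x = g x) ∧ ‖G‖ ≤ C := by
  have hC0 : 0 ≤ C := by
    obtain ⟨n, hn⟩ := hC.exists
    exact (norm_nonneg _).trans hn
  have key : ∀ s : ℝ, C < s → rho μ φ (fun x => s⁻¹ * g x) ≤ 1 := by
    intro s hs
    refine rho_fatou (g := fun n x => s⁻¹ * f n x) (fun n => (f n).aesm.const_mul _) ?_ ?_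
    · filter_upwards [h] with x hx
      exact hx.const_mul _
    · filter_upwards [hC] with n hn
      exact rho_inv_le_one (hn.trans_lt hs)
  have hmem : ∃ s : ℝ, 0 < s ∧ ∫⁻ x, ENNReal.ofReal
      (φ (|(AEEqFun.mk g hg : Ω →ₘ[μ] ℝ) x| / s)) ∂μ < ∞ := by
    refine ⟨C + 1, by positivity, ?_⟩
    rw [lint_eq_rho _ (by positivity)]
    have : rho μ φ (fun x => (C + 1)⁻¹ * (AEEqFun.mk g hg : Ω →ₘ[μ] ℝ) x) =
        rho μ φ (fun x => (C + 1)⁻¹ * g x) := by
      apply rho_congr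
      filter_upwards [AEEqFun.coeFn_mk g hg] with x hx
      rw [hx]
    rw [this]
    exact (key _ (by linarith)).trans_lt ENNReal.one_lt_top
  refine ⟨⟨AEEqFun.mk g hg, hmem⟩, AEEqFun.coeFn_mk g hg, ?_⟩
  apply le_of_forall_pos_le_add
  intro ε hε
  apply norm_le (by positivity)
  refine le_trans (le_of_eq ?_) (key (C + ε) (by linarith))
  apply rho_congr
  filter_upwards [AEEqFun.coeFn_mk g hg] with x hx
  show (C + ε)⁻¹ * (AEEqFun.mk g hg : Ω →ₘ[μ] ℝ) x = _
  rw [hx]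

instance [IsFiniteMeasure μ] : CompleteSpace (OrliczSpace φ μ) := by
  obtain ⟨K, hK, hKf⟩ := lintegral_le (φ := φ) (μ := μ)
  apply Metric.complete_of_cauchySeq_tendsto
  intro f hf
  -- the sequence is Cauchy in measure, hence has an a.e. convergent subsequence
  have hint : ∀ g : OrliczSpace φ μ, MemLp (g : Ω → ℝ) 1 μ := by
    intro g
    refine ⟨g.aesm, ?_⟩
    rw [eLpNorm_one_eq_lintegral_enorm]
    have : ∫⁻ x, ‖g x‖ₑ ∂μ = ∫⁻ x, ENNReal.ofReal |g x| ∂μ := by
      congr 1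
      ext x
      rw [Real.enorm_eq_ofReal_abs]
    rw [this]
    exact (hKf g).trans_lt (ENNReal.mul_lt_top hK.lt_top ENNReal.ofReal_lt_top)
  set F : ℕ → Lp ℝ 1 μ := fun n => (hint (f n)).toLp _ with hF
  have hdist : ∀ m n, dist (F m) (F n) ≤ K.toReal * dist (f m) (f n) := by
    intro m n
    rw [dist_eq_norm, dist_eq_norm, hF]
    rw [← MemLp.toLp_sub, Lp.norm_toLp, eLpNorm_one_eq_lintegral_enorm]
    have : ∫⁻ x, ‖((f m : Ω → ℝ) - (f n : Ω → ℝ)) x‖ₑ ∂μ
        = ∫⁻ x, ENNReal.ofReal |(f m - f n) x| ∂μ := by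
      apply lintegral_congr_ae
      filter_upwards [coe_sub (f m) (f n)] with x hx
      rw [hx, Real.enorm_eq_ofReal_abs, Pi.sub_apply]
    rw [this]
    have h1 := ENNReal.toReal_mono (ENNReal.mul_ne_top hK ENNReal.ofReal_ne_top) (hKf (f m - f n))
    rwa [ENNReal.toReal_mul, ENNReal.toReal_ofReal (norm_nonneg _)] at h1
  have hFc : CauchySeq F := by
    rw [Metric.cauchySeq_iff] at hf ⊢
    intro ε hε
    obtain ⟨N, hN⟩ := hf (ε / (K.toReal + 1)) (by positivity)
    refine ⟨N, fun m hm n hn => ?_⟩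
    have h1 := hN m hm n hn
    have h2 := hdist m n
    have h3 : K.toReal * dist (f m) (f n) ≤ K.toReal * (ε / (K.toReal + 1)) :=
      mul_le_mul_of_nonneg_left h1.le ENNReal.toReal_nonneg
    have h4 : K.toReal * (ε / (K.toReal + 1)) < ε := by
      rw [← mul_div_assoc, div_lt_iff₀ (by positivity)]
      nlinarith
    linarith
  obtain ⟨G, hG⟩ := cauchySeq_tendsto_of_complete hFc
  have hmeas : TendstoInMeasure μ (fun n => (F n : Ω → ℝ)) atTop G := by
    exact tendstoInMeasure_of_tendsto_Lp hG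
  obtain ⟨σ, hσ, hae⟩ := hmeas.exists_seq_tendsto_ae
  have hae2 : ∀ᵐ x ∂μ, Tendsto (fun n => f (σ n) x) atTop (𝓝 (G x)) := by
    have : ∀ᵐ x ∂μ, ∀ n, (F n : Ω → ℝ) x = f n x := by
      rw [ae_all_iff]
      intro n
      exact (hint (f n)).coeFn_toLp
    filter_upwards [hae, this] with x h1 h2
    simpa only [h2] using h1
  have hbdd : ∃ C, ∀ n, ‖f n‖ ≤ C := by
    obtain ⟨R, _, hR⟩ := cauchySeq_bdd hf
    refine ⟨‖f 0‖ + R, fun n => ?_⟩
    have h1 := hR n 0
    rw [dist_eq_norm] at h1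
    have h2 := norm_sub_norm_le (f n) (f 0)
    linarith
  obtain ⟨C, hC⟩ := hbdd
  obtain ⟨g, hg1, hg2⟩ := fatou (f := fun n => f (σ n)) (Lp.aestronglyMeasurable G) hae2
    (C := C) (Eventually.of_forall (fun n => hC _))
  refine ⟨g, ?_⟩
  rw [Metric.tendsto_atTop]
  intro ε hε
  rw [Metric.cauchySeq_iff] at hf
  obtain ⟨N, hN⟩ := hf (ε / 2) (by positivity)
  refine ⟨N, fun n hn => ?_⟩
  rw [dist_eq_norm]
  obtain ⟨g', hg'1, hg'2⟩ := fatou (f := fun k => f n - f (σ k)) (g := fun x => f n x - g x)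
    ((f n).aesm.sub g.aesm) (by
      have : ∀ᵐ x ∂μ, ∀ k, (f n - f (σ k)) x = f n x - f (σ k) x := by
        rw [ae_all_iff]
        intro k
        exact coe_sub _ _
      filter_upwards [hae2, hg1, this] with x h1 h2 h3
      simp only [h3, h2]
      exact tendsto_const_nhds.sub h1) (C := ε / 2) (by
      filter_upwards [hσ.tendsto_atTop.eventually (eventually_ge_atTop N)] with k hk
      rw [← dist_eq_norm]
      exact (hN n hn _ hk).le)
  have : g' = f n - g := by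
    apply ext_ae
    filter_upwards [hg'1, coe_sub (f n) g] with x h1 h2
    rw [h1, h2]
  rw [← this]
  linarith

end OrliczSpace

end Pool.Agent.H27.Kato
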