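import Pool.Agent.H27.Kato.Modular

/-!
# Block vectors over windows of scales
-/

open MeasureTheory Set Filter Topology
open scoped ENNReal NNReal

namespace Pool.Agent.H27.Kato

/-- index type of the blocks: block number, scale, repetition -/
abbrev Idx := Σ _ : ℕ, Σ _ : ℕ, ℕ

/-- the indices of the blocks `k ∈ s` -/
def idx (r : ℕ → ℕ) (s : Finset ℕ) : Finset Idx :=
  s.sigma fun k => (Finset.range (4 ^ r k)).sigma fun T => Finset.range (4 ^ T)

/-- enumeration of the indices -/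
def enu (J : ℕ → ℕ) (q : Idx) : ℕ := Nat.pair q.1 (J q.1 + Nat.pair q.2.1 q.2.2)

/-- coefficients -/
noncomputable def cf (r : ℕ → ℕ) (c : ℕ → ℝ) (q : Idx) : ℝ :=
  c q.1 * (2 : ℝ)⁻¹ ^ (q.2.1 + r q.1)

lemma enu_injective (J : ℕ → ℕ) : Function.Injective (enu J) := by
  rintro ⟨k, T, i⟩ ⟨k', T', i'⟩ h
  simp only [enu, Nat.pair_eq_pair] at h
  obtain ⟨rfl, h2⟩ := h
  have h3 := Nat.add_left_cancel h2
  rw [Nat.pair_eq_pair] at h3
  obtain ⟨rfl, rfl⟩ := h3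
  rfl

lemma le_enu (J : ℕ → ℕ) (q : Idx) : J q.1 ≤ enu J q := by
  unfold enu
  have := Nat.right_le_pair q.1 (J q.1 + Nat.pair q.2.1 q.2.2)
  omega

lemma sum_idx {M : Type*} [AddCommMonoid M] (r : ℕ → ℕ) (s : Finset ℕ) (f : Idx → M) :
    ∑ q ∈ idx r s, f q =
      ∑ k ∈ s, ∑ T ∈ Finset.range (4 ^ r k), ∑ i ∈ Finset.range (4 ^ T), f ⟨k, T, i⟩ := by
  unfold idx
  rw [Finset.sum_sigma]
  apply Finset.sum_congr rfl
  intro k _
  rw [Finset.sum_sigma]

lemma sum_cf_sq (r : ℕ → ℕ) (s : Finset ℕ) (c : ℕ → ℝ) :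
    ∑ q ∈ idx r s, cf r c q ^ 2 = ∑ k ∈ s, c k ^ 2 := by
  rw [sum_idx]
  apply Finset.sum_congr rfl
  intro k _
  have : ∀ T ∈ Finset.range (4 ^ r k), ∑ i ∈ Finset.range (4 ^ T), cf r c ⟨k, T, i⟩ ^ 2
      = c k ^ 2 * (4 : ℝ)⁻¹ ^ (r k) := by
    intro T _
    simp only [cf, Finset.sum_const, Finset.card_range, nsmul_eq_mul]
    rw [mul_pow, ← pow_mul, mul_comm (T + r k) 2, pow_mul, pow_add]
    push_cast
    have h1 : ((2 : ℝ)⁻¹ ^ 2) = 4⁻¹ := by norm_num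
    rw [h1]
    have h2 : (4 : ℝ) ^ T * (4 : ℝ)⁻¹ ^ T = 1 := by
      rw [← mul_pow]
      norm_num
    linear_combination (c k ^ 2 * (4 : ℝ)⁻¹ ^ (r k)) * h2
  rw [Finset.sum_congr rfl this]
  simp only [Finset.sum_const, Finset.card_range, nsmul_eq_mul]
  push_cast
  have h2 : (4 : ℝ) ^ (r k) * (4 : ℝ)⁻¹ ^ (r k) = 1 := by
    rw [← mul_pow]
    norm_num
  linear_combination (c k ^ 2) * h2

section module

variable {E : Type*} [AddCommGroup E] [Module ℝ E]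

/-- the `k`-th block -/
noncomputable def blk (r J : ℕ → ℕ) (x : ℕ → E) (k : ℕ) : E :=
  ∑ T ∈ Finset.range (4 ^ r k), ∑ i ∈ Finset.range (4 ^ T),
    ((2 : ℝ)⁻¹ ^ (T + r k)) • x (enu J ⟨k, T, i⟩)

lemma sum_blk (r J : ℕ → ℕ) (x : ℕ → E) (s : Finset ℕ) (c : ℕ → ℝ) :
    ∑ k ∈ s, c k • blk r J x k = ∑ q ∈ idx r s, cf r c q • x (enu J q) := by
  rw [sum_idx]
  apply Finset.sum_congr rfl
  intro k _
  unfold blk
  rw [Finset.smul_sum]
  apply Finset.sum_congr rfl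
  intro T _
  rw [Finset.smul_sum]
  apply Finset.sum_congr rfl
  intro i _
  rw [smul_smul]
  rfl

lemma map_blk {F : Type*} [AddCommGroup F] [Module ℝ F] (T : E →ₗ[ℝ] F) (r J : ℕ → ℕ)
    (x : ℕ → E) (k : ℕ) : T (blk r J x k) = blk r J (fun n => T (x n)) k := by
  unfold blk
  simp [map_sum]

/-- transfer of a statement on finite sums along an injective enumeration -/
lemma sum_transfer (J : ℕ → ℕ) (x : ℕ → E) (S : Finset Idx) (a : Idx → ℝ) :
    ∃ (S' : Finset ℕ) (a' : ℕ → ℝ), ∑ q ∈ S, a q • x (enu J q) = ∑ j ∈ S', a' j • x j ∧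
      ∑ q ∈ S, a q ^ 2 = ∑ j ∈ S', a' j ^ 2 := by
  refine ⟨S.map ⟨enu J, enu_injective J⟩, Function.extend (enu J) a 0, ?_, ?_⟩
  · rw [Finset.sum_map]
    apply Finset.sum_congr rfl
    intro q _
    simp only [Function.Embedding.coeFn_mk]
    rw [(enu_injective J).extend_apply]
  · rw [Finset.sum_map]
    apply Finset.sum_congr rfl
    intro q _
    simp only [Function.Embedding.coeFn_mk]
    rw [(enu_injective J).extend_apply]

end module

/-- dyadic approximation -/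
lemma dyadic {c : ℝ} {S : ℕ} (h1 : c ≤ 1) (h2 : (2 : ℝ)⁻¹ ^ S < c) :
    ∃ s < S, (2 : ℝ)⁻¹ ^ (s + 1) < c ∧ c ≤ (2 : ℝ)⁻¹ ^ s := by
  have hc : 0 < c := lt_trans (by positivity) h2
  obtain ⟨s, hs1, hs2⟩ := exists_nat_pow_near_of_lt_one hc h1 (show (0 : ℝ) < 2⁻¹ by norm_num)
    (show (2 : ℝ)⁻¹ < 1 by norm_num)
  refine ⟨s, ?_, hs1, hs2⟩
  by_contra hge
  rw [not_lt] at hge
  have := pow_le_pow_of_le_one (show (0 : ℝ) ≤ 2⁻¹ by norm_num) (by norm_num) hge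
  linarith

lemma sum_geom_le (s : Finset ℕ) : ∑ k ∈ s, (2 : ℝ)⁻¹ ^ k ≤ 2 := by
  have h1 : Summable (fun k : ℕ => (2 : ℝ)⁻¹ ^ k) :=
    summable_geometric_of_lt_one (by norm_num) (by norm_num)
  have h2 : ∑' k : ℕ, (2 : ℝ)⁻¹ ^ k = 2 := by
    rw [tsum_geometric_of_lt_one (by norm_num) (by norm_num)]
    norm_num
  calc ∑ k ∈ s, (2 : ℝ)⁻¹ ^ k ≤ ∑' k : ℕ, (2 : ℝ)⁻¹ ^ k :=
        h1.sum_le_tsum _ (fun i _ => by positivity)
    _ = 2 := h2

variable {Ω : Type*} [MeasurableSpace Ω] {μ : Measure Ω} {φ : OrliczFn} {B : ℤ → ℕ}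

/-- pairwise disjointness of a sequence of elements -/
def PDisj (x : ℕ → OrliczSpace φ μ) : Prop :=
  ∀ i j, i ≠ j → ∀ᵐ t ∂μ, x i t = 0 ∨ x j t = 0

lemma PDisj.comp {x : ℕ → OrliczSpace φ μ} (hx : PDisj x) {σ : ℕ → ℕ}
    (hσ : Function.Injective σ) : PDisj (fun n => x (σ n)) :=
  fun i j hij => hx _ _ (fun h => hij (hσ h))

/-- the modular of a combination of disjoint elements -/
lemma rho_sum_disj {x : ℕ → OrliczSpace φ μ} (hx : PDisj x) (J : ℕ → ℕ) (S : Finset Idx)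
    (a : Idx → ℝ) :
    rho μ φ (∑ q ∈ S, a q • x (enu J q) : OrliczSpace φ μ)
      = ∑ q ∈ S, rho μ φ (fun t => a q * x (enu J q) t) := by
  rw [← OrliczSpace.rho_add_disj S (fun q t => a q * x (enu J q) t) (fun q _ => (x _).aesm.const_mul _)]
  · apply rho_congr
    have h1 : ∀ᵐ t ∂μ, ∀ q ∈ S, (a q • x (enu J q)) t = a q * x (enu J q) t := by
      rw [Filter.eventually_all_finset]
      intro q _
      exact OrliczSpace.coe_smul _ _
    filter_upwards [OrliczSpace.coe_sum S (fun q => a q • x (enu J q)), h1] with t h2 h3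
    rw [h2]
    exact Finset.sum_congr rfl (fun q hq => h3 q hq)
  · intro q _ q' _ hqq
    filter_upwards [hx _ _ (fun h => hqq (enu_injective J h))] with t ht
    rcases ht with h | h
    · left; rw [h, mul_zero]
    · right; rw [h, mul_zero]

/-- window condition for the parameters `r` -/
def WinOK (B : ℤ → ℕ) (C0 : ℕ) (r : ℕ → ℕ) : Prop :=
  ∀ k, ∀ s : ℕ, s ≤ 2 * 4 ^ (r k) + k → ∀ p : ℤ,
    ∑ T ∈ Finset.range (4 ^ (r k)), 2 ^ (B (p - (T : ℤ) - (r k : ℤ) - (s : ℤ)))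
      ≤ C0 * 4 ^ (r k) * 2 ^ (B p)

/-- the largest scale used in block `k` -/
def Amax (r : ℕ → ℕ) (k : ℕ) : ℕ := 4 ^ r k + r k + (2 * 4 ^ r k + k)

namespace Rel

variable (h : Rel φ B)
include h

/-- Upper estimate for blocks of a disjoint sequence with convergent modulars. -/
lemma upper_disj {C0 : ℕ} {r : ℕ → ℕ} (hr : WinOK B C0 r) {x : ℕ → OrliczSpace φ μ}
    (hx : PDisj x) (hx1 : ∀ j, rho μ φ (x j) ≤ 1)
    {Ψ : ℕ → ℝ≥0∞} (hΨ : ∀ a, Tendsto (fun j => rho μ φ (fun t => (2 : ℝ)⁻¹ ^ a * x j t)) atTop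
      (𝓝 (Ψ a))) :
    ∃ J1 : ℕ → ℕ, ∀ J : ℕ → ℕ, (∀ k, J1 k ≤ J k) → ∀ (s : Finset ℕ) (c : ℕ → ℝ),
      ∑ k ∈ s, c k ^ 2 ≤ 1 →
      rho μ φ (∑ k ∈ s, c k • blk r J x k : OrliczSpace φ μ)
        ≤ ENNReal.ofReal (2 + 4 * (256 * C0 + 1)) := by
  -- choice of thresholds
  have hJ : ∀ k, ∃ j0, ∀ j ≥ j0, ∀ a ≤ Amax r k,
      rho μ φ (fun t => (2 : ℝ)⁻¹ ^ a * x j t) ≤ Ψ a + ENNReal.ofReal ((4 : ℝ)⁻¹ ^ a) := by
    intro k
    have h1 : ∀ᶠ j in atTop, ∀ a ∈ Finset.range (Amax r k + 1),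
        rho μ φ (fun t => (2 : ℝ)⁻¹ ^ a * x j t) ≤ Ψ a + ENNReal.ofReal ((4 : ℝ)⁻¹ ^ a) := by
      rw [Filter.eventually_all_finset]
      intro a _
      rcases eq_or_ne (Ψ a) ∞ with h0 | h0
      · rw [h0]
        simp
      · have h2 : Ψ a < Ψ a + ENNReal.ofReal ((4 : ℝ)⁻¹ ^ a) := by
          apply ENNReal.lt_add_right h0
          rw [Ne, ENNReal.ofReal_eq_zero, not_le]
          positivity
        filter_upwards [(hΨ a).eventually_lt_const h2] with j hj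
        exact hj.le
    obtain ⟨j0, hj0⟩ := eventually_atTop.1 h1
    exact ⟨j0, fun j hj a ha => hj0 j hj a (Finset.mem_range.2 (by omega))⟩
  choose J1 hJ1 using hJ
  refine ⟨J1, fun J hJJ s c hc => ?_⟩
  -- the window estimate in the limit
  have hwin : ∀ k, ∀ s' : ℕ, s' ≤ 2 * 4 ^ (r k) + k →
      ∑ T ∈ Finset.range (4 ^ r k), (4 : ℝ≥0∞) ^ T * Ψ (T + r k + s') ≤
        ENNReal.ofReal (256 * C0 * (4 : ℝ)⁻¹ ^ s') := by
    intro k s' hs'
    have h1 : Tendsto (fun j => ∑ T ∈ Finset.range (4 ^ r k), (4 : ℝ≥0∞) ^ T *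
        rho μ φ (fun t => (2 : ℝ)⁻¹ ^ (T + r k + s') * x j t)) atTop
        (𝓝 (∑ T ∈ Finset.range (4 ^ r k), (4 : ℝ≥0∞) ^ T * Ψ (T + r k + s'))) := by
      apply tendsto_finsetSum
      intro T _
      exact ENNReal.Tendsto.const_mul (hΨ _) (Or.inr (by simp))
    refine le_of_tendsto' h1 (fun j => ?_)
    refine (h.window (fun p => hr k s' hs' p) (x j).aesm).trans ?_
    calc _ ≤ ENNReal.ofReal (256 * C0 * (4 : ℝ)⁻¹ ^ s') * 1 := mul_le_mul_right (hx1 j) _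
      _ = _ := mul_one _
  -- estimate of one block
  have hblock : ∀ k ∈ s, ∑ T ∈ Finset.range (4 ^ r k), ∑ i ∈ Finset.range (4 ^ T),
      rho μ φ (fun t => cf r c ⟨k, T, i⟩ * x (enu J ⟨k, T, i⟩) t) ≤
        ENNReal.ofReal ((2 : ℝ)⁻¹ ^ k + 4 * (256 * C0 + 1) * c k ^ 2) := by
    intro k hk
    have hck : |c k| ≤ 1 := by
      rw [← sq_le_one_iff_abs_le_one]
      exact (Finset.single_le_sum (fun i _ => sq_nonneg (c i)) hk).trans hc
    rcases le_or_gt |c k| ((2 : ℝ)⁻¹ ^ (2 * 4 ^ (r k) + k)) with hsm | hbig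
    · -- tiny coefficient
      have h1 : ∀ T ∈ Finset.range (4 ^ r k), ∀ i ∈ Finset.range (4 ^ T),
          rho μ φ (fun t => cf r c ⟨k, T, i⟩ * x (enu J ⟨k, T, i⟩) t) ≤
            ENNReal.ofReal ((2 : ℝ)⁻¹ ^ (2 * 4 ^ (r k) + k)) := by
        intro T _ i _
        have h2 : |cf r c ⟨k, T, i⟩| ≤ (2 : ℝ)⁻¹ ^ (2 * 4 ^ (r k) + k) := by
          simp only [cf]
          rw [abs_mul, abs_of_nonneg (by positivity : (0 : ℝ) ≤ 2⁻¹ ^ (T + r k))]
          calc |c k| * (2 : ℝ)⁻¹ ^ (T + r k) ≤ (2 : ℝ)⁻¹ ^ (2 * 4 ^ (r k) + k) * 1 := by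
                apply mul_le_mul hsm _ (by positivity) (by positivity)
                exact pow_le_one₀ (by norm_num) (by norm_num)
            _ = _ := mul_one _
        calc rho μ φ (fun t => cf r c ⟨k, T, i⟩ * x (enu J ⟨k, T, i⟩) t)
            ≤ rho μ φ (fun t => (2 : ℝ)⁻¹ ^ (2 * 4 ^ (r k) + k) * x (enu J ⟨k, T, i⟩) t) := by
              apply rho_mono
              filter_upwards with t
              rw [abs_mul, abs_mul, abs_of_nonneg (by positivity :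
                (0 : ℝ) ≤ 2⁻¹ ^ (2 * 4 ^ (r k) + k))]
              exact mul_le_mul_of_nonneg_right h2 (abs_nonneg _)
          _ ≤ ENNReal.ofReal ((2 : ℝ)⁻¹ ^ (2 * 4 ^ (r k) + k)) * rho μ φ (x (enu J ⟨k, T, i⟩)) :=
              rho_mul_le (by positivity) (pow_le_one₀ (by norm_num) (by norm_num))
          _ ≤ ENNReal.ofReal ((2 : ℝ)⁻¹ ^ (2 * 4 ^ (r k) + k)) * 1 :=
              mul_le_mul_right (hx1 _) _
          _ = _ := mul_one _
      refine (Finset.sum_le_sum (fun T hT => Finset.sum_le_sum (fun i hi => h1 T hT i hi))).trans ?_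
      simp only [Finset.sum_const, Finset.card_range, nsmul_eq_mul]
      rw [← Finset.sum_mul]
      have h3 : (∑ T ∈ Finset.range (4 ^ r k), (((4 ^ T : ℕ)) : ℝ≥0∞)) ≤ (4 : ℝ≥0∞) ^ (4 ^ r k) := by
        have h4 : ∀ n : ℕ, ∑ T ∈ Finset.range n, 4 ^ T ≤ 4 ^ n := by
          intro n
          induction n with
          | zero => simp
          | succ n ih =>
            rw [Finset.sum_range_succ, pow_succ]
            omega
        have := h4 (4 ^ r k)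
        exact_mod_cast this
      refine (mul_le_mul_left h3 _).trans ?_
      have h5 : (4 : ℝ≥0∞) ^ (4 ^ r k) = ENNReal.ofReal ((4 : ℝ) ^ (4 ^ r k)) := by
        rw [ENNReal.ofReal_pow (by norm_num)]
        norm_num
      rw [h5, ← ENNReal.ofReal_mul (by positivity)]
      apply ENNReal.ofReal_le_ofReal
      have h6 : (4 : ℝ) ^ (4 ^ r k) * (2 : ℝ)⁻¹ ^ (2 * 4 ^ (r k) + k) = (2 : ℝ)⁻¹ ^ k := by
        rw [pow_add, pow_mul, ← mul_assoc, ← mul_pow]
        norm_num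
      rw [h6]
      have : 0 ≤ 4 * (256 * (C0 : ℝ) + 1) * c k ^ 2 := by positivity
      linarith
    · obtain ⟨s', hs', hs1, hs2⟩ := dyadic hck hbig
      have h1 : ∀ T ∈ Finset.range (4 ^ r k), ∀ i ∈ Finset.range (4 ^ T),
          rho μ φ (fun t => cf r c ⟨k, T, i⟩ * x (enu J ⟨k, T, i⟩) t) ≤
            Ψ (T + r k + s') + ENNReal.ofReal ((4 : ℝ)⁻¹ ^ (T + r k + s')) := by
        intro T hT i _
        have hT' := Finset.mem_range.1 hT
        refine le_trans ?_ (hJ1 k (enu J ⟨k, T, i⟩) ((hJJ k).trans (le_enu J ⟨k, T, i⟩))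
          (T + r k + s') ?_)
        · apply rho_mono
          filter_upwards with t
          rw [abs_mul, abs_mul, abs_of_nonneg (by positivity :
            (0 : ℝ) ≤ 2⁻¹ ^ (T + r k + s'))]
          apply mul_le_mul_of_nonneg_right _ (abs_nonneg _)
          simp only [cf]
          rw [abs_mul, abs_of_nonneg (by positivity : (0 : ℝ) ≤ 2⁻¹ ^ (T + r k)), pow_add _ _ s',
            mul_comm]
          exact mul_le_mul_of_nonneg_left hs2 (by positivity)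
        · unfold Amax
          omega
      refine (Finset.sum_le_sum (fun T hT => Finset.sum_le_sum (fun i hi => h1 T hT i hi))).trans ?_
      simp only [Finset.sum_const, Finset.card_range, nsmul_eq_mul]
      have h2 : ∀ T ∈ Finset.range (4 ^ r k), (((4 ^ T : ℕ)) : ℝ≥0∞) * (Ψ (T + r k + s') +
          ENNReal.ofReal ((4 : ℝ)⁻¹ ^ (T + r k + s'))) = (4 : ℝ≥0∞) ^ T * Ψ (T + r k + s') +
          ENNReal.ofReal ((4 : ℝ)⁻¹ ^ (r k + s')) := by
        intro T _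
        rw [mul_add]
        push_cast
        congr 1
        have h5 : (4 : ℝ≥0∞) ^ T = ENNReal.ofReal ((4 : ℝ) ^ T) := by
          rw [ENNReal.ofReal_pow (by norm_num)]
          norm_num
        rw [h5, ← ENNReal.ofReal_mul (by positivity)]
        congr 1
        rw [add_assoc, pow_add _ T, ← mul_assoc, ← mul_pow]
        norm_num
      rw [Finset.sum_congr rfl h2, Finset.sum_add_distrib]
      simp only [Finset.sum_const, Finset.card_range, nsmul_eq_mul]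
      have h3 : (((4 ^ r k : ℕ)) : ℝ≥0∞) * ENNReal.ofReal ((4 : ℝ)⁻¹ ^ (r k + s')) =
          ENNReal.ofReal ((4 : ℝ)⁻¹ ^ s') := by
        push_cast
        have h5 : (4 : ℝ≥0∞) ^ (r k) = ENNReal.ofReal ((4 : ℝ) ^ (r k)) := by
          rw [ENNReal.ofReal_pow (by norm_num)]
          norm_num
        rw [h5, ← ENNReal.ofReal_mul (by positivity)]
        congr 1
        rw [pow_add _ (r k), ← mul_assoc, ← mul_pow]
        norm_num
      rw [h3]
      refine (add_le_add_left (hwin k s' hs'.le) _).trans ?_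
      rw [← ENNReal.ofReal_add (by positivity) (by positivity)]
      apply ENNReal.ofReal_le_ofReal
      have h6 : (4 : ℝ)⁻¹ ^ s' ≤ 4 * c k ^ 2 := by
        have h7 : ((2 : ℝ)⁻¹ ^ (s' + 1)) ^ 2 ≤ |c k| ^ 2 := by
          apply pow_le_pow_left₀ (by positivity) hs1.le
        rw [sq_abs, ← pow_mul, mul_comm, pow_mul, pow_succ] at h7
        norm_num at h7 ⊢
        linarith
      have h8 : (0 : ℝ) < (2 : ℝ)⁻¹ ^ k := by positivity
      have h9 := mul_le_mul_of_nonneg_left h6 (show (0 : ℝ) ≤ 256 * C0 + 1 by positivity)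
      nlinarith
  rw [sum_blk, rho_sum_disj hx, sum_idx]
  refine (Finset.sum_le_sum hblock).trans ?_
  rw [← ENNReal.ofReal_sum_of_nonneg (fun k _ => by positivity)]
  apply ENNReal.ofReal_le_ofReal
  rw [Finset.sum_add_distrib, ← Finset.mul_sum]
  have h1 := sum_geom_le s
  have h2 := mul_le_mul_of_nonneg_left hc (show (0 : ℝ) ≤ 4 * (256 * C0 + 1) by positivity)
  linarith

omit h in
/-- Lower estimate for blocks of a disjoint sequence with a quadratic lower bound of the modulars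
at all fixed scales. -/
lemma lower_disj {r : ℕ → ℕ} {z : ℕ → OrliczSpace φ μ}
    (hz : PDisj z) {κ : ℝ} (hκ : 0 < κ)
    (hz1 : ∀ A : ℕ, ∃ j0 : ℕ, ∀ j ≥ j0, ∀ a ≤ A,
      ENNReal.ofReal (κ * (4 : ℝ)⁻¹ ^ a) ≤ rho μ φ (fun t => (2 : ℝ)⁻¹ ^ a * z j t)) :
    ∃ J1 : ℕ → ℕ, ∀ J : ℕ → ℕ, (∀ k, J1 k ≤ J k) → ∀ (s : Finset ℕ) (c : ℕ → ℝ),
      ∑ k ∈ s, c k ^ 2 = 1 →
      ENNReal.ofReal (κ / 8) ≤ rho μ φ (∑ k ∈ s, c k • blk r J z k : OrliczSpace φ μ) := by
  choose J0 hJ0 using hz1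
  refine ⟨fun k => J0 (Amax r k), fun J hJJ s c hc => ?_⟩
  have hblock : ∀ k ∈ s, ENNReal.ofReal (κ / 4 * (c k ^ 2 - (4 : ℝ)⁻¹ ^ (k + 2))) ≤
      ∑ T ∈ Finset.range (4 ^ r k), ∑ i ∈ Finset.range (4 ^ T),
      rho μ φ (fun t => cf r c ⟨k, T, i⟩ * z (enu J ⟨k, T, i⟩) t) := by
    intro k hk
    have hck : |c k| ≤ 1 := by
      rw [← sq_le_one_iff_abs_le_one]
      exact (Finset.single_le_sum (fun i _ => sq_nonneg (c i)) hk).trans hc.le
    rcases le_or_gt |c k| ((2 : ℝ)⁻¹ ^ (2 * 4 ^ (r k) + k)) with hsm | hbig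
    · have h1 : c k ^ 2 ≤ (4 : ℝ)⁻¹ ^ (k + 2) := by
        have h2 : |c k| ^ 2 ≤ ((2 : ℝ)⁻¹ ^ (2 * 4 ^ (r k) + k)) ^ 2 :=
          pow_le_pow_left₀ (abs_nonneg _) hsm 2
        rw [sq_abs, ← pow_mul, mul_comm, pow_mul] at h2
        have h3 : ((2 : ℝ)⁻¹ ^ 2) = 4⁻¹ := by norm_num
        rw [h3] at h2
        refine h2.trans (pow_le_pow_of_le_one (by norm_num) (by norm_num) ?_)
        have : 1 ≤ 4 ^ (r k) := Nat.one_le_pow _ _ (by norm_num)
        omega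
      have h4 : κ / 4 * (c k ^ 2 - (4 : ℝ)⁻¹ ^ (k + 2)) ≤ 0 :=
        mul_nonpos_of_nonneg_of_nonpos (by positivity) (by linarith)
      rw [ENNReal.ofReal_of_nonpos h4]
      exact zero_le
    · obtain ⟨s', hs', hs1, hs2⟩ := dyadic hck hbig
      have h1 : ∀ T ∈ Finset.range (4 ^ r k), ∀ i ∈ Finset.range (4 ^ T),
          ENNReal.ofReal (κ * (4 : ℝ)⁻¹ ^ (T + r k + (s' + 1))) ≤
          rho μ φ (fun t => cf r c ⟨k, T, i⟩ * z (enu J ⟨k, T, i⟩) t) := by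
        intro T hT i _
        have hT' := Finset.mem_range.1 hT
        refine le_trans (hJ0 (Amax r k) (enu J ⟨k, T, i⟩) ((hJJ k).trans (le_enu J ⟨k, T, i⟩))
          (T + r k + (s' + 1)) ?_) ?_
        · unfold Amax
          omega
        · apply rho_mono
          filter_upwards with t
          rw [abs_mul, abs_mul, abs_of_nonneg (by positivity :
            (0 : ℝ) ≤ 2⁻¹ ^ (T + r k + (s' + 1)))]
          apply mul_le_mul_of_nonneg_right _ (abs_nonneg _)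
          simp only [cf]
          rw [abs_mul, abs_of_nonneg (by positivity : (0 : ℝ) ≤ 2⁻¹ ^ (T + r k)),
            pow_add _ (T + r k), mul_comm]
          exact mul_le_mul_of_nonneg_right hs1.le (by positivity)
      refine le_trans ?_ (Finset.sum_le_sum
        (fun T hT => Finset.sum_le_sum (fun i hi => h1 T hT i hi)))
      simp only [Finset.sum_const, Finset.card_range, nsmul_eq_mul]
      have h2 : ∀ T ∈ Finset.range (4 ^ r k), (((4 ^ T : ℕ)) : ℝ≥0∞) *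
          ENNReal.ofReal (κ * (4 : ℝ)⁻¹ ^ (T + r k + (s' + 1))) =
          ENNReal.ofReal (κ * (4 : ℝ)⁻¹ ^ (r k + (s' + 1))) := by
        intro T _
        push_cast
        have h5 : (4 : ℝ≥0∞) ^ T = ENNReal.ofReal ((4 : ℝ) ^ T) := by
          rw [ENNReal.ofReal_pow (by norm_num)]
          norm_num
        rw [h5, ← ENNReal.ofReal_mul (by positivity)]
        congr 1
        rw [add_assoc, pow_add _ T]
        have : (4 : ℝ) ^ T * (4 : ℝ)⁻¹ ^ T = 1 := by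
          rw [← mul_pow]
          norm_num
        linear_combination (κ * (4 : ℝ)⁻¹ ^ (r k + (s' + 1))) * this
      rw [Finset.sum_congr rfl h2]
      simp only [Finset.sum_const, Finset.card_range, nsmul_eq_mul]
      push_cast
      have h5 : (4 : ℝ≥0∞) ^ (r k) = ENNReal.ofReal ((4 : ℝ) ^ (r k)) := by
        rw [ENNReal.ofReal_pow (by norm_num)]
        norm_num
      rw [h5, ← ENNReal.ofReal_mul (by positivity)]
      apply ENNReal.ofReal_le_ofReal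
      have h6 : (4 : ℝ) ^ (r k) * (κ * (4 : ℝ)⁻¹ ^ (r k + (s' + 1))) = κ * (4 : ℝ)⁻¹ ^ (s' + 1) := by
        rw [pow_add _ (r k)]
        have : (4 : ℝ) ^ (r k) * (4 : ℝ)⁻¹ ^ (r k) = 1 := by
          rw [← mul_pow]
          norm_num
        linear_combination (κ * (4 : ℝ)⁻¹ ^ (s' + 1)) * this
      rw [h6]
      have h7 : c k ^ 2 ≤ (4 : ℝ)⁻¹ ^ s' := by
        have h8 : |c k| ^ 2 ≤ ((2 : ℝ)⁻¹ ^ s') ^ 2 := pow_le_pow_left₀ (abs_nonneg _) hs2 2
        rw [sq_abs, ← pow_mul, mul_comm, pow_mul] at h8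
        norm_num at h8 ⊢
        linarith
      have h9 : (0 : ℝ) < (4 : ℝ)⁻¹ ^ (k + 2) := by positivity
      have h10 : (4 : ℝ)⁻¹ ^ (s' + 1) = 4⁻¹ * (4 : ℝ)⁻¹ ^ s' := by rw [pow_succ']
      rw [h10]
      nlinarith
  rw [sum_blk, rho_sum_disj hz, sum_idx]
  refine le_trans ?_ (Finset.sum_le_sum hblock)
  have h1 : ENNReal.ofReal (∑ k ∈ s, κ / 4 * (c k ^ 2 - (4 : ℝ)⁻¹ ^ (k + 2))) ≤
      ∑ k ∈ s, ENNReal.ofReal (κ / 4 * (c k ^ 2 - (4 : ℝ)⁻¹ ^ (k + 2))) := by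
    clear hblock hJJ hc
    induction s using Finset.induction_on with
    | empty => simp
    | insert a s ha ih =>
      rw [Finset.sum_insert ha, Finset.sum_insert ha]
      exact (ENNReal.ofReal_add_le).trans (add_le_add_right ih _)
  refine le_trans (ENNReal.ofReal_le_ofReal ?_) h1
  rw [← Finset.mul_sum, Finset.sum_sub_distrib, hc]
  have h2 : ∑ k ∈ s, (4 : ℝ)⁻¹ ^ (k + 2) ≤ 1 / 2 := by
    calc ∑ k ∈ s, (4 : ℝ)⁻¹ ^ (k + 2) ≤ ∑ k ∈ s, (1 / 16) * (2 : ℝ)⁻¹ ^ k := by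
          apply Finset.sum_le_sum
          intro k _
          rw [pow_add]
          have : (4 : ℝ)⁻¹ ^ k ≤ (2 : ℝ)⁻¹ ^ k := pow_le_pow_left₀ (by norm_num) (by norm_num) k
          norm_num at this ⊢
          linarith
      _ ≤ 1 / 2 := by
          rw [← Finset.mul_sum]
          have := sum_geom_le s
          linarith
  nlinarith

end Rel

end Pool.Agent.H27.Kato
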