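import Pool.Agent.H27.Kato.Space

/-!
# Rearrangement invariant spaces on `[0, 1]`, the Kato property, 2-disjoint homogeneity
-/

open MeasureTheory Set Filter Topology
open scoped ENNReal NNReal

namespace Pool.Agent.H27.Kato

/-- Lebesgue measure on `[0, 1]` -/
noncomputable abbrev leb01 : Measure ℝ := volume.restrict (Icc 0 1)

/-- A bounded operator is strictly singular if it is not bounded below on any closed
infinite-dimensional subspace. -/
def StrictlySingular {E : Type*} [NormedAddCommGroup E] [NormedSpace ℝ E] (T : E →L[ℝ] E) : Prop :=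
  ∀ M : Submodule ℝ E, IsClosed (M : Set E) → ¬ FiniteDimensional ℝ M →
    ¬ ∃ c : ℝ, 0 < c ∧ ∀ v ∈ M, c * ‖v‖ ≤ ‖T v‖

/-- `E` is, through the linear map `ι` into the classes of measurable functions, a rearrangement
invariant Banach function space on `[0, 1]` in the sense of Lindenstrauss and Tzafriri (with the
Fatou property): a Banach space, embedded by the injective map `ι` as an order ideal with monotone
norm, invariant with its norm under equimeasurable rearrangement, with the Fatou property, and with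
`L_∞ ⊆ E ⊆ L_1`, both inclusions being of norm at most one. -/
structure IsRISpace (E : Type*) [NormedAddCommGroup E] [NormedSpace ℝ E]
    (ι : E →ₗ[ℝ] (ℝ →ₘ[leb01] ℝ)) : Prop where
  complete : CompleteSpace E
  injective : Function.Injective ι
  ideal : ∀ (f : E) (g : ℝ →ₘ[leb01] ℝ), (∀ᵐ t ∂leb01, |g t| ≤ |ι f t|) →
    ∃ g' : E, ι g' = g ∧ ‖g'‖ ≤ ‖f‖
  rearrangement : ∀ (f : E) (g : ℝ →ₘ[leb01] ℝ),
    Measure.map (fun t => |g t|) leb01 = Measure.map (fun t => |ι f t|) leb01 →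
    ∃ g' : E, ι g' = g ∧ ‖g'‖ = ‖f‖
  fatou : ∀ (f : ℕ → E) (g : ℝ →ₘ[leb01] ℝ) (C : ℝ), (∀ n, ‖f n‖ ≤ C) →
    (∀ᵐ t ∂leb01, Tendsto (fun n => ι (f n) t) atTop (𝓝 (g t))) →
    ∃ g' : E, ι g' = g ∧ ‖g'‖ ≤ C
  bounded : ∀ g : ℝ →ₘ[leb01] ℝ, (∀ᵐ t ∂leb01, |g t| ≤ 1) → ∃ g' : E, ι g' = g ∧ ‖g'‖ ≤ 1
  integrable : ∀ f : E, ∫⁻ t, ENNReal.ofReal |ι f t| ∂leb01 ≤ ENNReal.ofReal ‖f‖

/-- The Kato property: every strictly singular operator on `E` is compact. -/
def KatoProperty (E : Type*) [NormedAddCommGroup E] [NormedSpace ℝ E] : Prop :=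
  ∀ T : E →L[ℝ] E, StrictlySingular T → IsCompactOperator T

/-- 2-disjoint homogeneity of a space of functions: every normalized sequence of pairwise disjoint
elements has a subsequence equivalent to the unit vector basis of `ℓ₂`. -/
def TwoDH (E : Type*) [NormedAddCommGroup E] [NormedSpace ℝ E]
    (ι : E →ₗ[ℝ] (ℝ →ₘ[leb01] ℝ)) : Prop :=
  ∀ x : ℕ → E, (∀ n, ‖x n‖ = 1) →
    (∀ m n, m ≠ n → ∀ᵐ t ∂leb01, ι (x m) t = 0 ∨ ι (x n) t = 0) →
    ∃ σ : ℕ → ℕ, StrictMono σ ∧ ∃ C : ℝ, 0 < C ∧ ∀ (N : ℕ) (a : ℕ → ℝ),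
      C⁻¹ * Real.sqrt (∑ i ∈ Finset.range N, a i ^ 2) ≤
        ‖∑ i ∈ Finset.range N, a i • x (σ i)‖ ∧
      ‖∑ i ∈ Finset.range N, a i • x (σ i)‖ ≤
        C * Real.sqrt (∑ i ∈ Finset.range N, a i ^ 2)

/-- The inclusion of the Orlicz space in the space of classes of measurable functions. -/
noncomputable def orliczIncl {Ω : Type*} [MeasurableSpace Ω] (φ : OrliczFn) (μ : Measure Ω) :
    OrliczSpace φ μ →ₗ[ℝ] (Ω →ₘ[μ] ℝ) where
  toFun := OrliczSpace.toAE
  map_add' := fun _ _ => rfl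
  map_smul' := fun _ _ => rfl

end Pool.Agent.H27.Kato
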