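import Pool.Agent.H27.Kato.Ltwo

/-!
# Operators fixing a copy of `ℓ₂`
-/

open MeasureTheory Set Filter Topology
open scoped ENNReal NNReal

namespace Pool.Agent.H27.Kato

variable {Ω : Type*} [MeasurableSpace Ω] {μ : Measure Ω} {φ : OrliczFn} {B : ℤ → ℕ}

section transfer

variable {E : Type*} [AddCommGroup E] [Module ℝ E]

/-- transfer of a statement on finite sums along an injection -/
lemma sum_transfer' {ι : Type*} {e : ι → ℕ} (he : Function.Injective e) (x : ℕ → E)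
    (S : Finset ι) (a : ι → ℝ) :
    ∃ (S' : Finset ℕ) (a' : ℕ → ℝ), ∑ q ∈ S, a q • x (e q) = ∑ j ∈ S', a' j • x j ∧
      ∑ q ∈ S, a q ^ 2 = ∑ j ∈ S', a' j ^ 2 := by
  refine ⟨S.map ⟨e, he⟩, Function.extend e a 0, ?_, ?_⟩
  · rw [Finset.sum_map]
    apply Finset.sum_congr rfl
    intro q _
    simp only [Function.Embedding.coeFn_mk]
    rw [he.extend_apply]
  · rw [Finset.sum_map]
    apply Finset.sum_congr rfl
    intro q _
    simp only [Function.Embedding.coeFn_mk]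
    rw [he.extend_apply]

end transfer

/-- upper quadratic estimate -/
def Up2 (x : ℕ → OrliczSpace φ μ) : Prop :=
  ∃ K : ℝ, ∀ (s : Finset ℕ) (a : ℕ → ℝ), ∑ j ∈ s, a j ^ 2 ≤ 1 → ‖∑ j ∈ s, a j • x j‖ ≤ K

/-- lower quadratic estimate -/
def Lo2 (y : ℕ → OrliczSpace φ μ) : Prop :=
  ∃ c : ℝ, 0 < c ∧ ∀ (s : Finset ℕ) (a : ℕ → ℝ), ∑ j ∈ s, a j ^ 2 = 1 → c ≤ ‖∑ j ∈ s, a j • y j‖

/-- scale-wise quadratic lower bound of the modulars -/
def LoScale (z : ℕ → OrliczSpace φ μ) : Prop :=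
  ∃ κ : ℝ, 0 < κ ∧ ∀ A : ℕ, ∃ j0 : ℕ, ∀ j ≥ j0, ∀ a ≤ A,
    ENNReal.ofReal (κ * (4 : ℝ)⁻¹ ^ a) ≤ rho μ φ (fun t => (2 : ℝ)⁻¹ ^ a * z j t)

lemma Up2.comp {x : ℕ → OrliczSpace φ μ} (hx : Up2 x) {σ : ℕ → ℕ} (hσ : Function.Injective σ) :
    Up2 (fun n => x (σ n)) := by
  obtain ⟨K, hK⟩ := hx
  refine ⟨K, fun s a hs => ?_⟩
  obtain ⟨S', a', h1, h2⟩ := sum_transfer' hσ x s a
  rw [h1]
  exact hK S' a' (by rw [← h2]; exact hs)

lemma Lo2.comp {x : ℕ → OrliczSpace φ μ} (hx : Lo2 x) {σ : ℕ → ℕ} (hσ : Function.Injective σ) :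
    Lo2 (fun n => x (σ n)) := by
  obtain ⟨K, hK0, hK⟩ := hx
  refine ⟨K, hK0, fun s a hs => ?_⟩
  obtain ⟨S', a', h1, h2⟩ := sum_transfer' hσ x s a
  rw [h1]
  exact hK S' a' (by rw [← h2]; exact hs)

lemma LoScale.comp {z : ℕ → OrliczSpace φ μ} (hz : LoScale z) {σ : ℕ → ℕ} (hσ : StrictMono σ) :
    LoScale (fun n => z (σ n)) := by
  obtain ⟨κ, hκ, hz⟩ := hz
  refine ⟨κ, hκ, fun A => ?_⟩
  obtain ⟨j0, hj0⟩ := hz A
  exact ⟨j0, fun j hj a ha => hj0 (σ j) (hj.trans (hσ.id_le j)) a ha⟩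

namespace Rel

variable (h : Rel φ B)
include h

/-- The main lemma: block vectors spanning `ℓ₂` both in the domain and in the range. -/
lemma fix_blocks {C0 : ℕ} {r : ℕ → ℕ} (hr : WinOK B C0 r)
    (hLR : ∀ A : ℕ, ∃ n : ℕ, ∀ p : ℤ, n ≤ B p → ∀ a : ℕ, a ≤ A → B p ≤ B (p - (a : ℤ)) + 1)
    (x y : ℕ → OrliczSpace φ μ)
    (hU : Up2 x ∨ (PDisj x ∧ ∀ j, ‖x j‖ ≤ 1))
    (hL : Lo2 y ∨ ∃ z : ℕ → OrliczSpace φ μ, PDisj z ∧
      (∃ κ : ℝ, 0 < κ ∧ ∀ j, ENNReal.ofReal κ ≤ rho μ φ (z j)) ∧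
      ∀ j, ‖y j - z j‖ ≤ (2 : ℝ)⁻¹ ^ j) :
    ∃ (σ : ℕ → ℕ) (J : ℕ → ℕ), StrictMono σ ∧
      Up2 (blk r J (fun n => x (σ n))) ∧ Lo2 (blk r J (fun n => y (σ n))) := by
  -- step 1
  obtain ⟨σ1, hσ1, hL1⟩ : ∃ σ1 : ℕ → ℕ, StrictMono σ1 ∧ (Lo2 (fun n => y (σ1 n)) ∨
      ∃ z : ℕ → OrliczSpace φ μ, PDisj z ∧ LoScale z ∧ ∀ j, ‖y (σ1 j) - z j‖ ≤ (2 : ℝ)⁻¹ ^ j) := by
    rcases hL with hL | ⟨z, hz, ⟨κ, hκ, hzκ⟩, hyz⟩
    · exact ⟨id, strictMono_id, Or.inl hL⟩
    · obtain ⟨σ1, hσ1, κ', hκ', hd⟩ := h.dichotomy hLR (fun j => (z j : Ω → ℝ))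
        (fun j => AEEqFun.measurable (z j).toAE) hκ hzκ
      refine ⟨σ1, hσ1, Or.inr ⟨fun n => z (σ1 n), hz.comp hσ1.injective, ⟨κ', hκ', hd⟩, ?_⟩⟩
      intro j
      exact (hyz (σ1 j)).trans (pow_le_pow_of_le_one (by norm_num) (by norm_num) (hσ1.id_le j))
  -- step 2
  obtain ⟨σ2, hσ2, hU2⟩ : ∃ σ2 : ℕ → ℕ, StrictMono σ2 ∧ (Up2 (fun n => x (σ1 (σ2 n))) ∨
      (PDisj (fun n => x (σ1 (σ2 n))) ∧ (∀ j, rho μ φ (x (σ1 (σ2 j))) ≤ 1) ∧
      ∃ Ψ : ℕ → ℝ≥0∞, ∀ a, Tendsto (fun j => rho μ φ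
        (fun t => (2 : ℝ)⁻¹ ^ a * x (σ1 (σ2 j)) t)) atTop (𝓝 (Ψ a)))) := by
    rcases hU with hU | ⟨hx, hx1⟩
    · exact ⟨id, strictMono_id, Or.inl (hU.comp hσ1.injective)⟩
    · obtain ⟨σ2, hσ2, Ψ, hΨ⟩ := exists_ptwise
        (fun j a => rho μ φ (fun t => (2 : ℝ)⁻¹ ^ a * x (σ1 j) t))
      exact ⟨σ2, hσ2, Or.inr ⟨hx.comp (hσ1.injective.comp hσ2.injective),
        fun j => OrliczSpace.rho_le_one (hx1 _), Ψ, hΨ⟩⟩
  have hL2 : Lo2 (fun n => y (σ1 (σ2 n))) ∨ ∃ z : ℕ → OrliczSpace φ μ, PDisj z ∧ LoScale z ∧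
      ∀ j, ‖y (σ1 (σ2 j)) - z j‖ ≤ (2 : ℝ)⁻¹ ^ j := by
    rcases hL1 with hL1 | ⟨z, hz, hzs, hyz⟩
    · exact Or.inl (hL1.comp hσ2.injective)
    · refine Or.inr ⟨fun n => z (σ2 n), hz.comp hσ2.injective, hzs.comp hσ2, fun j => ?_⟩
      exact (hyz (σ2 j)).trans (pow_le_pow_of_le_one (by norm_num) (by norm_num) (hσ2.id_le j))
  clear hL1 hL hU
  set X : ℕ → OrliczSpace φ μ := fun n => x (σ1 (σ2 n)) with hX
  set Y : ℕ → OrliczSpace φ μ := fun n => y (σ1 (σ2 n)) with hY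
  -- upper estimates
  have hupper : ∃ J1 : ℕ → ℕ, ∀ J : ℕ → ℕ, (∀ k, J1 k ≤ J k) → Up2 (blk r J X) := by
    rcases hU2 with ⟨K, hK⟩ | ⟨hxd, hx1, Ψ, hΨ⟩
    · refine ⟨0, fun J _ => ⟨K, fun s c hc => ?_⟩⟩
      rw [sum_blk]
      obtain ⟨S', a', h1, h2⟩ := sum_transfer J X (idx r s) (cf r c)
      rw [h1]
      apply hK
      rw [← h2, sum_cf_sq]
      exact hc
    · obtain ⟨J1, hJ1⟩ := h.upper_disj hr hxd hx1 hΨ
      refine ⟨J1, fun J hJ => ⟨2 + 4 * (256 * C0 + 1), fun s c hc => ?_⟩⟩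
      apply OrliczSpace.norm_le_of_rho_le _ (hJ1 J hJ s c hc)
      have : (0 : ℝ) ≤ C0 := Nat.cast_nonneg _
      linarith
  -- lower estimates
  have hlower : ∃ J2 : ℕ → ℕ, ∀ J : ℕ → ℕ, (∀ k, J2 k ≤ J k) → Lo2 (blk r J Y) := by
    rcases hL2 with ⟨c, hc0, hc⟩ | ⟨z, hz, ⟨κ, hκ, hzs⟩, hyz⟩
    · refine ⟨0, fun J _ => ⟨c, hc0, fun s a ha => ?_⟩⟩
      rw [sum_blk]
      obtain ⟨S', a', h1, h2⟩ := sum_transfer J Y (idx r s) (cf r a)
      rw [h1]
      apply hc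
      rw [← h2, sum_cf_sq]
      exact ha
    · obtain ⟨J2, hJ2⟩ := lower_disj (r := r) hz hκ hzs
      set κ1 : ℝ := min (κ / 8) 1 with hκ1
      have hκ10 : 0 < κ1 := lt_min (by positivity) one_pos
      obtain ⟨N, hN⟩ := exists_pow_lt_of_lt_one (show (0 : ℝ) < κ1 / 4 by positivity)
        (show (2 : ℝ)⁻¹ < 1 by norm_num)
      refine ⟨fun k => max (J2 k) N, fun J hJ => ⟨κ1 / 2, by positivity, fun s a ha => ?_⟩⟩
      have h1 : κ1 ≤ ‖∑ k ∈ s, a k • blk r J z k‖ := by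
        apply OrliczSpace.le_norm_of_le_rho (min_le_right _ _)
        refine le_trans (ENNReal.ofReal_le_ofReal (min_le_left _ _)) ?_
        exact hJ2 J (fun k => (le_max_left _ _).trans (hJ k)) s a ha
      have h2 : ‖∑ k ∈ s, a k • blk r J Y k - ∑ k ∈ s, a k • blk r J z k‖ ≤ κ1 / 2 := by
        rw [sum_blk, sum_blk, ← Finset.sum_sub_distrib]
        have hcf : ∀ q ∈ idx r s, |cf r a q| ≤ 1 := by
          intro q hq
          rw [← sq_le_one_iff_abs_le_one]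
          calc cf r a q ^ 2 ≤ ∑ q ∈ idx r s, cf r a q ^ 2 :=
                Finset.single_le_sum (fun i _ => sq_nonneg (cf r a i)) hq
            _ = 1 := by rw [sum_cf_sq, ha]
        calc ‖∑ q ∈ idx r s, (cf r a q • Y (enu J q) - cf r a q • z (enu J q))‖
            ≤ ∑ q ∈ idx r s, (2 : ℝ)⁻¹ ^ (enu J q) := by
              refine (norm_sum_le _ _).trans (Finset.sum_le_sum (fun q hq => ?_))
              rw [← smul_sub, norm_smul, Real.norm_eq_abs]
              calc |cf r a q| * ‖Y (enu J q) - z (enu J q)‖ ≤ 1 * (2 : ℝ)⁻¹ ^ (enu J q) :=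
                    mul_le_mul (hcf q hq) (hyz _) (norm_nonneg _) zero_le_one
                _ = _ := one_mul _
          _ ≤ ∑ j ∈ (idx r s).map ⟨enu J, enu_injective J⟩, (2 : ℝ)⁻¹ ^ N * (2 : ℝ)⁻¹ ^ (j - N) := by
              rw [Finset.sum_map]
              apply Finset.sum_le_sum
              intro q _
              simp only [Function.Embedding.coeFn_mk]
              rw [← pow_add]
              apply le_of_eq
              congr 1
              have : N ≤ enu J q := ((le_max_right _ _).trans (hJ q.1)).trans (le_enu J q)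
              omega
          _ ≤ (2 : ℝ)⁻¹ ^ N * 2 := by
              rw [← Finset.mul_sum]
              apply mul_le_mul_of_nonneg_left _ (by positivity)
              have hge : ∀ j ∈ (idx r s).map ⟨enu J, enu_injective J⟩, N ≤ j := by
                intro j hj
                rw [Finset.mem_map] at hj
                obtain ⟨q, _, rfl⟩ := hj
                exact ((le_max_right _ _).trans (hJ q.1)).trans (le_enu J q)
              have h3 : ∑ j ∈ (idx r s).map ⟨enu J, enu_injective J⟩, (2 : ℝ)⁻¹ ^ (j - N) =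
                  ∑ i ∈ ((idx r s).map ⟨enu J, enu_injective J⟩).image (fun j => j - N),
                    (2 : ℝ)⁻¹ ^ i := by
                rw [Finset.sum_image]
                intro i hi j hj hij
                have h4 := hge i hi
                have h5 := hge j hj
                simp only at hij
                omega
              rw [h3]
              exact sum_geom_le _
          _ ≤ κ1 / 2 := by linarith
      have h3 := norm_sub_norm_le (∑ k ∈ s, a k • blk r J z k) (∑ k ∈ s, a k • blk r J Y k)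
      rw [norm_sub_rev] at h3
      linarith
  obtain ⟨J1, hJ1⟩ := hupper
  obtain ⟨J2, hJ2⟩ := hlower
  exact ⟨σ1 ∘ σ2, fun k => max (J1 k) (J2 k), hσ1.comp hσ2,
    hJ1 _ (fun k => le_max_left _ _), hJ2 _ (fun k => le_max_right _ _)⟩

end Rel

/-- An operator with an upper quadratic estimate for `u` and a lower one for `T u` is not
strictly singular. -/
lemma not_strictlySingular {E : Type*} [NormedAddCommGroup E] [NormedSpace ℝ E] (T : E →L[ℝ] E)
    (u : ℕ → E) {K c : ℝ} (hc : 0 < c)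
    (hK : ∀ (s : Finset ℕ) (a : ℕ → ℝ), ∑ j ∈ s, a j ^ 2 ≤ 1 → ‖∑ j ∈ s, a j • u j‖ ≤ K)
    (hL : ∀ (s : Finset ℕ) (a : ℕ → ℝ), ∑ j ∈ s, a j ^ 2 = 1 → c ≤ ‖∑ j ∈ s, a j • T (u j)‖) :
    ¬ StrictlySingular T := by
  intro hT
  have hK0 : 0 ≤ K := (norm_nonneg _).trans (hK ∅ 0 (by simp))
  -- homogeneous forms
  have hhom : ∀ (s : Finset ℕ) (a : ℕ → ℝ), c * ‖∑ j ∈ s, a j • u j‖ ≤
      (K + 1) * ‖∑ j ∈ s, a j • T (u j)‖ := by
    intro s a
    set Q := ∑ j ∈ s, a j ^ 2 with hQ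
    have hQ0 : 0 ≤ Q := Finset.sum_nonneg (fun _ _ => sq_nonneg _)
    rcases hQ0.eq_or_lt with h0 | h0
    · have : ∀ j ∈ s, a j = 0 := by
        intro j hj
        have := (Finset.sum_eq_zero_iff_of_nonneg (fun _ _ => sq_nonneg _)).1 h0.symm j hj
        exact pow_eq_zero_iff (two_ne_zero) |>.1 this
      rw [Finset.sum_eq_zero (fun j hj => by rw [this j hj, zero_smul])]
      rw [Finset.sum_eq_zero (fun j hj => by rw [this j hj, zero_smul])]
      simp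
    · set t := (Real.sqrt Q)⁻¹ with ht
      have ht0 : 0 < t := inv_pos.2 (Real.sqrt_pos.2 h0)
      have h1 : ∑ j ∈ s, (t * a j) ^ 2 = 1 := by
        have : ∀ j ∈ s, (t * a j) ^ 2 = t ^ 2 * a j ^ 2 := fun j _ => by ring
        rw [Finset.sum_congr rfl this, ← Finset.mul_sum, ← hQ, ht, inv_pow, Real.sq_sqrt hQ0,
          inv_mul_cancel₀ h0.ne']
      have h2 := hK s (fun j => t * a j) h1.le
      have h3 := hL s (fun j => t * a j) h1
      have e2 : ∑ j ∈ s, (t * a j) • u j = t • ∑ j ∈ s, a j • u j := by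
        rw [Finset.smul_sum]
        exact Finset.sum_congr rfl (fun j _ => by rw [smul_smul])
      have e3 : ∑ j ∈ s, (t * a j) • T (u j) = t • ∑ j ∈ s, a j • T (u j) := by
        rw [Finset.smul_sum]
        exact Finset.sum_congr rfl (fun j _ => by rw [smul_smul])
      rw [e2, norm_smul, Real.norm_eq_abs, abs_of_pos ht0] at h2
      rw [e3, norm_smul, Real.norm_eq_abs, abs_of_pos ht0] at h3
      have h4 : t * (c * ‖∑ j ∈ s, a j • u j‖) ≤ t * ((K + 1) * ‖∑ j ∈ s, a j • T (u j)‖) := by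
        calc t * (c * ‖∑ j ∈ s, a j • u j‖) = c * (t * ‖∑ j ∈ s, a j • u j‖) := by ring
          _ ≤ c * K := mul_le_mul_of_nonneg_left h2 hc.le
          _ ≤ c * (K + 1) := by nlinarith
          _ ≤ (t * ‖∑ j ∈ s, a j • T (u j)‖) * (K + 1) :=
              mul_le_mul_of_nonneg_right h3 (by linarith)
          _ = _ := by ring
      exact le_of_mul_le_mul_left h4 ht0
  set M : Submodule ℝ E := (Submodule.span ℝ (range u)).topologicalClosure with hM
  have hbelow : ∀ v ∈ M, c / (K + 1) * ‖v‖ ≤ ‖T v‖ := by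
    have hclosed : IsClosed {v : E | c / (K + 1) * ‖v‖ ≤ ‖T v‖} :=
      isClosed_le (continuous_const.mul continuous_norm) (T.continuous.norm)
    have hsub : (Submodule.span ℝ (range u) : Set E) ⊆ {v : E | c / (K + 1) * ‖v‖ ≤ ‖T v‖} := by
      intro v hv
      obtain ⟨a, ha⟩ := (Finsupp.mem_span_range_iff_exists_finsupp).1 hv
      show c / (K + 1) * ‖v‖ ≤ ‖T v‖
      have h1 := hhom a.support a
      have e1 : ∑ j ∈ a.support, a j • u j = v := ha
      have e2 : ∑ j ∈ a.support, a j • T (u j) = T v := by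
        rw [← e1, map_sum]
        exact Finset.sum_congr rfl (fun j _ => by rw [map_smul])
      rw [e1, e2] at h1
      rw [div_mul_eq_mul_div, div_le_iff₀ (by linarith)]
      linarith
    intro v hv
    exact closure_minimal hsub hclosed hv
  refine hT M (Submodule.isClosed_topologicalClosure _) ?_ ⟨c / (K + 1), by positivity, hbelow⟩
  intro hfin
  have hlin : LinearIndependent ℝ u := by
    rw [linearIndependent_iff']
    intro s g hg i hi
    by_contra hne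
    have hQ : 0 < ∑ j ∈ s, g j ^ 2 :=
      Finset.sum_pos' (fun _ _ => sq_nonneg _) ⟨i, hi, by positivity⟩
    set Q := ∑ j ∈ s, g j ^ 2 with hQdef
    set t := (Real.sqrt Q)⁻¹ with ht
    have h1 : ∑ j ∈ s, (t * g j) ^ 2 = 1 := by
      have : ∀ j ∈ s, (t * g j) ^ 2 = t ^ 2 * g j ^ 2 := fun j _ => by ring
      rw [Finset.sum_congr rfl this, ← Finset.mul_sum, ← hQdef, ht, inv_pow, Real.sq_sqrt hQ.le,
        inv_mul_cancel₀ hQ.ne']
    have h3 := hL s (fun j => t * g j) h1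
    have e3 : ∑ j ∈ s, (t * g j) • T (u j) = t • T (∑ j ∈ s, g j • u j) := by
      rw [map_sum, Finset.smul_sum]
      exact Finset.sum_congr rfl (fun j _ => by rw [map_smul, smul_smul])
    rw [e3, hg] at h3
    simp at h3
    linarith
  have hmem : ∀ n, u n ∈ M := fun n =>
    Submodule.le_topologicalClosure _ (Submodule.subset_span (mem_range_self n))
  have hlin2 : LinearIndependent ℝ (fun n => (⟨u n, hmem n⟩ : M)) := by
    apply LinearIndependent.of_comp M.subtype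
    exact hlin
  have := LinearIndependent.finite hlin2
  exact not_finite ℕ

end Pool.Agent.H27.Kato
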