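import Mathlib

/-!
# Fourth moments of a uniformly bounded weakly null sequence

Paper proof. We may take `M ≥ 1`. Choose the subsequence so that for all `i, j, k < n`,
`|∫ b_i b_j b_k b_n| ≤ ε_n` and `|∫ b_i b_n| ≤ ε_n`, where `ε_n = 2⁻¹ ^ n / (n + 1) ^ 3` (possible, as
`b_i b_j b_k` is bounded, hence in `L²`). For `∑ a_j² ≤ 1` and `S_n = ∑_{j < n} a_j b_j`:
`∫ S_{n+1}² ≤ ∫ S_n² + 2 * 2⁻¹ ^ n + a_n² M²`, so `∫ S_n² ≤ 4 + M²`, and, as pointwise
`(S + a b)⁴ ≤ S⁴ + 4 a S³ b + 8 a² S² b² + 3 a⁴ b⁴`,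
`∫ S_{n+1}⁴ ≤ ∫ S_n⁴ + 4 * 2⁻¹ ^ n + (8 M² (4 + M²) + 3 M⁴) a_n²`.
-/

open Filter Topology MeasureTheory

namespace Pool.Agent.H27.Kato

section BM

variable {Ω : Type*} [MeasurableSpace Ω] {μ : Measure Ω}

/-- Almost everywhere strongly measurable and essentially bounded. -/
def BM (μ : Measure Ω) (f : Ω → ℝ) : Prop :=
  AEStronglyMeasurable f μ ∧ ∃ C : ℝ, ∀ᵐ x ∂μ, |f x| ≤ C

theorem BM.mul {f g : Ω → ℝ} (hf : BM μ f) (hg : BM μ g) : BM μ (fun x => f x * g x) := by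
  obtain ⟨hf1, C, hC⟩ := hf
  obtain ⟨hg1, D, hD⟩ := hg
  refine ⟨hf1.mul hg1, C * D, ?_⟩
  filter_upwards [hC, hD] with x h1 h2
  rw [abs_mul]
  exact mul_le_mul h1 h2 (abs_nonneg _) ((abs_nonneg _).trans h1)

theorem BM.add {f g : Ω → ℝ} (hf : BM μ f) (hg : BM μ g) : BM μ (fun x => f x + g x) := by
  obtain ⟨hf1, C, hC⟩ := hf
  obtain ⟨hg1, D, hD⟩ := hg
  refine ⟨hf1.add hg1, C + D, ?_⟩
  filter_upwards [hC, hD] with x h1 h2
  exact (abs_add_le _ _).trans (add_le_add h1 h2)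

theorem BM.const (c : ℝ) : BM μ (fun _ => c) :=
  ⟨aestronglyMeasurable_const, |c|, Eventually.of_forall fun _ => le_rfl⟩

theorem BM.const_mul {f : Ω → ℝ} (c : ℝ) (hf : BM μ f) : BM μ (fun x => c * f x) :=
  (BM.const c).mul hf

theorem BM.pow {f : Ω → ℝ} (hf : BM μ f) (n : ℕ) : BM μ (fun x => f x ^ n) := by
  induction n with
  | zero => simpa using BM.const (μ := μ) (1 : ℝ)
  | succ n ih => simpa only [pow_succ] using ih.mul hf

theorem BM.sum {ι : Type*} (s : Finset ι) {f : ι → Ω → ℝ} (hf : ∀ i, BM μ (f i)) :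
    BM μ (fun x => ∑ i ∈ s, f i x) := by
  classical
  induction s using Finset.induction_on with
  | empty => simpa using BM.const (μ := μ) (0 : ℝ)
  | insert a s ha ih =>
    simp only [Finset.sum_insert ha]
    exact (hf a).add ih

theorem BM.integrable [IsFiniteMeasure μ] {f : Ω → ℝ} (hf : BM μ f) : Integrable f μ := by
  obtain ⟨hf1, C, hC⟩ := hf
  exact Integrable.of_bound hf1 C hC

theorem BM.memLp [IsFiniteMeasure μ] {f : Ω → ℝ} (hf : BM μ f) : MemLp f 2 μ := by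
  obtain ⟨hf1, C, hC⟩ := hf
  exact MemLp.of_bound hf1 C hC

end BM

section Core

variable {Ω : Type*} [MeasurableSpace Ω] (μ : Measure Ω) [IsProbabilityMeasure μ]

/-- If `|∫ B i * G| ≤ δ` for all `i < n` and `|a i| ≤ 1` then `|∫ S_n * G| ≤ n * δ`. -/
theorem abs_integral_sum_le (B : ℕ → Ω → ℝ) (hB : ∀ n, BM μ (B n)) (a : ℕ → ℝ)
    (ha : ∀ i, |a i| ≤ 1) (n : ℕ) (G : Ω → ℝ) (hG : BM μ G) (δ : ℝ)
    (hδ : ∀ i < n, |∫ x, B i x * G x ∂μ| ≤ δ) :
    |∫ x, (∑ j ∈ Finset.range n, a j * B j x) * G x ∂μ| ≤ n * δ := by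
  have h1 : ∫ x, (∑ j ∈ Finset.range n, a j * B j x) * G x ∂μ =
      ∑ j ∈ Finset.range n, a j * ∫ x, B j x * G x ∂μ := by
    simp only [Finset.sum_mul, mul_assoc]
    rw [integral_finsetSum _ fun i _ => (((hB i).mul hG).const_mul (a i)).integrable]
    exact Finset.sum_congr rfl fun i _ => integral_const_mul _ _
  rw [h1]
  refine (Finset.abs_sum_le_sum_abs _ _).trans ?_
  have h2 : ∀ i ∈ Finset.range n, |a i * ∫ x, B i x * G x ∂μ| ≤ δ := by
    intro i hi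
    rw [abs_mul]
    calc |a i| * |∫ x, B i x * G x ∂μ| ≤ 1 * |∫ x, B i x * G x ∂μ| :=
          mul_le_mul_of_nonneg_right (ha i) (abs_nonneg _)
      _ ≤ δ := by rw [one_mul]; exact hδ i (Finset.mem_range.1 hi)
  refine (Finset.sum_le_sum h2).trans ?_
  simp

theorem fourth_core (B : ℕ → Ω → ℝ) (M : ℝ) (hM1 : 1 ≤ M)
    (hBm : ∀ n, AEStronglyMeasurable (B n) μ) (hM : ∀ n, ∀ᵐ x ∂μ, |B n x| ≤ M)
    (ε : ℕ → ℝ) (hε : ∀ n : ℕ, (n : ℝ) ^ 3 * ε n ≤ 2⁻¹ ^ n) (hε0 : ∀ n, 0 ≤ ε n)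
    (h4 : ∀ n, ∀ i < n, ∀ j < n, ∀ k < n,
      |∫ x, B n x * (B i x * B j x * B k x) ∂μ| ≤ ε n)
    (h2 : ∀ n, ∀ i < n, |∫ x, B n x * B i x ∂μ| ≤ ε n)
    (a : ℕ → ℝ) (ha : ∀ n, ∑ j ∈ Finset.range n, a j ^ 2 ≤ 1) (n : ℕ) :
    ∫ x, (∑ j ∈ Finset.range n, a j * B j x) ^ 4 ∂μ ≤
      8 + 8 * M ^ 2 * (4 + M ^ 2) + 3 * M ^ 4 := by
  have hB : ∀ n, BM μ (B n) := fun n => ⟨hBm n, M, hM n⟩
  have ha2 : ∀ i, a i ^ 2 ≤ 1 := by
    intro i
    refine le_trans ?_ (ha (i + 1))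
    exact Finset.single_le_sum (f := fun j => a j ^ 2) (fun j _ => sq_nonneg _)
      (Finset.mem_range.2 (Nat.lt_succ_self i))
  have ha1 : ∀ i, |a i| ≤ 1 := by
    intro i
    have := ha2 i
    rw [← sq_abs] at this
    nlinarith [abs_nonneg (a i)]
  have hSB : ∀ n, BM μ (fun x => ∑ j ∈ Finset.range n, a j * B j x) := fun n =>
    BM.sum _ fun i => (hB i).const_mul (a i)
  -- `n * ε n ≤ 2⁻¹ ^ n`
  have hε1 : ∀ n : ℕ, (n : ℝ) * ε n ≤ 2⁻¹ ^ n := by
    intro n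
    refine le_trans (mul_le_mul_of_nonneg_right ?_ (hε0 n)) (hε n)
    rcases Nat.eq_zero_or_pos n with h | h
    · subst h; simp
    · have h1 : (1 : ℝ) ≤ n := by exact_mod_cast h
      have h3 : (1 : ℝ) ≤ (n : ℝ) ^ 2 := by nlinarith
      calc (n : ℝ) = n * 1 := (mul_one _).symm
        _ ≤ n * (n : ℝ) ^ 2 := mul_le_mul_of_nonneg_left h3 (by linarith)
        _ = (n : ℝ) ^ 3 := by ring
  -- cross terms
  have hcross2 : ∀ n, |∫ x, (∑ j ∈ Finset.range n, a j * B j x) * B n x ∂μ| ≤ 2⁻¹ ^ n := by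
    intro n
    refine (abs_integral_sum_le μ B hB a ha1 n (B n) (hB n) (ε n) ?_).trans (hε1 n)
    intro i hi
    have := h2 n i hi
    simpa only [mul_comm] using this
  have hcross4 : ∀ n, |∫ x, (∑ j ∈ Finset.range n, a j * B j x) ^ 3 * B n x ∂μ| ≤ 2⁻¹ ^ n := by
    intro n
    have e1 : ∀ x, (∑ j ∈ Finset.range n, a j * B j x) ^ 3 * B n x =
        (∑ j ∈ Finset.range n, a j * B j x) * ((∑ j ∈ Finset.range n, a j * B j x) *
          ((∑ j ∈ Finset.range n, a j * B j x) * B n x)) := fun x => by ring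
    simp only [e1]
    refine (abs_integral_sum_le μ B hB a ha1 n _ ((hSB n).mul ((hSB n).mul (hB n)))
      (n * (n * ε n)) ?_).trans (by
        calc (n : ℝ) * (n * (n * ε n)) = (n : ℝ) ^ 3 * ε n := by ring
          _ ≤ _ := hε n)
    intro i hi
    have e2 : ∀ x, B i x * ((∑ j ∈ Finset.range n, a j * B j x) *
          ((∑ j ∈ Finset.range n, a j * B j x) * B n x)) =
        (∑ j ∈ Finset.range n, a j * B j x) * ((∑ j ∈ Finset.range n, a j * B j x) *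
          (B i x * B n x)) := fun x => by ring
    simp only [e2]
    refine abs_integral_sum_le μ B hB a ha1 n _ ((hSB n).mul ((hB i).mul (hB n)))
      (n * ε n) ?_
    intro j hj
    have e3 : ∀ x, B j x * ((∑ j ∈ Finset.range n, a j * B j x) * (B i x * B n x)) =
        (∑ j ∈ Finset.range n, a j * B j x) * (B j x * (B i x * B n x)) := fun x => by ring
    simp only [e3]
    refine abs_integral_sum_le μ B hB a ha1 n _ ((hB j).mul ((hB i).mul (hB n))) (ε n) ?_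
    intro k hk
    have e4 : ∀ x, B k x * (B j x * (B i x * B n x)) =
        B n x * (B i x * B j x * B k x) := fun x => by ring
    simp only [e4]
    exact h4 n i hi j hj k hk
  -- the second moment
  have hsq : ∀ n, ∫ x, (B n x) ^ 2 ∂μ ≤ M ^ 2 := by
    intro n
    have h1 : ∫ x, (B n x) ^ 2 ∂μ ≤ ∫ _, M ^ 2 ∂μ := by
      refine integral_mono_ae ((hB n).pow 2).integrable (integrable_const _) ?_
      filter_upwards [hM n] with x hx
      simpa only [sq_abs] using pow_le_pow_left₀ (abs_nonneg _) hx 2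
    simpa using h1
  have hq : ∀ n, ∫ x, (B n x) ^ 4 ∂μ ≤ M ^ 4 := by
    intro n
    have h1 : ∫ x, (B n x) ^ 4 ∂μ ≤ ∫ _, M ^ 4 ∂μ := by
      refine integral_mono_ae ((hB n).pow 4).integrable (integrable_const _) ?_
      filter_upwards [hM n] with x hx
      have := pow_le_pow_left₀ (abs_nonneg _) hx 4
      rwa [Even.pow_abs (by decide)] at this
    simpa using h1
  have hS2 : ∀ n, ∫ x, (∑ j ∈ Finset.range n, a j * B j x) ^ 2 ∂μ ≤
      ∑ k ∈ Finset.range n, 2 * (2⁻¹ : ℝ) ^ k + M ^ 2 * ∑ j ∈ Finset.range n, a j ^ 2 := by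
    intro n
    induction n with
    | zero => simp
    | succ n ih =>
      simp only [Finset.sum_range_succ]
      have e1 : ∀ x, (∑ j ∈ Finset.range n, a j * B j x + a n * B n x) ^ 2 =
          (∑ j ∈ Finset.range n, a j * B j x) ^ 2 +
          ((2 * a n) * ((∑ j ∈ Finset.range n, a j * B j x) * B n x) + a n ^ 2 * (B n x) ^ 2) :=
        fun x => by ring
      simp only [e1]
      rw [integral_add ((hSB n).pow 2).integrable
        (((((hSB n).mul (hB n)).const_mul _).add (((hB n).pow 2).const_mul _)).integrable),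
        integral_add (((hSB n).mul (hB n)).const_mul _).integrable
        (((hB n).pow 2).const_mul _).integrable, integral_const_mul, integral_const_mul]
      have h5 : 2 * a n * ∫ x, (∑ j ∈ Finset.range n, a j * B j x) * B n x ∂μ ≤
          2 * (2⁻¹ : ℝ) ^ n := by
        refine (le_abs_self _).trans ?_
        rw [abs_mul, abs_mul, abs_two]
        have := mul_le_mul (ha1 n) (hcross2 n) (abs_nonneg _) (by norm_num)
        nlinarith [this]
      have h6 : a n ^ 2 * ∫ x, (B n x) ^ 2 ∂μ ≤ a n ^ 2 * M ^ 2 :=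
        mul_le_mul_of_nonneg_left (hsq n) (sq_nonneg _)
      nlinarith [ih, h5, h6]
  have hgeo : ∀ n, ∑ k ∈ Finset.range n, (2⁻¹ : ℝ) ^ k ≤ 2 := by
    intro n
    have h1 : HasSum (fun k : ℕ => (2⁻¹ : ℝ) ^ k) (1 - 2⁻¹)⁻¹ :=
      hasSum_geometric_of_lt_one (by norm_num) (by norm_num)
    refine (sum_le_hasSum _ (fun i _ => by positivity) h1).trans ?_
    norm_num
  have hS2' : ∀ n, ∫ x, (∑ j ∈ Finset.range n, a j * B j x) ^ 2 ∂μ ≤ 4 + M ^ 2 := by
    intro n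
    refine (hS2 n).trans ?_
    rw [← Finset.mul_sum]
    have h5 := hgeo n
    have h6 : M ^ 2 * ∑ j ∈ Finset.range n, a j ^ 2 ≤ M ^ 2 * 1 :=
      mul_le_mul_of_nonneg_left (ha n) (sq_nonneg _)
    linarith
  -- the fourth moment
  have hS4 : ∀ n, ∫ x, (∑ j ∈ Finset.range n, a j * B j x) ^ 4 ∂μ ≤
      ∑ k ∈ Finset.range n, 4 * (2⁻¹ : ℝ) ^ k +
        (8 * M ^ 2 * (4 + M ^ 2) + 3 * M ^ 4) * ∑ j ∈ Finset.range n, a j ^ 2 := by
    intro n
    induction n with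
    | zero => simp
    | succ n ih =>
      simp only [Finset.sum_range_succ]
      have hSn := hSB n
      set S : Ω → ℝ := fun x => ∑ j ∈ Finset.range n, a j * B j x with hS
      have i1 : BM μ (fun x => S x ^ 4) := hSn.pow 4
      have i2 : BM μ (fun x => (4 * a n) * (S x ^ 3 * B n x)) :=
        ((hSn.pow 3).mul (hB n)).const_mul _
      have i3 : BM μ (fun x => (8 * a n ^ 2) * (S x ^ 2 * B n x ^ 2)) :=
        ((hSn.pow 2).mul ((hB n).pow 2)).const_mul _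
      have i4 : BM μ (fun x => (3 * a n ^ 4) * (B n x ^ 4)) := ((hB n).pow 4).const_mul _
      have h5 : ∫ x, (S x + a n * B n x) ^ 4 ∂μ ≤
          ∫ x, (S x ^ 4 + ((4 * a n) * (S x ^ 3 * B n x) + ((8 * a n ^ 2) *
            (S x ^ 2 * B n x ^ 2) + (3 * a n ^ 4) * (B n x ^ 4)))) ∂μ := by
        refine integral_mono ((hSn.add ((hB n).const_mul _)).pow 4).integrable
          (i1.add (i2.add (i3.add i4))).integrable fun x => ?_
        change (S x + a n * B n x) ^ 4 ≤ S x ^ 4 + ((4 * a n) * (S x ^ 3 * B n x) +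
          ((8 * a n ^ 2) * (S x ^ 2 * B n x ^ 2) + (3 * a n ^ 4) * (B n x ^ 4)))
        nlinarith [sq_nonneg (a n * S x * B n x - a n ^ 2 * B n x ^ 2)]
      rw [integral_add i1.integrable (i2.add (i3.add i4)).integrable,
        integral_add i2.integrable (i3.add i4).integrable,
        integral_add i3.integrable i4.integrable, integral_const_mul, integral_const_mul,
        integral_const_mul] at h5
      have h6 : 4 * a n * ∫ x, S x ^ 3 * B n x ∂μ ≤ 4 * (2⁻¹ : ℝ) ^ n := by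
        refine (le_abs_self _).trans ?_
        rw [abs_mul, abs_mul]
        have h7 : |(4 : ℝ)| = 4 := by norm_num
        rw [h7]
        have := mul_le_mul (ha1 n) (hcross4 n) (abs_nonneg _) (by norm_num)
        nlinarith [this]
      have h7 : ∫ x, S x ^ 2 * B n x ^ 2 ∂μ ≤ M ^ 2 * (4 + M ^ 2) := by
        have h8 : ∫ x, S x ^ 2 * B n x ^ 2 ∂μ ≤ ∫ x, M ^ 2 * S x ^ 2 ∂μ := by
          refine integral_mono_ae ((hSn.pow 2).mul ((hB n).pow 2)).integrable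
            ((hSn.pow 2).const_mul _).integrable ?_
          filter_upwards [hM n] with x hx
          have h9 : B n x ^ 2 ≤ M ^ 2 := by
            simpa only [sq_abs] using pow_le_pow_left₀ (abs_nonneg _) hx 2
          nlinarith [mul_le_mul_of_nonneg_left h9 (sq_nonneg (S x))]
        rw [integral_const_mul] at h8
        exact h8.trans (mul_le_mul_of_nonneg_left (hS2' n) (sq_nonneg _))
      have h8 : 8 * a n ^ 2 * ∫ x, S x ^ 2 * B n x ^ 2 ∂μ ≤
          8 * a n ^ 2 * (M ^ 2 * (4 + M ^ 2)) :=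
        mul_le_mul_of_nonneg_left h7 (by positivity)
      have h9 : 3 * a n ^ 4 * ∫ x, B n x ^ 4 ∂μ ≤ 3 * a n ^ 2 * M ^ 4 := by
        have h10 : a n ^ 4 ≤ a n ^ 2 := by nlinarith [ha2 n, sq_nonneg (a n)]
        have h11 : 3 * a n ^ 4 * ∫ x, B n x ^ 4 ∂μ ≤ 3 * a n ^ 4 * M ^ 4 :=
          mul_le_mul_of_nonneg_left (hq n) (by positivity)
        have h12 : 0 ≤ M ^ 4 := by positivity
        nlinarith [mul_le_mul_of_nonneg_right h10 h12]
      have h10 : ∫ x, (S x + a n * B n x) ^ 4 ∂μ ≤ ∫ x, S x ^ 4 ∂μ + 4 * (2⁻¹ : ℝ) ^ n +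
          (8 * M ^ 2 * (4 + M ^ 2) + 3 * M ^ 4) * a n ^ 2 := by
        nlinarith [h5, h6, h8, h9]
      have h11 : ∫ x, S x ^ 4 ∂μ ≤ ∑ k ∈ Finset.range n, 4 * (2⁻¹ : ℝ) ^ k +
        (8 * M ^ 2 * (4 + M ^ 2) + 3 * M ^ 4) * ∑ j ∈ Finset.range n, a j ^ 2 := ih
      change ∫ x, (S x + a n * B n x) ^ 4 ∂μ ≤ _
      nlinarith [h10, h11]
  refine (hS4 n).trans ?_
  rw [← Finset.mul_sum]
  have h5 := hgeo n
  have h6 : (8 * M ^ 2 * (4 + M ^ 2) + 3 * M ^ 4) * ∑ j ∈ Finset.range n, a j ^ 2 ≤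
      (8 * M ^ 2 * (4 + M ^ 2) + 3 * M ^ 4) * 1 :=
    mul_le_mul_of_nonneg_left (ha n) (by positivity)
  linarith

end Core

theorem exists_sparse' (f : ℕ → ℕ) :
    ∃ σ : ℕ → ℕ, StrictMono σ ∧ ∀ j, f (σ j) ≤ σ (j + 1) := by
  refine ⟨fun n => Nat.rec 0 (fun _ s => max (s + 1) (f s)) n, ?_, ?_⟩
  · refine strictMono_nat_of_lt_succ fun n => ?_
    exact lt_of_lt_of_le (Nat.lt_succ_self _) (le_max_left _ _)
  · intro j
    exact le_max_right _ _

theorem exists_fourth_moment {Ω : Type*} [MeasurableSpace Ω] (μ : Measure Ω)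
    [IsProbabilityMeasure μ] (b : ℕ → Ω → ℝ) (M : ℝ)
    (hb : ∀ n, AEStronglyMeasurable (b n) μ) (hM : ∀ n, ∀ᵐ x ∂μ, |b n x| ≤ M)
    (hw : ∀ g : Ω → ℝ, MemLp g 2 μ → Tendsto (fun n => ∫ x, b n x * g x ∂μ) atTop (𝓝 0)) :
    ∃ σ : ℕ → ℕ, StrictMono σ ∧ ∃ K : ℝ, 0 ≤ K ∧ ∀ (s : Finset ℕ) (a : ℕ → ℝ),
      ∑ j ∈ s, a j ^ 2 ≤ 1 → ∫ x, (∑ j ∈ s, a j * b (σ j) x) ^ 4 ∂μ ≤ K := by
  have hBM : ∀ n, BM μ (b n) := fun n => ⟨hb n, M, hM n⟩
  set ε : ℕ → ℝ := fun n => (2⁻¹ : ℝ) ^ n * ((n : ℝ) + 1)⁻¹ ^ 3 with hε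
  have hεpos : ∀ n, 0 < ε n := fun n => by positivity
  have hεanti : ∀ m n, m ≤ n → ε n ≤ ε m := by
    intro m n hmn
    have h1 : (2⁻¹ : ℝ) ^ n ≤ (2⁻¹ : ℝ) ^ m :=
      pow_le_pow_of_le_one (by norm_num) (by norm_num) hmn
    have h2 : ((n : ℝ) + 1)⁻¹ ≤ ((m : ℝ) + 1)⁻¹ := by
      apply inv_anti₀ (by positivity)
      have : (m : ℝ) ≤ n := by exact_mod_cast hmn
      linarith
    have h3 : ((n : ℝ) + 1)⁻¹ ^ 3 ≤ ((m : ℝ) + 1)⁻¹ ^ 3 :=
      pow_le_pow_left₀ (by positivity) h2 3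
    exact mul_le_mul h1 h3 (by positivity) (by positivity)
  have hεb : ∀ n : ℕ, (n : ℝ) ^ 3 * ε n ≤ 2⁻¹ ^ n := by
    intro n
    have h1 : (n : ℝ) * ((n : ℝ) + 1)⁻¹ ≤ 1 := by
      rw [← div_eq_mul_inv, div_le_one (by positivity)]
      linarith
    have h2 : ((n : ℝ) * ((n : ℝ) + 1)⁻¹) ^ 3 ≤ 1 := pow_le_one₀ (by positivity) h1
    calc (n : ℝ) ^ 3 * ε n = (2⁻¹ : ℝ) ^ n * ((n : ℝ) * ((n : ℝ) + 1)⁻¹) ^ 3 := by
          rw [hε]; ring
      _ ≤ (2⁻¹ : ℝ) ^ n * 1 := mul_le_mul_of_nonneg_left h2 (by positivity)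
      _ = _ := mul_one _
  -- the threshold
  have hthr : ∀ N : ℕ, ∃ F : ℕ, ∀ n, F ≤ n → ∀ i, i ≤ N →
      (|∫ x, b n x * b i x ∂μ| ≤ ε (N + 1)) ∧ ∀ j, j ≤ N → ∀ k, k ≤ N →
        |∫ x, b n x * (b i x * b j x * b k x) ∂μ| ≤ ε (N + 1) := by
    intro N
    have key : ∀ g : Ω → ℝ, BM μ g → ∀ᶠ n in atTop, |∫ x, b n x * g x ∂μ| ≤ ε (N + 1) := by
      intro g hg
      have h2 := (hw g hg.memLp).abs
      rw [abs_zero] at h2
      exact h2.eventually_le_const (hεpos _)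
    have h1 : ∀ᶠ n in atTop, ∀ i ∈ Finset.range (N + 1),
        (|∫ x, b n x * b i x ∂μ| ≤ ε (N + 1)) ∧ ∀ j ∈ Finset.range (N + 1),
          ∀ k ∈ Finset.range (N + 1),
          |∫ x, b n x * (b i x * b j x * b k x) ∂μ| ≤ ε (N + 1) := by
      rw [Finset.eventually_all]
      intro i _
      refine (key _ (hBM i)).and ?_
      rw [Finset.eventually_all]
      intro j _
      rw [Finset.eventually_all]
      intro k _
      exact key _ (((hBM i).mul (hBM j)).mul (hBM k))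
    obtain ⟨F, hF⟩ := eventually_atTop.1 h1
    refine ⟨F, fun n hn i hi => ⟨(hF n hn i (Finset.mem_range.2 (by omega))).1, ?_⟩⟩
    intro j hj k hk
    exact (hF n hn i (Finset.mem_range.2 (by omega))).2 j (Finset.mem_range.2 (by omega)) k
      (Finset.mem_range.2 (by omega))
  choose f hf using hthr
  obtain ⟨σ, hσ, hσf⟩ := exists_sparse' f
  set M' : ℝ := max M 1 with hM'
  have hM1 : 1 ≤ M' := le_max_right _ _
  refine ⟨σ, hσ, 8 + 8 * M' ^ 2 * (4 + M' ^ 2) + 3 * M' ^ 4, by positivity, ?_⟩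
  intro s a hsa
  classical
  set a' : ℕ → ℝ := fun j => if j ∈ s then a j else 0 with ha'
  obtain ⟨N, hN⟩ : ∃ N, s ⊆ Finset.range N := s.exists_nat_subset_range
  have e1 : ∀ x, ∑ j ∈ s, a j * b (σ j) x = ∑ j ∈ Finset.range N, a' j * b (σ j) x := by
    intro x
    rw [← Finset.sum_subset hN]
    · refine Finset.sum_congr rfl fun j hj => ?_
      simp [ha', hj]
    · intro j _ hj
      simp [ha', hj]
  simp only [e1]
  refine fourth_core μ (fun j => b (σ j)) M' hM1 (fun n => hb _)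
    (fun n => ?_) ε hεb (fun n => (hεpos n).le) ?_ ?_ a' ?_ N
  · filter_upwards [hM (σ n)] with x hx
    exact hx.trans (le_max_left _ _)
  · intro n i hi j hj k hk
    obtain ⟨m, rfl⟩ : ∃ m, n = m + 1 := ⟨n - 1, by omega⟩
    have h1 := (hf (σ m) (σ (m + 1)) (hσf m) (σ i) (hσ.monotone (by omega))).2 (σ j)
      (hσ.monotone (by omega)) (σ k) (hσ.monotone (by omega))
    exact h1.trans (hεanti _ _ (by have := hσ.id_le m; simp only [id] at this; omega))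
  · intro n i hi
    obtain ⟨m, rfl⟩ : ∃ m, n = m + 1 := ⟨n - 1, by omega⟩
    have h1 := (hf (σ m) (σ (m + 1)) (hσf m) (σ i) (hσ.monotone (by omega))).1
    exact h1.trans (hεanti _ _ (by have := hσ.id_le m; simp only [id] at this; omega))
  · intro n
    refine le_trans ?_ hsa
    have h1 : ∀ j, a' j ^ 2 = if j ∈ s then a j ^ 2 else 0 := by
      intro j
      simp only [ha']
      split_ifs <;> simp
    simp only [h1]
    rw [← Finset.sum_filter]
    refine Finset.sum_le_sum_of_subset_of_nonneg ?_ fun j _ _ => sq_nonneg _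
    intro j hj
    exact (Finset.mem_filter.1 hj).2

end Pool.Agent.H27.Kato
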