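import Pool.Agent.H27.Kato.Fix

/-!
# The Kato property
-/

open MeasureTheory Set Filter Topology
open scoped ENNReal NNReal

namespace Pool.Agent.H27.Kato

variable {Ω : Type*} [MeasurableSpace Ω] {μ : Measure Ω} {φ : OrliczFn} {B : ℤ → ℕ}

/-- a separated sequence in the image of the ball under a non-compact operator -/
lemma exists_separated {E F : Type*} [NormedAddCommGroup E] [NormedSpace ℝ E]
    [NormedAddCommGroup F] [NormedSpace ℝ F] [CompleteSpace F] (T : E →L[ℝ] F)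
    (hT : ¬ IsCompactOperator T) :
    ∃ δ : ℝ, 0 < δ ∧ ∃ f : ℕ → E, (∀ n, ‖f n‖ ≤ 1) ∧ ∀ m n, m < n → δ ≤ ‖T (f m) - T (f n)‖ := by
  have h1 : ¬ TotallyBounded (T '' Metric.closedBall (0 : E) 1) := by
    intro htb
    apply hT
    have h2 := (isCompactOperator_iff_isCompact_closure_image_closedBall (T : E →ₗ[ℝ] F)
      (one_pos)).2 (htb.closure.isCompact_of_isClosed isClosed_closure)
    exact h2
  rw [Metric.totallyBounded_iff] at h1
  push Not at h1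
  obtain ⟨δ, hδ, hcov⟩ := h1
  refine ⟨δ, hδ, ?_⟩
  obtain ⟨f, hf1, hf2⟩ := exists_seq_of_forall_finset_exists (α := E) (fun g => ‖g‖ ≤ 1)
    (fun g g' => δ ≤ ‖T g - T g'‖) (by
      intro s _
      classical
      have h3 := hcov (s.image T : Finset F) (Finset.finite_toSet _)
      rw [Set.not_subset] at h3
      obtain ⟨y, ⟨g, hg, rfl⟩, hy⟩ := h3
      refine ⟨g, by simpa using hg, fun x hx => ?_⟩
      by_contra hlt
      rw [not_le] at hlt
      apply hy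
      rw [mem_iUnion₂]
      refine ⟨T x, by simpa using ⟨x, hx, rfl⟩, ?_⟩
      rw [Metric.mem_ball, dist_eq_norm, norm_sub_rev]
      exact hlt)
  exact ⟨f, hf1, hf2⟩

lemma aux_disj {a b c d : ℝ} (h1 : a = 0 ∨ c = 0) (h2 : a = 0 ∨ d = 0) (h3 : b = 0 ∨ c = 0)
    (h4 : b = 0 ∨ d = 0) : (2 : ℝ)⁻¹ * (a - b) = 0 ∨ (2 : ℝ)⁻¹ * (c - d) = 0 := by
  rcases h1 with h1 | h1 <;> rcases h2 with h2 | h2 <;> rcases h3 with h3 | h3 <;>
        rcases h4 with h4 | h4 <;> simp [*]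

namespace Rel

variable (h : Rel φ B)
include h

/-- weakly convergent subsequences -/
lemma weak_extract (f : ℕ → OrliczSpace φ μ) {C : ℝ} (hf : ∀ n, ‖f n‖ ≤ C) :
    ∃ σ : ℕ → ℕ, StrictMono σ ∧ ∀ g : Lp ℝ 2 μ, ∃ l : ℝ,
      Tendsto (fun n => inner ℝ (h.l2 (f (σ n))) g) atTop (𝓝 l) :=
  exists_weak_subseq (fun n => h.l2 (f n)) (4 * C) (fun n => (h.norm_l2_le (f n)).trans
    (mul_le_mul_of_nonneg_left (hf n) (by norm_num)))

/-- The range side: a bounded, seminormalized sequence weakly null in `L²` has a subsequence of one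
of the two types. -/
lemma range_side (y : ℕ → OrliczSpace φ μ) {C δ : ℝ} (hδ : 0 < δ) (hC : ∀ n, ‖y n‖ ≤ C)
    (hy : ∀ n, δ ≤ ‖y n‖)
    (hw : ∀ g : Lp ℝ 2 μ, Tendsto (fun n => inner ℝ (h.l2 (y n)) g) atTop (𝓝 0)) :
    ∃ σ : ℕ → ℕ, StrictMono σ ∧ (Lo2 (fun n => y (σ n)) ∨ ∃ z : ℕ → OrliczSpace φ μ, PDisj z ∧
      (∃ κ : ℝ, 0 < κ ∧ ∀ j, ENNReal.ofReal κ ≤ rho μ φ (z j)) ∧
      ∀ j, ‖y (σ j) - z j‖ ≤ (2 : ℝ)⁻¹ ^ j) := by
  by_cases hc : ∃ c : ℝ, 0 < c ∧ ∃ᶠ n in atTop, c ≤ ‖h.l2 (y n)‖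
  · obtain ⟨c, hc0, hc⟩ := hc
    obtain ⟨σ, hσ, hσc⟩ := extraction_of_frequently_atTop hc
    obtain ⟨τ, hτ, hτc⟩ := exists_almost_orthogonal (fun n => h.l2 (y (σ n))) c hc0 hσc
      (fun g => (hw g).comp hσ.tendsto_atTop)
    refine ⟨σ ∘ τ, hσ.comp hτ, Or.inl ⟨c / 8, by positivity, fun s a ha => ?_⟩⟩
    have h1 := hτc s a
    rw [ha, mul_one] at h1
    have h2 : ∑ j ∈ s, a j • h.l2 (y (σ (τ j))) = h.l2 (∑ j ∈ s, a j • y (σ (τ j))) := by
      rw [map_sum]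
      exact Finset.sum_congr rfl (fun j _ => by rw [map_smul])
    rw [h2] at h1
    have h3 : c / 2 ≤ ‖h.l2 (∑ j ∈ s, a j • y (σ (τ j)))‖ := by
      nlinarith [norm_nonneg (h.l2 (∑ j ∈ s, a j • y (σ (τ j))))]
    have h4 := h.norm_l2_le (∑ j ∈ s, a j • y (σ (τ j)))
    show c / 8 ≤ ‖∑ j ∈ s, a j • y (σ (τ j))‖
    linarith
  · push Not at hc
    have h0 : Tendsto (fun n => ∫⁻ x, ENNReal.ofReal (y n x ^ 2) ∂μ) atTop (𝓝 0) := by
      have h1 : Tendsto (fun n => ‖h.l2 (y n)‖) atTop (𝓝 0) := by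
        rw [Metric.tendsto_atTop]
        intro ε hε
        obtain ⟨N, hN⟩ := eventually_atTop.1 (hc ε hε)
        refine ⟨N, fun n hn => ?_⟩
        rw [dist_zero_right, norm_norm]
        exact hN n hn
      have h2 : Tendsto (fun n => ENNReal.ofReal (‖h.l2 (y n)‖ ^ 2)) atTop
          (𝓝 (ENNReal.ofReal (0 ^ 2))) := ENNReal.tendsto_ofReal (h1.pow 2)
      rw [zero_pow two_ne_zero, ENNReal.ofReal_zero] at h2
      refine h2.congr (fun n => ?_)
      exact h.norm_l2_sq (y n)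
    -- bounded modulars
    obtain ⟨q, hq⟩ := pow_unbounded_of_one_lt (C + 1) (show (1 : ℝ) < 2 by norm_num)
    have hrho : ∀ n, rho μ φ (y n) ≤ ENNReal.ofReal (2048 ^ q) := by
      intro n
      have h1 : ‖y n‖ < C + 1 := by linarith [hC n]
      have h2 := OrliczSpace.rho_inv_le_one h1
      have hC1 : 0 < C + 1 := lt_of_le_of_lt (norm_nonneg _) h1
      have h3 := h.rho_scale (μ := μ) (t := 1) (s := (C + 1)⁻¹) (y n) q (by
        rw [abs_one, abs_of_pos (inv_pos.2 hC1), ← div_eq_mul_inv, le_div_iff₀ hC1, one_mul]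
        exact hq.le)
      simp only [one_mul] at h3
      refine h3.trans ?_
      calc _ ≤ ENNReal.ofReal (2048 ^ q) * 1 := mul_le_mul_right h2 _
        _ = _ := mul_one _
    obtain ⟨σ, hσ, z, hz, hyz⟩ := h.almost_disjoint y ENNReal.ofReal_ne_top hrho h0
    obtain ⟨η, hη, hηr⟩ := h.rho_large (μ := μ) (half_pos hδ)
    obtain ⟨N, hN⟩ := exists_pow_lt_of_lt_one (half_pos hδ) (show (2 : ℝ)⁻¹ < 1 by norm_num)
    refine ⟨fun n => σ (n + N), fun a b hab => hσ (by omega), Or.inr ⟨fun n => z (n + N), ?_,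
      ⟨η, hη, fun j => hηr _ ?_⟩, fun j => ?_⟩⟩
    · exact hz.comp (fun a b hab => by simpa using hab)
    · have h1 := hyz (j + N)
      have h2 := hy (σ (j + N))
      have h3 : (2 : ℝ)⁻¹ ^ (j + N) ≤ (2 : ℝ)⁻¹ ^ N :=
        pow_le_pow_of_le_one (by norm_num) (by norm_num) (by omega)
      have h4 := norm_sub_norm_le (y (σ (j + N))) (z (j + N))
      linarith
    · exact (hyz (j + N)).trans (pow_le_pow_of_le_one (by norm_num) (by norm_num) (by omega))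

/-- The Kato property of the Orlicz space of a height path with the window property and slow
variation at large heights. -/
theorem kato [IsProbabilityMeasure μ]
    (hWP : ∃ C0 : ℕ, ∀ n : ℕ, ∃ r : ℕ, n ≤ r ∧ ∀ s : ℕ, s ≤ 2 * 4 ^ r + n → ∀ p : ℤ,
      ∑ T ∈ Finset.range (4 ^ r), 2 ^ (B (p - (T : ℤ) - (r : ℤ) - (s : ℤ)))
        ≤ C0 * 4 ^ r * 2 ^ (B p))
    (hLR : ∀ A : ℕ, ∃ n : ℕ, ∀ p : ℤ, n ≤ B p → ∀ a : ℕ, a ≤ A → B p ≤ B (p - (a : ℤ)) + 1)
    (T : OrliczSpace φ μ →L[ℝ] OrliczSpace φ μ) (hT : StrictlySingular T) :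
    IsCompactOperator T := by
  by_contra hcomp
  obtain ⟨C0, hWP⟩ := hWP
  choose r hr1 hr2 using hWP
  have hr : WinOK B C0 r := hr2
  obtain ⟨δ, hδ, f, hf1, hf2⟩ := exists_separated T hcomp
  set ε : ℝ := δ / (8 * (‖T‖ + 1)) with hε
  have hT0 : 0 ≤ ‖T‖ := norm_nonneg T
  have hε0 : 0 < ε := by positivity
  have hTε : ‖T‖ * ε ≤ δ / 8 := by
    rw [hε, ← mul_div_assoc, div_le_div_iff₀ (by positivity) (by norm_num)]
    nlinarith
  obtain ⟨σ0, hσ0, M, b, d, hbM, hd, hd1, hb1, hs⟩ := h.splitting f hf1 hε0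
  -- weakly convergent subsequences
  obtain ⟨σ1, hσ1, hw1⟩ := h.weak_extract b hb1
  obtain ⟨σ2, hσ2, hw2⟩ := h.weak_extract (fun n => T (b (σ1 n))) (C := ‖T‖)
    (fun n => (T.le_opNorm _).trans (by nlinarith [hb1 (σ1 n)]))
  obtain ⟨σ3, hσ3, hw3⟩ := h.weak_extract (fun n => T (d (σ1 (σ2 n)))) (C := ‖T‖)
    (fun n => (T.le_opNorm _).trans (by nlinarith [hd1 (σ1 (σ2 n))]))
  set τ : ℕ → ℕ := fun n => σ1 (σ2 (σ3 n)) with hτ
  have hτm : StrictMono τ := hσ1.comp (hσ2.comp hσ3)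
  have hev : StrictMono (fun n : ℕ => 2 * n) := fun a b hab => by
    show 2 * a < 2 * b
    omega
  have hod : StrictMono (fun n : ℕ => 2 * n + 1) := fun a b hab => by
    show 2 * a + 1 < 2 * b + 1
    omega
  -- a general fact on differences
  have hdiff : ∀ u : ℕ → OrliczSpace φ μ, (∀ g : Lp ℝ 2 μ, ∃ l : ℝ,
      Tendsto (fun n => inner ℝ (h.l2 (u n)) g) atTop (𝓝 l)) → ∀ g : Lp ℝ 2 μ,
      Tendsto (fun n => inner ℝ (h.l2 (u (2 * n) - u (2 * n + 1))) g) atTop (𝓝 0) := by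
    intro u hu g
    obtain ⟨l, hl⟩ := hu g
    have h1 := (hl.comp hev.tendsto_atTop).sub (hl.comp hod.tendsto_atTop)
    rw [sub_self] at h1
    refine h1.congr (fun n => ?_)
    simp only [Function.comp]
    rw [map_sub, inner_sub_left]
  set b' : ℕ → OrliczSpace φ μ := fun n => b (τ (2 * n)) - b (τ (2 * n + 1)) with hb'
  set d' : ℕ → OrliczSpace φ μ := fun n => d (τ (2 * n)) - d (τ (2 * n + 1)) with hd'
  have hb'w : ∀ g : Lp ℝ 2 μ, Tendsto (fun n => inner ℝ (h.l2 (b' n)) g) atTop (𝓝 0) := by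
    apply hdiff (fun n => b (τ n))
    intro g
    obtain ⟨l, hl⟩ := hw1 g
    exact ⟨l, hl.comp (hσ2.comp hσ3).tendsto_atTop⟩
  have hTb'w : ∀ g : Lp ℝ 2 μ, Tendsto (fun n => inner ℝ (h.l2 (T (b' n))) g) atTop (𝓝 0) := by
    intro g
    refine (hdiff (fun n => T (b (τ n))) (fun g => ?_) g).congr (fun n => ?_)
    · obtain ⟨l, hl⟩ := hw2 g
      exact ⟨l, hl.comp hσ3.tendsto_atTop⟩
    · rw [hb']
      simp only [map_sub]
  have hTd'w : ∀ g : Lp ℝ 2 μ, Tendsto (fun n => inner ℝ (h.l2 (T (d' n))) g) atTop (𝓝 0) := by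
    intro g
    refine (hdiff (fun n => T (d (τ n))) (fun g => ?_) g).congr (fun n => ?_)
    · exact hw3 g
    · rw [hd']
      simp only [map_sub]
  -- lower bound
  have hlow : ∀ n, 3 * δ / 4 ≤ ‖T (b' n)‖ + ‖T (d' n)‖ := by
    intro n
    set i := τ (2 * n) with hi
    set j := τ (2 * n + 1) with hj
    have hij : σ0 i < σ0 j := hσ0 (hτm (by omega))
    have h1 := hf2 _ _ hij
    have h2 : T (f (σ0 i)) - T (f (σ0 j)) = T (b' n) + T (d' n) +
        (T (f (σ0 i) - b i - d i) - T (f (σ0 j) - b j - d j)) := by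
      simp only [hb', hd', map_sub, ← hi, ← hj]
      abel
    have h3 : ‖T (f (σ0 i) - b i - d i)‖ ≤ δ / 8 :=
      (T.le_opNorm _).trans ((mul_le_mul_of_nonneg_left (hs i) hT0).trans hTε)
    have h4 : ‖T (f (σ0 j) - b j - d j)‖ ≤ δ / 8 :=
      (T.le_opNorm _).trans ((mul_le_mul_of_nonneg_left (hs j) hT0).trans hTε)
    rw [h2] at h1
    have h5 := norm_add_le (T (b' n) + T (d' n))
      (T (f (σ0 i) - b i - d i) - T (f (σ0 j) - b j - d j))
    have h6 := norm_add_le (T (b' n)) (T (d' n))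
    have h7 := norm_sub_le (T (f (σ0 i) - b i - d i)) (T (f (σ0 j) - b j - d j))
    linarith
  -- conclusion from a good sequence
  have hfinish : ∀ (x : ℕ → OrliczSpace φ μ), (∀ n, 3 * δ / 16 ≤ ‖T (x n)‖) →
      (∀ n, ‖x n‖ ≤ 2) →
      (∀ g : Lp ℝ 2 μ, Tendsto (fun n => inner ℝ (h.l2 (T (x n))) g) atTop (𝓝 0)) →
      (Up2 x ∨ (PDisj x ∧ ∀ j, ‖x j‖ ≤ 1)) → False := by
    intro x hx1 hx2 hxw hxU
    obtain ⟨ρ, hρ, hρL⟩ := h.range_side (fun n => T (x n)) (C := ‖T‖ * 2)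
      (show 0 < 3 * δ / 16 by positivity)
      (fun n => (T.le_opNorm _).trans (mul_le_mul_of_nonneg_left (hx2 n) hT0)) hx1 hxw
    have hxU' : Up2 (fun n => x (ρ n)) ∨ (PDisj (fun n => x (ρ n)) ∧ ∀ j, ‖x (ρ j)‖ ≤ 1) := by
      rcases hxU with h1 | ⟨h1, h2⟩
      · exact Or.inl (h1.comp hρ.injective)
      · exact Or.inr ⟨h1.comp hρ.injective, fun j => h2 _⟩
    obtain ⟨σ, J, hσ, ⟨K, hK⟩, ⟨c, hc0, hc⟩⟩ := h.fix_blocks hr hLR (fun n => x (ρ n))
      (fun n => T (x (ρ n))) hxU' hρL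
    refine not_strictlySingular T (blk r J (fun n => x (ρ (σ n)))) hc0 hK ?_ hT
    intro s a ha
    have h1 := hc s a ha
    have h2 : ∀ k, T (blk r J (fun n => x (ρ (σ n))) k) = blk r J (fun n => T (x (ρ (σ n)))) k :=
      fun k => map_blk (T : OrliczSpace φ μ →ₗ[ℝ] OrliczSpace φ μ) r J _ k
    simp only [h2]
    exact h1
  have hor : (∃ᶠ n in atTop, 3 * δ / 8 ≤ ‖T (b' n)‖) ∨ (∃ᶠ n in atTop, 3 * δ / 8 ≤ ‖T (d' n)‖) := by
    rw [← frequently_or_distrib]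
    apply Eventually.frequently
    filter_upwards with n
    by_contra hn
    push Not at hn
    have := hlow n
    linarith [hn.1, hn.2]
  rcases hor with hb2 | hd2
  · -- the bounded parts
    obtain ⟨ρ, hρ, hρb⟩ := extraction_of_frequently_atTop hb2
    have hbdd : ∀ n, ∀ᵐ t ∂μ, |b' (ρ n) t| ≤ M + M := by
      intro n
      filter_upwards [OrliczSpace.coe_sub (b (τ (2 * ρ n))) (b (τ (2 * ρ n + 1))),
        hbM (τ (2 * ρ n)), hbM (τ (2 * ρ n + 1))] with t h1 h2 h3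
      have h4 : b' (ρ n) t = b (τ (2 * ρ n)) t - b (τ (2 * ρ n + 1)) t := h1
      rw [h4]
      exact (abs_sub _ _).trans (add_le_add h2 h3)
    obtain ⟨σ, hσ, K, hK⟩ := h.upper_bdd (fun n => b' (ρ n)) (M + M) hbdd
      (fun g => (hb'w g).comp hρ.tendsto_atTop)
    refine hfinish (fun n => b' (ρ (σ n))) (fun n => ?_) (fun n => ?_) (fun g => ?_)
      (Or.inl ⟨K, hK⟩)
    · linarith [hρb (σ n)]
    · have h1 := norm_sub_le (b (τ (2 * ρ (σ n)))) (b (τ (2 * ρ (σ n) + 1)))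
      have h2 := hb1 (τ (2 * ρ (σ n)))
      have h3 := hb1 (τ (2 * ρ (σ n) + 1))
      show ‖b (τ (2 * ρ (σ n))) - b (τ (2 * ρ (σ n) + 1))‖ ≤ 2
      linarith
    · exact (hTb'w g).comp (hρ.comp hσ).tendsto_atTop
  · -- the disjoint parts
    obtain ⟨ρ, hρ, hρd⟩ := extraction_of_frequently_atTop hd2
    refine hfinish (fun n => (2 : ℝ)⁻¹ • d' (ρ n)) (fun n => ?_) (fun n => ?_) (fun g => ?_)
      (Or.inr ⟨?_, fun n => ?_⟩)
    · rw [map_smul, norm_smul]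
      norm_num
      linarith [hρd n]
    · rw [norm_smul]
      have h1 := norm_sub_le (d (τ (2 * ρ n))) (d (τ (2 * ρ n + 1)))
      have h2 := hd1 (τ (2 * ρ n))
      have h3 := hd1 (τ (2 * ρ n + 1))
      have h4 : ‖d' (ρ n)‖ ≤ 2 := by
        show ‖d (τ (2 * ρ n)) - d (τ (2 * ρ n + 1))‖ ≤ 2
        linarith
      norm_num
      linarith
    · have h1 := ((hTd'w g).comp hρ.tendsto_atTop).const_mul (2 : ℝ)⁻¹
      rw [mul_zero] at h1
      refine h1.congr (fun n => ?_)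
      simp only [Function.comp]
      rw [map_smul, map_smul, real_inner_smul_left]
    · -- disjointness of the differences
      intro i j hij
      have hne : ∀ a b : ℕ, a ≠ b → ∀ᵐ t ∂μ, d (τ a) t = 0 ∨ d (τ b) t = 0 :=
        fun a b hab => hd _ _ (fun h => hab (hτm.injective h))
      have hρij : ρ i ≠ ρ j := fun h => hij (hρ.injective h)
      filter_upwards [hne (2 * ρ i) (2 * ρ j) (by omega), hne (2 * ρ i) (2 * ρ j + 1) (by omega),
        hne (2 * ρ i + 1) (2 * ρ j) (by omega), hne (2 * ρ i + 1) (2 * ρ j + 1) (by omega),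
        OrliczSpace.coe_sub (d (τ (2 * ρ i))) (d (τ (2 * ρ i + 1))),
        OrliczSpace.coe_sub (d (τ (2 * ρ j))) (d (τ (2 * ρ j + 1))),
        OrliczSpace.coe_smul (2 : ℝ)⁻¹ (d' (ρ i)), OrliczSpace.coe_smul (2 : ℝ)⁻¹ (d' (ρ j))]
        with t h1 h2 h3 h4 h5 h6 h7 h8
      have h5' : d' (ρ i) t = d (τ (2 * ρ i)) t - d (τ (2 * ρ i + 1)) t := h5
      have h6' : d' (ρ j) t = d (τ (2 * ρ j)) t - d (τ (2 * ρ j + 1)) t := h6
      rw [h7, h8, h5', h6']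
      exact aux_disj h1 h2 h3 h4
    · rw [norm_smul]
      have h1 := norm_sub_le (d (τ (2 * ρ n))) (d (τ (2 * ρ n + 1)))
      have h2 := hd1 (τ (2 * ρ n))
      have h3 := hd1 (τ (2 * ρ n + 1))
      have h4 : ‖d' (ρ n)‖ ≤ 2 := by
        show ‖d (τ (2 * ρ n)) - d (τ (2 * ρ n + 1))‖ ≤ 2
        linarith
      norm_num
      linarith

end Rel

end Pool.Agent.H27.Kato
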