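import Mathlib

/-!
# Weakly convergent subsequences and almost orthogonal subsequences in a Hilbert space

* `exists_weak_subseq`: a bounded sequence in a real Hilbert space has a subsequence all of whose
  inner products with a fixed vector converge. (Compactness of the countable product of the
  intervals `[-C ^ 2, C ^ 2]` gives convergence against the vectors of the sequence; the set of
  the `g` with convergence is a closed subspace and contains the orthogonal complement.)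
* `exists_almost_orthogonal`: a weakly null sequence with `c ≤ ‖y n‖` has a subsequence with
  `|⟪y (σ i), y (σ j)⟫| ≤ c ^ 2 * 2⁻¹ ^ (i + 1) * 2⁻¹ ^ (j + 1)` for `i ≠ j`, so that
  `‖∑ a j • y (σ j)‖ ^ 2 ≥ c ^ 2 * ∑ a j ^ 2 - c ^ 2 * (∑ |a j| 2⁻¹ ^ (j + 1)) ^ 2
  ≥ (c / 2) ^ 2 * ∑ a j ^ 2`.
-/

open Filter Topology

namespace Pool.Agent.H27.Kato

theorem exists_weak_subseq {H : Type*} [NormedAddCommGroup H] [InnerProductSpace ℝ H]
    [CompleteSpace H] (h : ℕ → H) (C : ℝ) (hC : ∀ n, ‖h n‖ ≤ C) :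
    ∃ σ : ℕ → ℕ, StrictMono σ ∧ ∀ g : H, ∃ l : ℝ,
      Tendsto (fun n => inner ℝ (h (σ n)) g) atTop (𝓝 l) := by
  have hC0 : 0 ≤ C := (norm_nonneg _).trans (hC 0)
  -- compactness of the product
  have hcpt : IsCompact (Set.pi Set.univ (fun _ : ℕ => Set.Icc (-(C * C)) (C * C))) :=
    isCompact_univ_pi fun _ => isCompact_Icc
  have hmem : ∀ n, (fun m => inner ℝ (h n) (h m) : ℕ → ℝ) ∈
      Set.pi Set.univ (fun _ : ℕ => Set.Icc (-(C * C)) (C * C)) := by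
    intro n m _
    have h1 : |inner ℝ (h n) (h m)| ≤ C * C :=
      (abs_real_inner_le_norm _ _).trans
        (mul_le_mul (hC n) (hC m) (norm_nonneg _) hC0)
    exact abs_le.1 h1
  obtain ⟨a, -, σ, hσ, hlim⟩ := hcpt.tendsto_subseq hmem
  refine ⟨σ, hσ, ?_⟩
  have hbase : ∀ m, Tendsto (fun n => inner ℝ (h (σ n)) (h m)) atTop (𝓝 (a m)) := by
    intro m
    exact (tendsto_pi_nhds.1 hlim) m
  -- the span
  have hspan : ∀ g ∈ Submodule.span ℝ (Set.range h), ∃ l : ℝ,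
      Tendsto (fun n => inner ℝ (h (σ n)) g) atTop (𝓝 l) := by
    intro g hg
    induction hg using Submodule.span_induction with
    | mem x hx =>
      obtain ⟨m, rfl⟩ := hx
      exact ⟨a m, hbase m⟩
    | zero => exact ⟨0, by simp⟩
    | add x y _ _ hx hy =>
      obtain ⟨l, hl⟩ := hx
      obtain ⟨l', hl'⟩ := hy
      refine ⟨l + l', ?_⟩
      simp only [inner_add_right]
      exact hl.add hl'
    | smul c x _ hx =>
      obtain ⟨l, hl⟩ := hx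
      refine ⟨c * l, ?_⟩
      simp only [inner_smul_right]
      exact hl.const_mul c
  -- the closure
  have hclos : ∀ g ∈ (Submodule.span ℝ (Set.range h)).topologicalClosure, ∃ l : ℝ,
      Tendsto (fun n => inner ℝ (h (σ n)) g) atTop (𝓝 l) := by
    intro g hg
    apply cauchySeq_tendsto_of_complete
    rw [Metric.cauchySeq_iff]
    intro ε hε
    have hg' : g ∈ closure ((Submodule.span ℝ (Set.range h) : Submodule ℝ H) : Set H) := hg
    obtain ⟨g', hg'mem, hdist⟩ := Metric.mem_closure_iff.1 hg' (ε / (4 * (C + 1))) (by positivity)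
    obtain ⟨l, hl⟩ := hspan g' hg'mem
    have hcau := hl.cauchySeq
    rw [Metric.cauchySeq_iff] at hcau
    obtain ⟨N, hN⟩ := hcau (ε / 2) (by positivity)
    refine ⟨N, fun p hp q hq => ?_⟩
    have h1 := hN p hp q hq
    have h2 : ∀ n, |inner ℝ (h (σ n)) g - inner ℝ (h (σ n)) g'| ≤ ε / 4 := by
      intro n
      rw [← inner_sub_right]
      refine (abs_real_inner_le_norm _ _).trans ?_
      rw [dist_eq_norm] at hdist
      calc ‖h (σ n)‖ * ‖g - g'‖ ≤ (C + 1) * (ε / (4 * (C + 1))) :=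
            mul_le_mul ((hC _).trans (by linarith)) hdist.le (norm_nonneg _) (by linarith)
        _ = ε / 4 := by
            have : C + 1 ≠ 0 := by positivity
            field_simp
    rw [Real.dist_eq] at h1 ⊢
    have h3 := abs_le.1 (h2 p)
    have h4 := abs_le.1 (h2 q)
    have h5 := abs_lt.1 h1
    rw [abs_lt]
    constructor <;> linarith [h3.1, h3.2, h4.1, h4.2, h5.1, h5.2]
  intro g
  set K := (Submodule.span ℝ (Set.range h)).topologicalClosure with hK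
  have : CompleteSpace K :=
    (Submodule.isClosed_topologicalClosure _).completeSpace_coe
  obtain ⟨l, hl⟩ := hclos (K.starProjection g) (Submodule.starProjection_apply_mem K g)
  refine ⟨l, hl.congr fun n => ?_⟩
  have hmemK : h (σ n) ∈ K :=
    Submodule.le_topologicalClosure _ (Submodule.subset_span ⟨σ n, rfl⟩)
  have h1 : inner ℝ (h (σ n)) (g - K.starProjection g) = 0 :=
    (Submodule.sub_starProjection_mem_orthogonal (K := K) g) _ hmemK
  rw [inner_sub_right] at h1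
  linarith

theorem exists_sparse (f : ℕ → ℕ) :
    ∃ σ : ℕ → ℕ, StrictMono σ ∧ ∀ j, f (σ j) ≤ σ (j + 1) := by
  refine ⟨fun n => Nat.rec 0 (fun _ s => max (s + 1) (f s)) n, ?_, ?_⟩
  · refine strictMono_nat_of_lt_succ fun n => ?_
    exact lt_of_lt_of_le (Nat.lt_succ_self _) (le_max_left _ _)
  · intro j
    exact le_max_right _ _

theorem exists_almost_orthogonal {H : Type*} [NormedAddCommGroup H] [InnerProductSpace ℝ H]
    (y : ℕ → H) (c : ℝ) (hc : 0 < c) (hy : ∀ n, c ≤ ‖y n‖)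
    (hw : ∀ g : H, Tendsto (fun n => inner ℝ (y n) g) atTop (𝓝 0)) :
    ∃ σ : ℕ → ℕ, StrictMono σ ∧ ∀ (s : Finset ℕ) (a : ℕ → ℝ),
      (c / 2) ^ 2 * ∑ j ∈ s, a j ^ 2 ≤ ‖∑ j ∈ s, a j • y (σ j)‖ ^ 2 := by
  -- the threshold
  have hthr : ∀ N : ℕ, ∃ F : ℕ, ∀ n, F ≤ n → ∀ i, i ≤ N →
      |inner ℝ (y n) (y i)| ≤ c ^ 2 * (8⁻¹ : ℝ) ^ (N + 2) := by
    intro N
    have h1 : ∀ i ∈ Finset.range (N + 1), ∀ᶠ n in atTop,
        |inner ℝ (y n) (y i)| ≤ c ^ 2 * (8⁻¹ : ℝ) ^ (N + 2) := by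
      intro i _
      have h2 := (hw (y i)).abs
      rw [abs_zero] at h2
      exact h2.eventually_le_const (by positivity)
    have h3 := (Finset.eventually_all (Finset.range (N + 1))).2 h1
    obtain ⟨F, hF⟩ := eventually_atTop.1 h3
    exact ⟨F, fun n hn i hi => hF n hn i (Finset.mem_range.2 (by omega))⟩
  choose f hf using hthr
  obtain ⟨σ, hσ, hσf⟩ := exists_sparse f
  refine ⟨σ, hσ, ?_⟩
  have hlt : ∀ i j, i < j → |inner ℝ (y (σ i)) (y (σ j))| ≤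
      c ^ 2 * ((2⁻¹ : ℝ) ^ (i + 1) * (2⁻¹ : ℝ) ^ (j + 1)) := by
    intro i j hij
    obtain ⟨k, rfl⟩ : ∃ k, j = k + 1 := ⟨j - 1, by omega⟩
    have h1 := hf (σ k) (σ (k + 1)) (hσf k) (σ i) (hσ.monotone (by omega))
    rw [real_inner_comm] at h1
    refine h1.trans (mul_le_mul_of_nonneg_left ?_ (by positivity))
    have h8 : (8⁻¹ : ℝ) = (2⁻¹ : ℝ) ^ 3 := by norm_num
    rw [h8, ← pow_mul, ← pow_add]
    have hk : k ≤ σ k := hσ.id_le k
    exact pow_le_pow_of_le_one (by norm_num) (by norm_num) (by omega)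
  have hne : ∀ i j, i ≠ j → |inner ℝ (y (σ i)) (y (σ j))| ≤
      c ^ 2 * ((2⁻¹ : ℝ) ^ (i + 1) * (2⁻¹ : ℝ) ^ (j + 1)) := by
    intro i j hij
    rcases lt_or_gt_of_ne hij with h | h
    · exact hlt i j h
    · rw [real_inner_comm, mul_comm ((2⁻¹ : ℝ) ^ (i + 1))]
      exact hlt j i h
  intro s a
  have hexp : ‖∑ j ∈ s, a j • y (σ j)‖ ^ 2 =
      ∑ i ∈ s, ∑ j ∈ s, a i * a j * inner ℝ (y (σ i)) (y (σ j)) := by
    rw [← real_inner_self_eq_norm_sq, sum_inner]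
    refine Finset.sum_congr rfl fun i _ => ?_
    rw [inner_sum]
    refine Finset.sum_congr rfl fun j _ => ?_
    rw [real_inner_smul_left, real_inner_smul_right]
    ring
  have hterm : ∀ i j, (if i = j then c ^ 2 * a i ^ 2 else 0) -
      c ^ 2 * ((|a i| * (2⁻¹ : ℝ) ^ (i + 1)) * (|a j| * (2⁻¹ : ℝ) ^ (j + 1))) ≤
      a i * a j * inner ℝ (y (σ i)) (y (σ j)) := by
    intro i j
    by_cases hij : i = j
    · subst hij
      rw [if_pos rfl, real_inner_self_eq_norm_sq]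
      have h1 : c ^ 2 ≤ ‖y (σ i)‖ ^ 2 := pow_le_pow_left₀ hc.le (hy _) 2
      have h2 : 0 ≤ c ^ 2 * ((|a i| * (2⁻¹ : ℝ) ^ (i + 1)) * (|a i| * (2⁻¹ : ℝ) ^ (i + 1))) := by
        positivity
      nlinarith [mul_le_mul_of_nonneg_left h1 (sq_nonneg (a i))]
    · rw [if_neg hij, zero_sub]
      have h1 : |a i * a j * inner ℝ (y (σ i)) (y (σ j))| ≤
          c ^ 2 * ((|a i| * (2⁻¹ : ℝ) ^ (i + 1)) * (|a j| * (2⁻¹ : ℝ) ^ (j + 1))) := by
        rw [abs_mul, abs_mul]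
        calc |a i| * |a j| * |inner ℝ (y (σ i)) (y (σ j))|
            ≤ |a i| * |a j| * (c ^ 2 * ((2⁻¹ : ℝ) ^ (i + 1) * (2⁻¹ : ℝ) ^ (j + 1))) :=
              mul_le_mul_of_nonneg_left (hne i j hij) (by positivity)
          _ = _ := by ring
      exact (abs_le.1 h1).1
  have hsum : ∑ i ∈ s, ∑ j ∈ s, ((if i = j then c ^ 2 * a i ^ 2 else 0) -
      c ^ 2 * ((|a i| * (2⁻¹ : ℝ) ^ (i + 1)) * (|a j| * (2⁻¹ : ℝ) ^ (j + 1)))) =
      c ^ 2 * ∑ j ∈ s, a j ^ 2 - c ^ 2 * (∑ i ∈ s, |a i| * (2⁻¹ : ℝ) ^ (i + 1)) ^ 2 := by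
    simp only [Finset.sum_sub_distrib]
    congr 1
    · rw [Finset.mul_sum]
      refine Finset.sum_congr rfl fun i hi => ?_
      rw [Finset.sum_ite_eq s i, if_pos hi]
    · rw [sq (∑ i ∈ s, |a i| * (2⁻¹ : ℝ) ^ (i + 1)), Finset.sum_mul_sum, Finset.mul_sum]
      refine Finset.sum_congr rfl fun i _ => ?_
      rw [Finset.mul_sum]
  have hCS : (∑ i ∈ s, |a i| * (2⁻¹ : ℝ) ^ (i + 1)) ^ 2 ≤
      (∑ i ∈ s, |a i| ^ 2) * ∑ i ∈ s, ((2⁻¹ : ℝ) ^ (i + 1)) ^ 2 :=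
    Finset.sum_mul_sq_le_sq_mul_sq s _ _
  have hgeo : ∑ i ∈ s, ((2⁻¹ : ℝ) ^ (i + 1)) ^ 2 ≤ 1 / 3 := by
    have h1 : ∀ i : ℕ, ((2⁻¹ : ℝ) ^ (i + 1)) ^ 2 = 4⁻¹ * (4⁻¹ : ℝ) ^ i := by
      intro i
      rw [← pow_mul, mul_comm (i + 1) 2, pow_mul]
      norm_num [pow_succ]
      ring
    have h2 : HasSum (fun i : ℕ => 4⁻¹ * (4⁻¹ : ℝ) ^ i) (4⁻¹ * (1 - 4⁻¹)⁻¹) :=
      (hasSum_geometric_of_lt_one (by norm_num) (by norm_num)).mul_left _
    simp only [h1]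
    refine (sum_le_hasSum s (fun i _ => by positivity) h2).trans ?_
    norm_num
  rw [hexp]
  have h1 := Finset.sum_le_sum fun i (_ : i ∈ s) => Finset.sum_le_sum fun j (_ : j ∈ s) => hterm i j
  rw [hsum] at h1
  refine le_trans ?_ h1
  simp only [sq_abs] at hCS
  have h0 : 0 ≤ ∑ j ∈ s, a j ^ 2 := Finset.sum_nonneg fun i _ => sq_nonneg _
  have h2 : (∑ i ∈ s, |a i| * (2⁻¹ : ℝ) ^ (i + 1)) ^ 2 ≤ (∑ j ∈ s, a j ^ 2) * (1 / 3) :=
    hCS.trans (mul_le_mul_of_nonneg_left hgeo h0)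
  have h3 : c ^ 2 * (∑ i ∈ s, |a i| * (2⁻¹ : ℝ) ^ (i + 1)) ^ 2 ≤
      c ^ 2 * ((∑ j ∈ s, a j ^ 2) * (1 / 3)) := mul_le_mul_of_nonneg_left h2 (by positivity)
  have h4 : 0 ≤ c ^ 2 * ∑ j ∈ s, a j ^ 2 := by positivity
  nlinarith [h3, h4]

end Pool.Agent.H27.Kato
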