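import Pool.Agent.H27.Kato.Split
import Pool.Agent.H27.Kato.WeakSeq
import Pool.Agent.H27.Kato.Fourth

/-!
# The inclusion in `L²` and uniformly bounded weakly null sequences
-/

open MeasureTheory Set Filter Topology
open scoped ENNReal NNReal

namespace Pool.Agent.H27.Kato

variable {Ω : Type*} [MeasurableSpace Ω] {μ : Measure Ω} {φ : OrliczFn} {B : ℤ → ℕ}

namespace Rel

variable (h : Rel φ B)
include h

lemma memL2 (f : OrliczSpace φ μ) : MemLp (f : Ω → ℝ) 2 μ := by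
  rw [memLp_two_iff_integrable_sq f.aesm]
  refine ⟨f.aesm.pow 2, ?_⟩
  rw [hasFiniteIntegral_iff_ofReal (Eventually.of_forall (fun x => sq_nonneg _))]
  exact (h.lintegral_sq_le f).trans_lt (ENNReal.mul_lt_top (by norm_num) (h.rho_lt_top' f))

/-- the inclusion of the Orlicz space in `L²` -/
noncomputable def l2 : OrliczSpace φ μ →ₗ[ℝ] Lp ℝ 2 μ where
  toFun := fun f => (h.memL2 f).toLp f
  map_add' := by
    intro f g
    rw [← MemLp.toLp_add]
    apply MemLp.toLp_congr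
    filter_upwards [OrliczSpace.coe_add f g] with x hx
    rw [hx, Pi.add_apply]
  map_smul' := by
    intro c f
    rw [RingHom.id_apply, ← MemLp.toLp_const_smul]
    apply MemLp.toLp_congr
    filter_upwards [OrliczSpace.coe_smul c f] with x hx
    rw [hx, Pi.smul_apply, smul_eq_mul]

lemma coe_l2 (f : OrliczSpace φ μ) : ∀ᵐ x ∂μ, (h.l2 f : Ω → ℝ) x = f x :=
  (h.memL2 f).coeFn_toLp

lemma inner_l2 (f : OrliczSpace φ μ) (g : Lp ℝ 2 μ) :
    inner ℝ (h.l2 f) g = ∫ x, f x * g x ∂μ := by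
  rw [L2.inner_def]
  apply integral_congr_ae
  filter_upwards [h.coe_l2 f] with x hx
  rw [hx]
  simp [mul_comm]

lemma norm_l2_sq (f : OrliczSpace φ μ) :
    ENNReal.ofReal (‖h.l2 f‖ ^ 2) = ∫⁻ x, ENNReal.ofReal (f x ^ 2) ∂μ := by
  have h1 : ‖h.l2 f‖ ^ 2 = ∫ x, f x ^ 2 ∂μ := by
    rw [← real_inner_self_eq_norm_sq, h.inner_l2]
    apply integral_congr_ae
    filter_upwards [h.coe_l2 f] with x hx
    rw [hx, sq]
  rw [h1, ofReal_integral_eq_lintegral_ofReal]
  · exact (memLp_two_iff_integrable_sq f.aesm).1 (h.memL2 f)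
  · exact Eventually.of_forall (fun x => sq_nonneg _)

lemma norm_l2_le (f : OrliczSpace φ μ) : ‖h.l2 f‖ ≤ 4 * ‖f‖ := by
  have key : ∀ g : OrliczSpace φ μ, ‖g‖ ≤ 1 → ‖h.l2 g‖ ≤ 4 := by
    intro g hg
    have h1 := h.lintegral_sq_le (μ := μ) g
    rw [← h.norm_l2_sq] at h1
    have h2 : ENNReal.ofReal (‖h.l2 g‖ ^ 2) ≤ ENNReal.ofReal 16 := by
      refine h1.trans ?_
      calc 16 * rho μ φ g ≤ 16 * 1 := mul_le_mul_right (OrliczSpace.rho_le_one hg) _
        _ = ENNReal.ofReal 16 := by norm_num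
    rw [ENNReal.ofReal_le_ofReal_iff (by norm_num)] at h2
    nlinarith [norm_nonneg (h.l2 g)]
  rcases eq_or_ne ‖f‖ 0 with h0 | h0
  · have : f = 0 := norm_eq_zero.1 h0
    rw [this]
    simp
  · have h1 := key (‖f‖⁻¹ • f) (by
      rw [norm_smul, norm_inv, norm_norm, inv_mul_cancel₀ h0])
    rw [map_smul, norm_smul, norm_inv, norm_norm, inv_mul_le_iff₀ (by positivity)] at h1
    linarith

/-- Upper quadratic estimate for a subsequence of a uniformly bounded weakly null sequence. -/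
lemma upper_bdd [IsProbabilityMeasure μ] (b : ℕ → OrliczSpace φ μ) (M : ℝ)
    (hM : ∀ n, ∀ᵐ t ∂μ, |b n t| ≤ M)
    (hw : ∀ g : Lp ℝ 2 μ, Tendsto (fun n => inner ℝ (h.l2 (b n)) g) atTop (𝓝 0)) :
    ∃ σ : ℕ → ℕ, StrictMono σ ∧ ∃ K : ℝ, ∀ (s : Finset ℕ) (a : ℕ → ℝ),
      ∑ j ∈ s, a j ^ 2 ≤ 1 → ‖∑ j ∈ s, a j • b (σ j)‖ ≤ K := by
  obtain ⟨σ, hσ, K, hK0, hK⟩ := exists_fourth_moment μ (fun n => (b n : Ω → ℝ)) M
    (fun n => (b n).aesm) hM (by
      intro g hg
      have h1 := hw (hg.toLp g)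
      refine h1.congr (fun n => ?_)
      rw [h.inner_l2]
      apply integral_congr_ae
      filter_upwards [hg.coeFn_toLp] with x hx
      rw [hx])
  refine ⟨σ, hσ, 16 * (1 + K), fun s a hs => ?_⟩
  apply OrliczSpace.norm_le_of_rho_le (by linarith)
  refine (h.rho_le_fourth _).trans ?_
  have hsum : ∀ᵐ x ∂μ, (∑ j ∈ s, a j • b (σ j) : OrliczSpace φ μ) x = ∑ j ∈ s, a j * b (σ j) x := by
    have h1 : ∀ᵐ t ∂μ, ∀ j ∈ s, (a j • b (σ j)) t = a j * b (σ j) t := by
      rw [Filter.eventually_all_finset]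
      intro j _
      exact OrliczSpace.coe_smul _ _
    filter_upwards [OrliczSpace.coe_sum s (fun j => a j • b (σ j)), h1] with t h2 h3
    rw [h2]
    exact Finset.sum_congr rfl (fun q hq => h3 q hq)
  have hint : ∫⁻ x, ENNReal.ofReal ((∑ j ∈ s, a j • b (σ j) : OrliczSpace φ μ) x ^ 4) ∂μ
      ≤ ENNReal.ofReal K := by
    have h1 : ∫⁻ x, ENNReal.ofReal ((∑ j ∈ s, a j • b (σ j) : OrliczSpace φ μ) x ^ 4) ∂μ
        = ∫⁻ x, ENNReal.ofReal ((∑ j ∈ s, a j * b (σ j) x) ^ 4) ∂μ := by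
      apply lintegral_congr_ae
      filter_upwards [hsum] with x hx
      rw [hx]
    rw [h1, ← ofReal_integral_eq_lintegral_ofReal]
    · exact ENNReal.ofReal_le_ofReal (hK s a hs)
    · -- bounded, hence integrable
      have hbd : ∀ᵐ x ∂μ, ∀ j ∈ s, |b (σ j) x| ≤ M := by
        rw [Filter.eventually_all_finset]
        intro j _
        exact hM _
      have hms : AEStronglyMeasurable (fun x => (∑ j ∈ s, a j * b (σ j) x) ^ 4) μ := by
        apply AEStronglyMeasurable.pow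
        exact Finset.aestronglyMeasurable_fun_sum s (fun j _ => (b (σ j)).aesm.const_mul _)
      refine Integrable.of_bound hms ((∑ j ∈ s, |a j| * M) ^ 4) ?_
      filter_upwards [hbd] with x hx
      rw [Real.norm_eq_abs, abs_pow]
      apply pow_le_pow_left₀ (abs_nonneg _)
      refine (Finset.abs_sum_le_sum_abs _ _).trans (Finset.sum_le_sum (fun j hj => ?_))
      rw [abs_mul]
      exact mul_le_mul_of_nonneg_left (hx j hj) (abs_nonneg _)
    · refine Eventually.of_forall (fun x => ?_)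
      show (0 : ℝ) ≤ (∑ j ∈ s, a j * b (σ j) x) ^ 4
      positivity
  calc 16 * (1 + ∫⁻ x, ENNReal.ofReal ((∑ j ∈ s, a j • b (σ j) : OrliczSpace φ μ) x ^ 4) ∂μ)
      ≤ 16 * (1 + ENNReal.ofReal K) := by gcongr
    _ = ENNReal.ofReal (16 * (1 + K)) := by
        rw [ENNReal.ofReal_mul (by norm_num), ENNReal.ofReal_add (by norm_num) hK0]
        norm_num

end Rel

end Pool.Agent.H27.Kato
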