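import Pool.Agent.H27.Kato.Phi

/-!
# Modular estimates in the Orlicz space of a height path
-/

open MeasureTheory Set Filter Topology
open scoped ENNReal NNReal

namespace Pool.Agent.H27.Kato

variable {Ω : Type*} [MeasurableSpace Ω] {μ : Measure Ω} {φ : OrliczFn} {B : ℤ → ℕ}

lemma rho_le_of_pt {g k : Ω → ℝ} {C : ℝ} (hC : 0 ≤ C) (h : ∀ x, φ |g x| ≤ C * φ |k x|) :
    rho μ φ g ≤ ENNReal.ofReal C * rho μ φ k := by
  unfold rho
  rw [← lintegral_const_mul' _ _ ENNReal.ofReal_ne_top]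
  apply lintegral_mono
  intro x
  show ENNReal.ofReal (φ |g x|) ≤ ENNReal.ofReal C * ENNReal.ofReal (φ |k x|)
  rw [← ENNReal.ofReal_mul hC]
  exact ENNReal.ofReal_le_ofReal (h x)

namespace Rel

variable (h : Rel φ B)
include h

lemma rho_scale (g : Ω → ℝ) {t s : ℝ} (q : ℕ) (hts : |t| ≤ 2 ^ q * |s|) :
    rho μ φ (fun x => t * g x) ≤ ENNReal.ofReal (2048 ^ q) * rho μ φ (fun x => s * g x) := by
  apply rho_le_of_pt (by positivity)
  intro x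
  refine le_trans (φ.mono (abs_nonneg _) ?_) (h.double_pow (abs_nonneg _) q)
  rw [abs_mul, abs_mul, ← mul_assoc]
  exact mul_le_mul_of_nonneg_right hts (abs_nonneg _)

lemma rho_lt_top (f : OrliczSpace φ μ) (t : ℝ) : rho μ φ (fun x => t * f x) < ∞ := by
  obtain ⟨s, hs⟩ := OrliczSpace.nset_nonempty f
  obtain ⟨q, hq⟩ := pow_unbounded_of_one_lt (|t| * s) (show (1 : ℝ) < 2 by norm_num)
  refine (h.rho_scale (s := s⁻¹) f q ?_).trans_lt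
    (ENNReal.mul_lt_top ENNReal.ofReal_lt_top (hs.2.trans_lt ENNReal.one_lt_top))
  rw [abs_of_pos (inv_pos.2 hs.1), ← div_eq_mul_inv, le_div_iff₀ hs.1]
  exact hq.le

lemma rho_lt_top' (f : OrliczSpace φ μ) : rho μ φ f < ∞ := by
  simpa using h.rho_lt_top f 1

/-- small modular implies small norm, uniformly -/
lemma norm_small {ε : ℝ} (hε : 0 < ε) : ∃ η : ℝ, 0 < η ∧ ∀ f : OrliczSpace φ μ,
    rho μ φ f ≤ ENNReal.ofReal η → ‖f‖ ≤ ε := by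
  obtain ⟨q, hq⟩ := pow_unbounded_of_one_lt (ε⁻¹) (show (1 : ℝ) < 2 by norm_num)
  refine ⟨(2048 ^ q)⁻¹, by positivity, fun f hf => ?_⟩
  apply OrliczSpace.norm_le hε
  have h1 := h.rho_scale (μ := μ) (t := ε⁻¹) (s := 1) f q (by
    rw [abs_of_pos (inv_pos.2 hε), abs_one, mul_one]
    exact hq.le)
  simp only [one_mul] at h1
  refine h1.trans ((mul_le_mul_right hf _).trans ?_)
  rw [← ENNReal.ofReal_mul (by positivity), mul_inv_cancel₀ (by positivity), ENNReal.ofReal_one]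

/-- large norm implies large modular, uniformly -/
lemma rho_large {ε : ℝ} (hε : 0 < ε) : ∃ η : ℝ, 0 < η ∧ ∀ f : OrliczSpace φ μ,
    ε ≤ ‖f‖ → ENNReal.ofReal η ≤ rho μ φ f := by
  obtain ⟨η, h0, h1⟩ := h.norm_small (μ := μ) (half_pos hε)
  refine ⟨η, h0, fun f hf => ?_⟩
  by_contra hlt
  have := h1 f (not_le.1 hlt).le
  linarith

lemma lintegral_sq_le (g : Ω → ℝ) :
    ∫⁻ x, ENNReal.ofReal (g x ^ 2) ∂μ ≤ 16 * rho μ φ g := by
  unfold rho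
  rw [← lintegral_const_mul' _ _ (by norm_num)]
  apply lintegral_mono
  intro x
  show ENNReal.ofReal (g x ^ 2) ≤ 16 * ENNReal.ofReal (φ |g x|)
  have : (16 : ℝ≥0∞) = ENNReal.ofReal 16 := by norm_num
  rw [this, ← ENNReal.ofReal_mul (by norm_num), ← sq_abs]
  exact ENNReal.ofReal_le_ofReal (h.sq_le (abs_nonneg _))

lemma rho_le_sq {g : Ω → ℝ} {M : ℝ} (hM : 1 ≤ M) (hg : ∀ᵐ x ∂μ, |g x| ≤ M) :
    rho μ φ g ≤ ENNReal.ofReal (16 * M) * ∫⁻ x, ENNReal.ofReal (g x ^ 2) ∂μ := by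
  unfold rho
  rw [← lintegral_const_mul' _ _ ENNReal.ofReal_ne_top]
  apply lintegral_mono_ae
  filter_upwards [hg] with x hx
  rw [← ENNReal.ofReal_mul (by positivity), ← sq_abs (g x)]
  exact ENNReal.ofReal_le_ofReal (h.le_sq (abs_nonneg _) hM hx)

lemma rho_le_fourth [IsProbabilityMeasure μ] (g : Ω → ℝ) :
    rho μ φ g ≤ 16 * (1 + ∫⁻ x, ENNReal.ofReal (g x ^ 4) ∂μ) := by
  have e16 : (16 : ℝ≥0∞) = ENNReal.ofReal 16 := by norm_num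
  calc rho μ φ g ≤ ∫⁻ x, 16 * (1 + ENNReal.ofReal (g x ^ 4)) ∂μ := by
        unfold rho
        apply lintegral_mono
        intro x
        show ENNReal.ofReal (φ |g x|) ≤ 16 * (1 + ENNReal.ofReal (g x ^ 4))
        rw [e16, ← ENNReal.ofReal_one, ← ENNReal.ofReal_add (by norm_num) (by positivity),
          ← ENNReal.ofReal_mul (by norm_num)]
        have := h.le_fourth (abs_nonneg (g x))
        have e : |g x| ^ 4 = g x ^ 4 := by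
          rw [show (4 : ℕ) = 2 * 2 by norm_num, pow_mul, sq_abs, ← pow_mul]
        rw [e] at this
        exact ENNReal.ofReal_le_ofReal this
    _ = 16 * (1 + ∫⁻ x, ENNReal.ofReal (g x ^ 4) ∂μ) := by
        rw [lintegral_const_mul' _ _ (by norm_num), lintegral_add_left measurable_const]
        simp

/-- pointwise window estimate -/
lemma window_pt {C0 r s : ℕ} (hw : ∀ p : ℤ, ∑ T ∈ Finset.range (4 ^ r),
    2 ^ (B (p - (T : ℤ) - (r : ℤ) - (s : ℤ))) ≤ C0 * 4 ^ r * 2 ^ (B p)) {u : ℝ} (hu : 0 ≤ u) :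
    ∑ T ∈ Finset.range (4 ^ r), (4 : ℝ) ^ T * φ ((2 : ℝ)⁻¹ ^ (T + r + s) * u)
      ≤ 256 * C0 * (4 : ℝ)⁻¹ ^ s * φ u := by
  set p := Int.log 2 u with hp
  have hwp : (0 : ℝ) < 2 ^ (B p) := by positivity
  have h1 : (2 : ℝ) ^ (B p) * ∑ T ∈ Finset.range (4 ^ r),
      (4 : ℝ) ^ T * φ ((2 : ℝ)⁻¹ ^ (T + r + s) * u)
      ≤ 256 * (4 : ℝ)⁻¹ ^ (r + s) * φ u *
        ∑ T ∈ Finset.range (4 ^ r), (2 : ℝ) ^ (B (p - (T : ℤ) - (r : ℤ) - (s : ℤ))) := by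
    rw [Finset.mul_sum, Finset.mul_sum]
    apply Finset.sum_le_sum
    intro T _
    have h2 := h.scale_upper hu (T + r + s)
    rw [← hp] at h2
    have e1 : p - ((T + r + s : ℕ) : ℤ) = p - (T : ℤ) - (r : ℤ) - (s : ℤ) := by
      push_cast
      ring
    rw [e1] at h2
    calc (2 : ℝ) ^ (B p) * ((4 : ℝ) ^ T * φ ((2 : ℝ)⁻¹ ^ (T + r + s) * u))
        = (4 : ℝ) ^ T * ((2 : ℝ) ^ (B p) * φ ((2 : ℝ)⁻¹ ^ (T + r + s) * u)) := by ring
      _ ≤ (4 : ℝ) ^ T * (256 * ((4 : ℝ)⁻¹ ^ (T + r + s) *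
            2 ^ (B (p - (T : ℤ) - (r : ℤ) - (s : ℤ))) * φ u)) :=
          mul_le_mul_of_nonneg_left h2 (by positivity)
      _ = ((4 : ℝ) ^ T * (4 : ℝ)⁻¹ ^ T) * (256 * (4 : ℝ)⁻¹ ^ (r + s) * φ u *
            2 ^ (B (p - (T : ℤ) - (r : ℤ) - (s : ℤ)))) := by
          rw [add_assoc, pow_add]
          ring
      _ = _ := by
          rw [← mul_pow]
          norm_num
  have h3 : (∑ T ∈ Finset.range (4 ^ r), (2 : ℝ) ^ (B (p - (T : ℤ) - (r : ℤ) - (s : ℤ))))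
      ≤ C0 * 4 ^ r * 2 ^ (B p) := by
    have := hw p
    exact_mod_cast this
  have h4 : 0 ≤ φ u := φ.nonneg hu
  have h5 := h1.trans (mul_le_mul_of_nonneg_left h3 (by positivity))
  have h6 : 256 * (4 : ℝ)⁻¹ ^ (r + s) * φ u * (C0 * 4 ^ r * 2 ^ (B p))
      = 2 ^ (B p) * (256 * C0 * (4 : ℝ)⁻¹ ^ s * φ u) := by
    rw [pow_add]
    have : (4 : ℝ)⁻¹ ^ r * 4 ^ r = 1 := by
      rw [← mul_pow]
      norm_num
    linear_combination (256 * (4 : ℝ)⁻¹ ^ s * φ u * (C0 * 2 ^ (B p))) * this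
  rw [h6] at h5
  exact le_of_mul_le_mul_left h5 hwp

/-- integrated window estimate -/
lemma window {C0 r s : ℕ} (hw : ∀ p : ℤ, ∑ T ∈ Finset.range (4 ^ r),
    2 ^ (B (p - (T : ℤ) - (r : ℤ) - (s : ℤ))) ≤ C0 * 4 ^ r * 2 ^ (B p)) {g : Ω → ℝ}
    (hg : AEStronglyMeasurable g μ) :
    ∑ T ∈ Finset.range (4 ^ r), (4 : ℝ≥0∞) ^ T * rho μ φ (fun x => (2 : ℝ)⁻¹ ^ (T + r + s) * g x)
      ≤ ENNReal.ofReal (256 * C0 * (4 : ℝ)⁻¹ ^ s) * rho μ φ g := by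
  unfold rho
  have e1 : ∀ T ∈ Finset.range (4 ^ r), (4 : ℝ≥0∞) ^ T *
      ∫⁻ x, ENNReal.ofReal (φ |(2 : ℝ)⁻¹ ^ (T + r + s) * g x|) ∂μ =
      ∫⁻ x, (4 : ℝ≥0∞) ^ T * ENNReal.ofReal (φ |(2 : ℝ)⁻¹ ^ (T + r + s) * g x|) ∂μ := by
    intro T _
    rw [lintegral_const_mul' _ _ (by simp)]
  rw [Finset.sum_congr rfl e1, ← lintegral_finsetSum' _ (fun T _ =>
    (aemeas_rho (hg.const_mul _)).const_mul _), ← lintegral_const_mul' _ _ ENNReal.ofReal_ne_top]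
  apply lintegral_mono
  intro x
  show ∑ T ∈ Finset.range (4 ^ r), (4 : ℝ≥0∞) ^ T *
    ENNReal.ofReal (φ |(2 : ℝ)⁻¹ ^ (T + r + s) * g x|) ≤
    ENNReal.ofReal (256 * C0 * (4 : ℝ)⁻¹ ^ s) * ENNReal.ofReal (φ |g x|)
  rw [← ENNReal.ofReal_mul (by positivity)]
  have e2 : ∀ T ∈ Finset.range (4 ^ r), (4 : ℝ≥0∞) ^ T *
      ENNReal.ofReal (φ |(2 : ℝ)⁻¹ ^ (T + r + s) * g x|) =
      ENNReal.ofReal ((4 : ℝ) ^ T * φ ((2 : ℝ)⁻¹ ^ (T + r + s) * |g x|)) := by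
    intro T _
    rw [ENNReal.ofReal_mul (by positivity), abs_mul, abs_of_nonneg (by positivity),
      ENNReal.ofReal_pow (by norm_num)]
    norm_num
  rw [Finset.sum_congr rfl e2, ← ENNReal.ofReal_sum_of_nonneg (fun T _ =>
    mul_nonneg (by positivity) (φ.nonneg (by positivity)))]
  exact ENNReal.ofReal_le_ofReal (h.window_pt hw (abs_nonneg _))

/-- pointwise lower estimate at bounded height -/
lemma lower_pt1 {u : ℝ} (hu : 0 ≤ u) {n : ℕ} (hn : B (Int.log 2 u) ≤ n) (a : ℕ) :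
    (4 : ℝ)⁻¹ ^ a * φ u ≤ 256 * 2 ^ n * φ ((2 : ℝ)⁻¹ ^ a * u) := by
  have h1 := h.scale_lower hu a
  have h2 : (1 : ℝ) ≤ 2 ^ (B (Int.log 2 u - a)) := one_le_pow₀ (by norm_num)
  have h3 : (2 : ℝ) ^ (B (Int.log 2 u)) ≤ 2 ^ n := pow_le_pow_right₀ (by norm_num) hn
  have h4 := φ.nonneg hu
  have h5 : 0 ≤ φ ((2 : ℝ)⁻¹ ^ a * u) := φ.nonneg (by positivity)
  have h6 : (0 : ℝ) < 4⁻¹ ^ a := by positivity
  calc (4 : ℝ)⁻¹ ^ a * φ u = (4 : ℝ)⁻¹ ^ a * 1 * φ u := by ring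
    _ ≤ (4 : ℝ)⁻¹ ^ a * 2 ^ (B (Int.log 2 u - a)) * φ u := by gcongr
    _ ≤ _ := h1
    _ ≤ 256 * (2 ^ n * φ ((2 : ℝ)⁻¹ ^ a * u)) := by gcongr
    _ = _ := by ring

/-- pointwise lower estimate at large height -/
lemma lower_pt2 {u : ℝ} (hu : 0 ≤ u) {a : ℕ}
    (ha : B (Int.log 2 u) ≤ B (Int.log 2 u - a) + 1) :
    (4 : ℝ)⁻¹ ^ a * φ u ≤ 512 * φ ((2 : ℝ)⁻¹ ^ a * u) := by
  have h1 := h.scale_lower hu a
  have h3 : (2 : ℝ) ^ (B (Int.log 2 u)) ≤ 2 * 2 ^ (B (Int.log 2 u - a)) := by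
    rw [← pow_succ']
    exact pow_le_pow_right₀ (by norm_num) ha
  have h4 := φ.nonneg hu
  have h5 : 0 ≤ φ ((2 : ℝ)⁻¹ ^ a * u) := φ.nonneg (by positivity)
  have h6 : (0 : ℝ) < 4⁻¹ ^ a := by positivity
  have h7 : (0 : ℝ) < 2 ^ (B (Int.log 2 u - a)) := by positivity
  have h8 : 2 ^ (B (Int.log 2 u - a)) * ((4 : ℝ)⁻¹ ^ a * φ u) ≤
      2 ^ (B (Int.log 2 u - a)) * (512 * φ ((2 : ℝ)⁻¹ ^ a * u)) := by
    calc 2 ^ (B (Int.log 2 u - a)) * ((4 : ℝ)⁻¹ ^ a * φ u)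
        = 4⁻¹ ^ a * 2 ^ (B (Int.log 2 u - a)) * φ u := by ring
      _ ≤ _ := h1
      _ ≤ 256 * ((2 * 2 ^ (B (Int.log 2 u - a))) * φ ((2 : ℝ)⁻¹ ^ a * u)) := by gcongr
      _ = _ := by ring
  exact le_of_mul_le_mul_left h8 h7

omit h in
lemma measurable_height {g : Ω → ℝ} (hg : Measurable g) :
    Measurable (fun x => B (Int.log 2 |g x|)) := by
  have e : (fun x => B (Int.log 2 |g x|)) = (fun x => B ⌊Real.logb 2 |g x|⌋) := by
    ext x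
    have := Real.floor_logb_natCast (b := 2) (abs_nonneg (g x))
    rw [← this]
    norm_num
  rw [e]
  have h1 : Measurable (fun x => Real.logb 2 |g x|) := by
    unfold Real.logb
    exact (Real.measurable_log.comp (measurable_norm.comp hg)).div_const _
  have h2 : Measurable (fun x => ⌊Real.logb 2 |g x|⌋) := Int.measurable_floor.comp h1
  exact (measurable_of_countable B).comp h2

/-- The dichotomy: a sequence of functions of modular at least `κ` has a subsequence with a uniform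
quadratic lower estimate of the modular at all fixed scales. -/
lemma dichotomy (hLR : ∀ A : ℕ, ∃ n : ℕ, ∀ p : ℤ, n ≤ B p → ∀ a : ℕ, a ≤ A →
      B p ≤ B (p - (a : ℤ)) + 1)
    (z : ℕ → Ω → ℝ) (hz : ∀ j, Measurable (z j)) {κ : ℝ} (hκ : 0 < κ)
    (hz2 : ∀ j, ENNReal.ofReal κ ≤ rho μ φ (z j)) :
    ∃ σ : ℕ → ℕ, StrictMono σ ∧ ∃ κ' : ℝ, 0 < κ' ∧ ∀ A : ℕ, ∃ j0 : ℕ, ∀ j ≥ j0, ∀ a ≤ A,
      ENNReal.ofReal (κ' * (4 : ℝ)⁻¹ ^ a) ≤ rho μ φ (fun x => (2 : ℝ)⁻¹ ^ a * z (σ j) x) := by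
  set S : ℕ → ℕ → Set Ω := fun n j => {x | B (Int.log 2 |z j x|) ≤ n} with hS
  have hSm : ∀ n j, MeasurableSet (S n j) := fun n j =>
    measurableSet_le (measurable_height (hz j)) measurable_const
  have hsplit : ∀ n j, ENNReal.ofReal κ ≤ (∫⁻ x in S n j, ENNReal.ofReal (φ |z j x|) ∂μ)
      + ∫⁻ x in (S n j)ᶜ, ENNReal.ofReal (φ |z j x|) ∂μ := by
    intro n j
    rw [lintegral_add_compl _ (hSm n j)]
    exact hz2 j
  have key : ∀ (T : Set Ω) (j a : ℕ) (C : ℝ), MeasurableSet T → 0 < C →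
      (∀ x ∈ T, (4 : ℝ)⁻¹ ^ a * φ |z j x| ≤ C * φ ((2 : ℝ)⁻¹ ^ a * |z j x|)) →
      ENNReal.ofReal (κ / 2) ≤ ∫⁻ x in T, ENNReal.ofReal (φ |z j x|) ∂μ →
      ENNReal.ofReal (κ / 2 / C * (4 : ℝ)⁻¹ ^ a) ≤ rho μ φ (fun x => (2 : ℝ)⁻¹ ^ a * z j x) := by
    intro T j a C hT hC hx hk
    have h1 : ENNReal.ofReal ((4 : ℝ)⁻¹ ^ a / C) * ∫⁻ x in T, ENNReal.ofReal (φ |z j x|) ∂μ
        ≤ rho μ φ (fun x => (2 : ℝ)⁻¹ ^ a * z j x) := by
      rw [← lintegral_const_mul' _ _ ENNReal.ofReal_ne_top]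
      refine le_trans ?_ (setLIntegral_le_lintegral T _)
      apply setLIntegral_mono' hT
      intro x hxT
      rw [← ENNReal.ofReal_mul (by positivity), abs_mul, abs_of_nonneg (by positivity :
        (0 : ℝ) ≤ 2⁻¹ ^ a)]
      apply ENNReal.ofReal_le_ofReal
      rw [div_mul_eq_mul_div, div_le_iff₀ hC, mul_comm _ C]
      exact hx x hxT
    refine le_trans ?_ h1
    calc ENNReal.ofReal (κ / 2 / C * (4 : ℝ)⁻¹ ^ a)
        = ENNReal.ofReal ((4 : ℝ)⁻¹ ^ a / C) * ENNReal.ofReal (κ / 2) := by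
          rw [← ENNReal.ofReal_mul (by positivity)]
          congr 1
          ring
      _ ≤ _ := mul_le_mul_right hk _
  by_cases hc : ∃ n, ∃ᶠ j in atTop,
      ENNReal.ofReal (κ / 2) ≤ ∫⁻ x in S n j, ENNReal.ofReal (φ |z j x|) ∂μ
  · obtain ⟨n, hn⟩ := hc
    obtain ⟨σ, hσ, hσ2⟩ := extraction_of_frequently_atTop hn
    refine ⟨σ, hσ, κ / 2 / (256 * 2 ^ n), by positivity, fun A => ⟨0, fun j _ a _ => ?_⟩⟩
    exact key (S n (σ j)) (σ j) a (256 * 2 ^ n) (hSm _ _) (by positivity)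
      (fun x hx => h.lower_pt1 (abs_nonneg _) hx a) (hσ2 j)
  · push Not at hc
    refine ⟨id, strictMono_id, κ / 2 / 512, by positivity, fun A => ?_⟩
    obtain ⟨n, hn⟩ := hLR A
    obtain ⟨j0, hj0⟩ := eventually_atTop.1 (hc n)
    refine ⟨j0, fun j hj a ha => ?_⟩
    refine key (S n j)ᶜ j a 512 (hSm _ _).compl (by norm_num) (fun x hx => ?_) ?_
    · apply h.lower_pt2 (abs_nonneg _)
      apply hn _ _ a ha
      have : ¬ B (Int.log 2 |z j x|) ≤ n := hx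
      omega
    · by_contra hlt
      rw [not_le] at hlt
      have h1 := ENNReal.add_lt_add (hj0 j hj) hlt
      rw [← ENNReal.ofReal_add (by positivity) (by positivity), add_halves] at h1
      exact absurd (hsplit n j) (not_le.2 h1)

end Rel

end Pool.Agent.H27.Kato
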