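import Mathlib

/-!
# A height path with slow high hills

Elementary construction.

Put `Q 0 = 0`, `Q (k+1) = Q k + 3 k + 7`, `R k = Q k + 2 k + 3`, `L k = 4^(Q k)`, `N k = 4^(R k)`
and let `hill k p = k - |p % N k - N k / 2| / L k` for `p > 0` (truncated subtraction, floor
division), `hill k p = 0` for `p ≤ 0`.  The path is `B p = sup_k hill k p`.
-/

namespace Pool.Agent.H27.Kato

namespace PathAux

/-- exponents of the slopes -/
def Q : ℕ → ℕ
  | 0 => 0
  | k + 1 => Q k + 3 * k + 7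

/-- exponents of the periods -/
def R (k : ℕ) : ℕ := Q k + 2 * k + 3

/-- slope lengths -/
def L (k : ℕ) : ℕ := 4 ^ Q k

/-- half periods -/
def H (k : ℕ) : ℕ := 2 * 4 ^ (Q k + 2 * k + 2)

/-- periods -/
def N (k : ℕ) : ℕ := 4 ^ R k

theorem N_eq (k : ℕ) : N k = 2 * H k := by
  unfold N H R
  rw [show Q k + 2 * k + 3 = (Q k + 2 * k + 2) + 1 by ring, pow_succ]
  ring

theorem Q_succ (k : ℕ) : Q (k + 1) = R k + k + 4 := by
  show Q k + 3 * k + 7 = Q k + 2 * k + 3 + k + 4
  ring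

theorem Q_mono : Monotone Q := monotone_nat_of_le_succ fun k => by
  show Q k ≤ Q k + 3 * k + 7
  omega

theorem R_strictMono : StrictMono R := strictMono_nat_of_lt_succ fun k => by
  unfold R
  show Q k + 2 * k + 3 < Q k + 3 * k + 7 + 2 * (k + 1) + 3
  omega

theorem le_R (k : ℕ) : k ≤ R k := R_strictMono.le_apply

theorem L_pos (k : ℕ) : 0 < L k := by unfold L; positivity

theorem N_pos (k : ℕ) : 0 < N k := by unfold N; positivity

theorem L_mono : Monotone L := fun _ _ h => Nat.pow_le_pow_right (by norm_num) (Q_mono h)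

theorem N_strictMono : StrictMono N := fun _ _ h =>
  Nat.pow_lt_pow_right (by norm_num) (R_strictMono h)

theorem N_dvd {i j : ℕ} (h : i ≤ j) : N i ∣ N j := pow_dvd_pow _ (R_strictMono.monotone h)

theorem le_L (k : ℕ) : k ≤ L k := by
  have h1 : k ≤ Q k := by
    induction k with
    | zero => simp
    | succ k ih =>
      show k + 1 ≤ Q k + 3 * k + 7
      omega
  have h2 : Q k < 4 ^ Q k := Nat.lt_pow_self (by norm_num)
  unfold L
  omega

theorem H_eq (k : ℕ) : H k = 2 * 4 ^ (2 * k + 2) * L k := by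
  unfold H L
  rw [show Q k + 2 * k + 2 = (2 * k + 2) + Q k by ring, pow_add]
  ring

theorem pow_ge (k : ℕ) : 4 ^ k * (k + 1) ≤ 4 ^ (2 * k + 2) := by
  have : k + 1 < 4 ^ (k + 1) := Nat.lt_pow_self (by norm_num)
  calc 4 ^ k * (k + 1) ≤ 4 ^ k * 4 ^ (k + 2) :=
        Nat.mul_le_mul_left _ (this.le.trans (Nat.pow_le_pow_right (by norm_num) (by omega)))
    _ = 4 ^ (2 * k + 2) := by rw [← pow_add]; congr 1; ring

/-- `4^k * 2 * (k+1) * L k ≤ H k`. -/
theorem H_ge (k : ℕ) : 4 ^ k * (2 * (k + 1) * L k) ≤ H k := by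
  rw [H_eq]
  have := pow_ge k
  calc 4 ^ k * (2 * (k + 1) * L k) = 2 * (4 ^ k * (k + 1)) * L k := by ring
    _ ≤ 2 * 4 ^ (2 * k + 2) * L k := by gcongr

theorem H_ge' (k : ℕ) : 2 * (k + 1) * L k ≤ H k := by
  refine le_trans ?_ (H_ge k)
  exact Nat.le_mul_of_pos_left _ (by positivity)

theorem N_le_L {j k : ℕ} (h : j < k) : N j ≤ L k := by
  obtain ⟨k, rfl⟩ : ∃ k', k = k' + 1 := ⟨k - 1, by omega⟩
  unfold N L
  apply Nat.pow_le_pow_right (by norm_num)
  rw [Q_succ]
  have := R_strictMono.monotone (show j ≤ k by omega)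
  omega

/-- distance to the top of the hill -/
def d (k : ℕ) (p : ℤ) : ℕ := (p % (N k : ℤ) - (H k : ℤ)).natAbs

/-- the hills -/
def h (k : ℕ) (p : ℤ) : ℕ := if p ≤ 0 then 0 else k - d k p / L k

theorem h_of_nonpos {k : ℕ} {p : ℤ} (hp : p ≤ 0) : h k p = 0 := by simp [h, hp]

theorem h_le (k : ℕ) (p : ℤ) : h k p ≤ k := by
  unfold h
  split_ifs
  · omega
  · exact Nat.sub_le _ _

theorem d_succ (k : ℕ) (p : ℤ) : d k (p + 1) ≤ d k p + 1 ∧ d k p ≤ d k (p + 1) + 1 := by
  have hN : (0 : ℤ) < (N k : ℤ) := by exact_mod_cast N_pos k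
  have hNH : (N k : ℤ) = 2 * (H k : ℤ) := by exact_mod_cast N_eq k
  have h0 := Int.emod_nonneg p hN.ne'
  have h1 := Int.emod_lt_of_pos p hN
  unfold d
  by_cases hc : p % (N k : ℤ) + 1 = N k
  · have : (p + 1) % (N k : ℤ) = 0 := by
      rw [← Int.emod_add_emod, hc, Int.emod_self]
    rw [this]
    omega
  · have : (p + 1) % (N k : ℤ) = p % (N k : ℤ) + 1 := by
      rw [← Int.emod_add_emod]
      apply Int.emod_eq_of_lt <;> omega
    rw [this]
    omega

theorem d_add (k : ℕ) (p : ℤ) (m : ℕ) : d k (p + m) ≤ d k p + m ∧ d k p ≤ d k (p + m) + m := by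
  induction m with
  | zero => simp
  | succ m ih =>
    have := d_succ k (p + m)
    rw [show p + ((m + 1 : ℕ) : ℤ) = p + m + 1 by push_cast; ring]
    omega

theorem div_le_div_add_one {a b c : ℕ} (hc : 0 < c) (hab : a ≤ b + c) : a / c ≤ b / c + 1 := by
  calc a / c ≤ (b + c) / c := Nat.div_le_div_right hab
    _ = b / c + 1 := Nat.add_div_right b hc

/-- `h k` vanishes at `0 < p` if `p` is small. -/
theorem h_eq_zero_of_small {k : ℕ} {p : ℤ} (hp : p ≤ L k) : h k p = 0 := by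
  unfold h
  split_ifs with h0
  · rfl
  · have h1 := H_ge' k
    have h2 := L_pos k
    have h3 : (L k : ℕ) < N k := by
      rw [N_eq]
      nlinarith
    have h4 : p % (N k : ℤ) = p := by
      apply Int.emod_eq_of_lt <;> omega
    have h5 : k * L k ≤ d k p := by
      unfold d
      rw [h4]
      have : (2 * (k + 1) * L k : ℕ) = 2 * (k * L k) + 2 * L k := by ring
      omega
    have h6 : k ≤ d k p / L k := (Nat.le_div_iff_mul_le h2).2 h5
    omega

theorem h_lip {k : ℕ} {p q : ℤ} (h1 : p - q ≤ L k) (h2 : q - p ≤ L k) : h k p ≤ h k q + 1 := by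
  rcases le_or_gt p 0 with hp | hp
  · rw [h_of_nonpos hp]; omega
  rcases le_or_gt q 0 with hq | hq
  · rw [h_eq_zero_of_small (k := k) (p := p) (by omega)]; omega
  have hL := L_pos k
  have key : d k q ≤ d k p + L k := by
    rcases le_total p q with hpq | hpq
    · obtain ⟨m, hm⟩ := Int.le.dest hpq
      have := d_add k p m
      rw [hm] at this
      omega
    · obtain ⟨m, hm⟩ := Int.le.dest hpq
      have := d_add k q m
      rw [hm] at this
      omega
  have := div_le_div_add_one hL key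
  unfold h
  rw [if_neg (by omega), if_neg (by omega)]
  omega

/-- the path -/
def B (p : ℤ) : ℕ := (Finset.range (p.toNat + 1)).sup fun k => h k p

theorem h_eq_zero_of_lt {k : ℕ} {p : ℤ} (hk : p < k) : h k p = 0 := by
  apply h_eq_zero_of_small
  have := le_L k
  omega

theorem le_B (k : ℕ) (p : ℤ) : h k p ≤ B p := by
  by_cases hk : p < k
  · rw [h_eq_zero_of_lt hk]; omega
  · exact Finset.le_sup (f := fun k => h k p) (Finset.mem_range.2 (by omega))

theorem exists_B (p : ℤ) : ∃ k, B p = h k p := by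
  obtain ⟨k, -, hk⟩ := Finset.exists_mem_eq_sup (Finset.range (p.toNat + 1)) ⟨0, by simp⟩
    (fun k => h k p)
  exact ⟨k, hk⟩

theorem B_nonpos {p : ℤ} (hp : p ≤ 0) : B p = 0 := by
  obtain ⟨k, hk⟩ := exists_B p
  rw [hk, h_of_nonpos hp]

theorem B_lip {p q : ℤ} (h1 : p - q ≤ 1) (h2 : q - p ≤ 1) : B p ≤ B q + 1 := by
  obtain ⟨k, hk⟩ := exists_B p
  have hL := L_pos k
  have h3 := h_lip (k := k) (p := p) (q := q) (by omega) (by omega)
  have h4 := le_B k q
  omega

/-- all hills vanish at the periods -/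
theorem h_period (k j : ℕ) : h k (N j : ℤ) = 0 := by
  rcases le_or_gt k j with hkj | hkj
  · unfold h
    split_ifs with h0
    · rfl
    · have h1 : (N j : ℤ) % (N k : ℤ) = 0 := by
        rw [← Int.natCast_mod, Nat.mod_eq_zero_of_dvd (N_dvd hkj), Nat.cast_zero]
      have h2 := H_ge' k
      have h3 := L_pos k
      have h5 : k * L k ≤ d k (N j) := by
        unfold d
        rw [h1]
        have : (2 * (k + 1) * L k : ℕ) = 2 * (k * L k) + 2 * L k := by ring
        omega
      have h6 : k ≤ d k (N j) / L k := (Nat.le_div_iff_mul_le h3).2 h5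
      omega
  · apply h_eq_zero_of_small
    exact_mod_cast N_le_L hkj

theorem B_period (j : ℕ) : B (N j : ℤ) = 0 := by
  obtain ⟨k, hk⟩ := exists_B (N j)
  rw [hk, h_period]

theorem h_top {i j : ℕ} (hij : i ≤ j) : i ≤ h i ((N j : ℤ) - (H i : ℤ)) := by
  have h1 : (N j : ℤ) % (N i : ℤ) = 0 := by
    rw [← Int.natCast_mod, Nat.mod_eq_zero_of_dvd (N_dvd hij), Nat.cast_zero]
  have h2 : (N i : ℤ) = 2 * (H i : ℤ) := by exact_mod_cast N_eq i
  have h3 : (N i : ℤ) ≤ N j := by exact_mod_cast N_strictMono.monotone hij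
  have h4 : (0 : ℤ) < N i := by exact_mod_cast N_pos i
  have h5 : ((N j : ℤ) - (H i : ℤ)) % (N i : ℤ) = H i := by
    obtain ⟨c, hc⟩ := Int.dvd_of_emod_eq_zero h1
    rw [hc, show (N i : ℤ) * c - (H i : ℤ) = (H i : ℤ) + (N i : ℤ) * (c - 1) by rw [h2]; ring,
      Int.add_mul_emod_self_left]
    apply Int.emod_eq_of_lt <;> omega
  have h6 : d i ((N j : ℤ) - (H i : ℤ)) = 0 := by
    unfold d
    rw [h5]
    simp
  unfold h
  rw [if_neg (by omega), h6]
  simp

/-- counting the places where hill `k` is positive -/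
theorem count (k r : ℕ) (hr : R k ≤ r) (c : ℤ) :
    4 ^ k * ((Finset.range (4 ^ r)).filter fun T : ℕ => 0 < h k (c - (T : ℤ))).card ≤ 4 ^ r := by
  have hN : (0 : ℤ) < (N k : ℤ) := by exact_mod_cast N_pos k
  have hNH : (N k : ℤ) = 2 * (H k : ℤ) := by exact_mod_cast N_eq k
  have hdvd : N k ∣ 4 ^ r := pow_dvd_pow _ hr
  obtain ⟨t, ht⟩ := hdvd
  have hL := L_pos k
  set S := (Finset.range (4 ^ r)).filter fun T : ℕ => 0 < h k (c - (T : ℤ)) with hS
  have hcard : S.card ≤ t * (2 * k * L k) := by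
    have hcard' : (Finset.range t ×ˢ Finset.Ico ((H k : ℤ) - k * L k)
        ((H k : ℤ) + k * L k)).card = t * (2 * k * L k) := by
      rw [Finset.card_product, Finset.card_range, Int.card_Ico]
      congr 1
      rw [show (H k : ℤ) + k * L k - ((H k : ℤ) - k * L k) = ((2 * k * L k : ℕ) : ℤ) by
        push_cast; ring, Int.toNat_natCast]
    rw [← hcard']
    apply Finset.card_le_card_of_injOn (fun T : ℕ => (T / N k, (c - (T : ℤ)) % (N k : ℤ)))
    · intro T hT
      rw [Finset.mem_coe, hS, Finset.mem_filter, Finset.mem_range] at hT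
      obtain ⟨hT1, hT2⟩ := hT
      rw [Finset.mem_coe, Finset.mem_product]
      refine ⟨?_, ?_⟩
      · rw [Finset.mem_range, Nat.div_lt_iff_lt_mul (N_pos k), mul_comm t, ← ht]
        exact hT1
      · have h1 : ¬ (k * L k ≤ d k (c - (T : ℤ))) := by
          intro h2
          have h3 : k ≤ d k (c - (T : ℤ)) / L k := (Nat.le_div_iff_mul_le hL).2 h2
          unfold h at hT2
          split_ifs at hT2
          · omega
          · omega
        unfold d at h1
        push Not at h1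
        rw [Finset.mem_Ico]
        simp only
        have h4 : ((k * L k : ℕ) : ℤ) = (k : ℤ) * (L k : ℤ) := by push_cast; ring
        constructor <;> rw [← h4] <;> omega
    · intro T hT T' hT' hTT
      simp only [Prod.mk.injEq] at hTT
      obtain ⟨e1, e2⟩ := hTT
      have e3 : (T : ℤ) % (N k : ℤ) = (T' : ℤ) % (N k : ℤ) := by
        have h5 := (Int.emod_emod_of_dvd (c - (c - (T : ℤ))) (dvd_refl (N k : ℤ)))
        have h6 : (c - (c - (T : ℤ))) % (N k : ℤ) = (c - (c - (T' : ℤ))) % (N k : ℤ) := by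
          rw [Int.sub_emod c (c - (T : ℤ)), e2, ← Int.sub_emod]
        simpa using h6
      have e4 : T % N k = T' % N k := by exact_mod_cast e3
      rw [← Nat.div_add_mod T (N k), ← Nat.div_add_mod T' (N k), e1, e4]
  calc 4 ^ k * S.card ≤ 4 ^ k * (t * (2 * k * L k)) := Nat.mul_le_mul_left _ hcard
    _ = t * (4 ^ k * (2 * k * L k)) := by ring
    _ ≤ t * H k := by
        apply Nat.mul_le_mul_left
        refine le_trans (Nat.mul_le_mul_left _ ?_) (H_ge k)
        apply Nat.mul_le_mul_right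
        omega
    _ ≤ t * N k := Nat.mul_le_mul_left _ (by rw [N_eq]; omega)
    _ = 4 ^ r := by rw [ht, mul_comm]

theorem two_pow_B_le (n r s T : ℕ) (p : ℤ) (hr : r = R n) (hs : s ≤ 2 * 4 ^ r + n)
    (hT : T < 4 ^ r) :
    2 ^ (B (p - (T : ℤ) - (r : ℤ) - (s : ℤ))) ≤ 2 * 2 ^ B p + 1 +
      ∑ k ∈ Finset.range (n + 1),
        2 ^ k * (if 0 < h k (p - (r : ℤ) - (s : ℤ) - (T : ℤ)) then 1 else 0) := by
  have e : p - (T : ℤ) - (r : ℤ) - (s : ℤ) = p - (r : ℤ) - (s : ℤ) - (T : ℤ) := by ring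
  rw [e]
  set q := p - (r : ℤ) - (s : ℤ) - (T : ℤ) with hq
  obtain ⟨k, hk⟩ := exists_B q
  rw [hk]
  rcases Nat.lt_or_ge n k with hnk | hnk
  · have h1 : N n ≤ L k := N_le_L hnk
    have h2 : 4 ^ (r + n + 4) ≤ L k := by
      have : L (n + 1) ≤ L k := L_mono hnk
      refine le_trans ?_ this
      unfold L
      rw [Q_succ, hr]
    have h3 : T + r + s ≤ L k := by
      refine le_trans ?_ h2
      have h4 : r < 4 ^ r := Nat.lt_pow_self (by norm_num)
      have h5 : n < 4 ^ n := Nat.lt_pow_self (by norm_num)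
      have h6 : 1 ≤ 4 ^ r := Nat.one_le_pow _ _ (by norm_num)
      have h7 : 1 ≤ 4 ^ n := Nat.one_le_pow _ _ (by norm_num)
      have h8 : 4 ^ (r + n + 4) = 4 ^ r * 4 ^ n * 256 := by
        rw [pow_add, pow_add]; norm_num
      rw [h8]
      nlinarith
    have h9 : h k q ≤ h k p + 1 := by
      apply h_lip
      · have : (0 : ℤ) ≤ (T : ℤ) + r + s := by positivity
        omega
      · omega
    have h10 : h k q ≤ B p + 1 := h9.trans (by have := le_B k p; omega)
    calc 2 ^ h k q ≤ 2 ^ (B p + 1) := Nat.pow_le_pow_right (by norm_num) h10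
      _ = 2 * 2 ^ B p := by rw [pow_succ, mul_comm]
      _ ≤ _ := by omega
  · rcases Nat.eq_zero_or_pos (h k q) with h0 | h0
    · rw [h0]
      simp only [pow_zero]
      omega
    · have h1 : 2 ^ h k q ≤ 2 ^ k * (if 0 < h k q then 1 else 0) := by
        rw [if_pos h0, mul_one]
        exact Nat.pow_le_pow_right (by norm_num) (h_le k q)
      have h2 : 2 ^ k * (if 0 < h k q then 1 else 0) ≤
          ∑ k ∈ Finset.range (n + 1), 2 ^ k * (if 0 < h k q then 1 else 0) :=
        Finset.single_le_sum (f := fun k => 2 ^ k * (if 0 < h k q then 1 else 0))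
          (fun _ _ => Nat.zero_le _) (Finset.mem_range.2 (by omega))
      omega

end PathAux

open PathAux in
theorem exists_path : ∃ B : ℤ → ℕ,
    (∀ p ≤ 0, B p = 0) ∧
    (∀ p, B (p + 1) ≤ B p + 1) ∧
    (∀ p, B p ≤ B (p + 1) + 1) ∧
    (∃ C0 : ℕ, ∀ n : ℕ, ∃ r : ℕ, n ≤ r ∧ ∀ s : ℕ, s ≤ 2 * 4 ^ r + n → ∀ p : ℤ,
      ∑ T ∈ Finset.range (4 ^ r), 2 ^ (B (p - (T : ℤ) - (r : ℤ) - (s : ℤ)))
        ≤ C0 * 4 ^ r * 2 ^ (B p)) ∧
    (∀ A : ℕ, ∃ n : ℕ, ∀ p : ℤ, n ≤ B p → ∀ a : ℕ, a ≤ A → B p ≤ B (p - (a : ℤ)) + 1) ∧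
    (∃ P : ℕ → ℕ, StrictMono P ∧ (∀ j, B ((P j : ℕ) : ℤ) = 0) ∧
      ∀ i : ℕ, ∃ τ j0 : ℕ, ∀ j ≥ j0, τ ≤ P j ∧ i ≤ B ((P j : ℤ) - (τ : ℤ))) := by
  refine ⟨PathAux.B, fun p hp => B_nonpos hp, fun p => B_lip (by omega) (by omega),
    fun p => B_lip (by omega) (by omega), ⟨5, ?_⟩, ?_, ?_⟩
  · intro n
    refine ⟨R n, le_R n, ?_⟩
    intro s hs p
    generalize hr : R n = r at hs ⊢
    calc ∑ T ∈ Finset.range (4 ^ r), 2 ^ (PathAux.B (p - (T : ℤ) - (r : ℤ) - (s : ℤ)))
        ≤ ∑ T ∈ Finset.range (4 ^ r), (2 * 2 ^ PathAux.B p + 1 +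
            ∑ k ∈ Finset.range (n + 1),
              2 ^ k * (if 0 < h k (p - (r : ℤ) - (s : ℤ) - (T : ℤ)) then 1 else 0)) :=
          Finset.sum_le_sum fun T hT =>
            two_pow_B_le n r s T p hr.symm hs (Finset.mem_range.1 hT)
      _ = 4 ^ r * (2 * 2 ^ PathAux.B p + 1) + ∑ k ∈ Finset.range (n + 1), 2 ^ k *
            ((Finset.range (4 ^ r)).filter fun T : ℕ =>
              0 < h k (p - (r : ℤ) - (s : ℤ) - (T : ℤ))).card := by
          rw [Finset.sum_add_distrib, Finset.sum_const, Finset.card_range, smul_eq_mul,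
            Finset.sum_comm]
          congr 1
          apply Finset.sum_congr rfl
          intro k _
          rw [← Finset.mul_sum, Finset.card_filter]
      _ ≤ 4 ^ r * (2 * 2 ^ PathAux.B p + 1) + ∑ k ∈ Finset.range (n + 1), 4 ^ r / 2 ^ k := by
          gcongr with k hk
          rw [Nat.le_div_iff_mul_le (by positivity)]
          have h1 := count k r (by
            rw [← hr]
            exact R_strictMono.monotone (by have := Finset.mem_range.1 hk; omega))
            (p - (r : ℤ) - (s : ℤ))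
          have h2 : (4 : ℕ) ^ k = 2 ^ k * 2 ^ k := by
            rw [← mul_pow]; norm_num
          rw [h2] at h1
          calc _ = 2 ^ k * 2 ^ k * ((Finset.range (4 ^ r)).filter fun T : ℕ =>
              0 < h k (p - (r : ℤ) - (s : ℤ) - (T : ℤ))).card := by ring
            _ ≤ 4 ^ r := h1
      _ ≤ 4 ^ r * (2 * 2 ^ PathAux.B p + 1) + 4 ^ r * 2 := by
          gcongr
          have := Nat.geom_sum_le (le_refl 2) (4 ^ r) (n + 1)
          simpa using this
      _ ≤ 5 * 4 ^ r * 2 ^ PathAux.B p := by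
          have h1 : 1 ≤ 2 ^ PathAux.B p := Nat.one_le_pow _ _ (by norm_num)
          nlinarith [Nat.one_le_pow r 4 (by norm_num)]
  · intro A
    refine ⟨A, fun p hp a ha => ?_⟩
    obtain ⟨k, hk⟩ := exists_B p
    have h1 := h_le k p
    have h2 := le_L k
    have h3 := h_lip (k := k) (p := p) (q := p - a) (by omega) (by omega)
    have h4 := le_B k (p - a)
    omega
  · refine ⟨N, N_strictMono, B_period, fun i => ⟨H i, i, fun j hj => ⟨?_, ?_⟩⟩⟩
    · have h1 := N_strictMono.monotone hj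
      have h2 := N_eq i
      omega
    · exact (h_top hj).trans (le_B _ _)

end Pool.Agent.H27.Kato
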