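import Pool.Agent.H27.Kato.KatoProp
import Pool.Agent.H27.Kato.Path

/-!
# The Orlicz space of an unbounded height path is not 2-disjointly homogeneous
-/

open MeasureTheory Set Filter Topology
open scoped ENNReal NNReal

namespace Pool.Agent.H27.Kato

instance : IsProbabilityMeasure leb01 := ⟨by simp⟩

/-- an interval of `(2^{-(j+1)}, 2^{-j}]` -/
def Eint (m : ℕ → ℝ) (j : ℕ) : Set ℝ := Ioc ((2 : ℝ)⁻¹ ^ (j + 1)) ((2 : ℝ)⁻¹ ^ (j + 1) + m j)

lemma Eint_sub {m : ℕ → ℝ} {j : ℕ} (hm : m j ≤ (2 : ℝ)⁻¹ ^ (j + 1)) :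
    Eint m j ⊆ Ioc ((2 : ℝ)⁻¹ ^ (j + 1)) ((2 : ℝ)⁻¹ ^ j) := by
  apply Ioc_subset_Ioc_right
  rw [pow_succ] at hm ⊢
  linarith

lemma Eint_disj {m : ℕ → ℝ} (hm : ∀ j, m j ≤ (2 : ℝ)⁻¹ ^ (j + 1)) {i j : ℕ} (hij : i ≠ j) :
    Disjoint (Eint m i) (Eint m j) := by
  have key : ∀ i j, i < j → Disjoint (Eint m i) (Eint m j) := by
    intro i j hij
    rw [Set.disjoint_left]
    intro x hx hy
    have h1 := (Eint_sub (hm i) hx).1
    have h2 := (Eint_sub (hm j) hy).2
    have h3 : (2 : ℝ)⁻¹ ^ j ≤ (2 : ℝ)⁻¹ ^ (i + 1) :=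
      pow_le_pow_of_le_one (by norm_num) (by norm_num) hij
    linarith
  rcases lt_or_gt_of_ne hij with h | h
  · exact key i j h
  · exact (key j i h).symm

lemma leb_Eint {m : ℕ → ℝ} {j : ℕ} (hm : m j ≤ (2 : ℝ)⁻¹ ^ (j + 1)) :
    leb01 (Eint m j) = ENNReal.ofReal (m j) := by
  have hsub : Eint m j ⊆ Icc (0 : ℝ) 1 := by
    intro x hx
    have h1 := Eint_sub hm hx
    refine ⟨le_trans (by positivity) h1.1.le, h1.2.trans ?_⟩
    exact pow_le_one₀ (by norm_num) (by norm_num)
  rw [Measure.restrict_apply (by unfold Eint; exact measurableSet_Ioc),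
    inter_eq_self_of_subset_left hsub]
  unfold Eint
  rw [Real.volume_Ioc]
  congr 1
  ring

variable {φ : OrliczFn} {B : ℤ → ℕ}

lemma rho_ind_const {Ω : Type*} [MeasurableSpace Ω] {μ : Measure Ω} {E : Set Ω}
    (hE : MeasurableSet E) {c : ℝ} (hc : 0 ≤ c) :
    rho μ φ (E.indicator (fun _ => c)) = ENNReal.ofReal (φ c) * μ E := by
  rw [rho_indicator hE, abs_of_nonneg hc, setLIntegral_const]

/-- The Orlicz space of the height path contains a normalized disjoint sequence with no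
subsequence satisfying an upper `2`-estimate. -/
lemma Rel.not_upper (h : Rel φ B)
    (hNB : ∃ (P : ℕ → ℕ), StrictMono P ∧ (∀ j, B ((P j : ℕ) : ℤ) = 0) ∧
      ∀ i : ℕ, ∃ τ j0 : ℕ, ∀ j ≥ j0, τ ≤ P j ∧ i ≤ B ((P j : ℤ) - (τ : ℤ))) :
    ∃ z : ℕ → OrliczSpace φ leb01, (∀ n, ‖z n‖ = 1) ∧ PDisj z ∧
      ∀ (σ : ℕ → ℕ), StrictMono σ → ∀ C : ℝ, ∃ (N : ℕ) (a : ℕ → ℝ),
        ∑ i ∈ Finset.range N, a i ^ 2 = 1 ∧ C < ‖∑ i ∈ Finset.range N, a i • z (σ i)‖ := by
  obtain ⟨P, hP, hP0, hPτ⟩ := hNB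
  set Q : ℕ → ℕ := fun j => P (j + 3) with hQ
  have hQj : ∀ j, j + 3 ≤ Q j := fun j => hP.id_le (j + 3)
  have hQ0 : ∀ j, B ((Q j : ℕ) : ℤ) = 0 := fun j => hP0 _
  -- the value of `φ` at powers of two
  have hlog : ∀ k : ℕ, Int.log 2 ((2 : ℝ) ^ k) = (k : ℤ) := by
    intro k
    have := log_two_pow (u := 1) one_pos (k : ℤ)
    rw [mul_one, Int.log_one_right, zero_add] at this
    rw [← this]
    norm_cast
  have hφlow : ∀ k : ℕ, (4 : ℝ) ^ k * 2 ^ (B (k : ℤ)) ≤ 16 * φ (2 ^ k) := by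
    intro k
    have := h.lower (2 ^ k) (by positivity)
    rw [hlog] at this
    have e : ((2 : ℝ) ^ k) ^ 2 = 4 ^ k := by
      rw [← pow_mul, mul_comm, pow_mul]
      norm_num
    rwa [e] at this
  have hφup : ∀ k : ℕ, φ (2 ^ k) ≤ 16 * ((4 : ℝ) ^ k * 2 ^ (B (k : ℤ))) := by
    intro k
    have := h.upper (2 ^ k) (by positivity)
    rw [hlog] at this
    have e : ((2 : ℝ) ^ k) ^ 2 = 4 ^ k := by
      rw [← pow_mul, mul_comm, pow_mul]
      norm_num
    rwa [e] at this
  have hφpos : ∀ k : ℕ, 0 < φ (2 ^ k) := by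
    intro k
    have h1 := hφlow k
    have h2 : (0 : ℝ) < (4 : ℝ) ^ k * 2 ^ (B (k : ℤ)) := by positivity
    linarith
  -- the measures of the supports
  set m : ℕ → ℝ := fun j => (φ (2 ^ Q j))⁻¹ with hm
  have hm0 : ∀ j, 0 < m j := fun j => inv_pos.2 (hφpos _)
  have hm1 : ∀ j, m j ≤ (2 : ℝ)⁻¹ ^ (j + 1) := by
    intro j
    rw [hm]
    simp only
    rw [inv_pow, inv_le_inv₀ (hφpos _) (by positivity)]
    have h1 := hφlow (Q j)
    rw [hQ0, pow_zero, mul_one] at h1
    have h2 : (4 : ℝ) ^ (j + 3) ≤ 4 ^ (Q j) := pow_le_pow_right₀ (by norm_num) (hQj j)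
    have h3 : (4 : ℝ) ^ (j + 3) = 16 * (4 * (2 ^ j * 2 ^ j)) := by
      have : (4 : ℝ) ^ j = 2 ^ j * 2 ^ j := by
        rw [← mul_pow]
        norm_num
      rw [pow_add, this]
      ring
    have h4 : (1 : ℝ) ≤ 2 ^ j := one_le_pow₀ (by norm_num)
    rw [pow_succ]
    nlinarith
  have hEm : ∀ j, MeasurableSet (Eint m j) := fun j => by unfold Eint; exact measurableSet_Ioc
  have hrho : ∀ (j : ℕ) (c : ℝ), 0 ≤ c →
      rho leb01 φ ((Eint m j).indicator (fun _ => c)) = ENNReal.ofReal (φ c * m j) := by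
    intro j c hc
    rw [rho_ind_const (hEm j) hc, leb_Eint (hm1 j), ← ENNReal.ofReal_mul (φ.nonneg hc)]
  have hmeas : ∀ j, AEStronglyMeasurable ((Eint m j).indicator (fun _ => (2 : ℝ) ^ Q j)) leb01 :=
    fun j => (stronglyMeasurable_const.indicator (hEm j)).aestronglyMeasurable
  set z : ℕ → OrliczSpace φ leb01 := fun j => OrliczSpace.mk
    ((Eint m j).indicator (fun _ => (2 : ℝ) ^ Q j)) (hmeas j) (by
      rw [hrho j _ (by positivity)]
      exact ENNReal.ofReal_lt_top) with hz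
  have hzc : ∀ j, ∀ᵐ t ∂leb01, z j t = (Eint m j).indicator (fun _ => (2 : ℝ) ^ Q j) t :=
    fun j => OrliczSpace.coe_mk _ _ _
  have hz1 : ∀ j, rho leb01 φ (z j) = 1 := by
    intro j
    rw [rho_congr (hzc j), hrho j _ (by positivity), hm]
    simp only
    rw [mul_inv_cancel₀ (hφpos _).ne', ENNReal.ofReal_one]
  have hzd : PDisj z := by
    intro i j hij
    filter_upwards [hzc i, hzc j] with t h1 h2
    rw [h1, h2]
    by_cases ht : t ∈ Eint m i
    · right
      exact indicator_of_notMem (Set.disjoint_left.1 (Eint_disj hm1 hij) ht) _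
    · left
      exact indicator_of_notMem ht _
  refine ⟨z, fun j => le_antisymm ?_ ?_, hzd, ?_⟩
  · apply OrliczSpace.norm_le_of_rho_le le_rfl
    rw [hz1, ENNReal.ofReal_one]
  · apply OrliczSpace.le_norm_of_le_rho le_rfl
    rw [hz1, ENNReal.ofReal_one]
  · intro σ hσ C
    obtain ⟨q, hq⟩ := pow_unbounded_of_one_lt C (show (1 : ℝ) < 2 by norm_num)
    obtain ⟨τ, j0, hτ⟩ := hPτ (2 * q + 9)
    have hqτ : q ≤ τ := by
      obtain ⟨h1, h2⟩ := hτ j0 le_rfl
      have h3 := h.height.sub_nat (P j0 : ℤ) τ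
      rw [hP0] at h3
      omega
    set T := τ - q with hT
    have hTq : T + q = τ := by omega
    set a : ℕ → ℝ := fun i => if j0 ≤ i then (2 : ℝ)⁻¹ ^ T else 0 with ha
    refine ⟨j0 + 4 ^ T, a, ?_, ?_⟩
    · rw [Finset.sum_range_add]
      have e1 : ∑ x ∈ Finset.range j0, a x ^ 2 = 0 := by
        apply Finset.sum_eq_zero
        intro i hi
        have : ¬ j0 ≤ i := not_le.2 (Finset.mem_range.1 hi)
        simp [ha, this]
      have e2 : ∀ x ∈ Finset.range (4 ^ T), a (j0 + x) ^ 2 = (4 : ℝ)⁻¹ ^ T := by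
        intro x _
        simp only [ha]
        rw [if_pos (Nat.le_add_right _ _), ← pow_mul, mul_comm, pow_mul]
        norm_num
      rw [e1, Finset.sum_congr rfl e2]
      simp only [Finset.sum_const, Finset.card_range, nsmul_eq_mul, zero_add]
      push_cast
      rw [← mul_pow]
      norm_num
    · by_contra hle
      rw [not_lt] at hle
      set v := ∑ i ∈ Finset.range (j0 + 4 ^ T), a i • z (σ i) with hv
      have h1 : rho leb01 φ (fun t => ((2 : ℝ) ^ q)⁻¹ * v t) ≤ 1 :=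
        OrliczSpace.rho_inv_le_one (hle.trans_lt hq)
      -- compute
      have h2 : rho leb01 φ (fun t => ((2 : ℝ) ^ q)⁻¹ * v t) =
          ∑ i ∈ Finset.range (j0 + 4 ^ T), rho leb01 φ (fun t => (((2 : ℝ) ^ q)⁻¹ * a i) * z (σ i) t) := by
        rw [← OrliczSpace.rho_add_disj (Finset.range (j0 + 4 ^ T))
          (fun i t => (((2 : ℝ) ^ q)⁻¹ * a i) * z (σ i) t)
          (fun i _ => (z (σ i)).aesm.const_mul _)]
        · apply rho_congr
          have h3 : ∀ᵐ t ∂leb01, ∀ i ∈ Finset.range (j0 + 4 ^ T),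
              (a i • z (σ i)) t = a i * z (σ i) t := by
            rw [Filter.eventually_all_finset]
            intro i _
            exact OrliczSpace.coe_smul _ _
          filter_upwards [OrliczSpace.coe_sum (Finset.range (j0 + 4 ^ T))
            (fun i => a i • z (σ i)), h3] with t h4 h5
          rw [hv, h4, Finset.sum_congr rfl h5, Finset.mul_sum]
          exact Finset.sum_congr rfl (fun i _ => by ring)
        · intro i _ j _ hij
          filter_upwards [hzd _ _ (fun h => hij (hσ.injective h))] with t ht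
          rcases ht with h | h
          · left; rw [h, mul_zero]
          · right; rw [h, mul_zero]
      rw [h2, Finset.sum_range_add] at h1
      have h3 : ∑ i ∈ Finset.range (4 ^ T), ENNReal.ofReal (2 * (4 : ℝ)⁻¹ ^ T) ≤
          ∑ i ∈ Finset.range (4 ^ T),
            rho leb01 φ (fun t => (((2 : ℝ) ^ q)⁻¹ * a (j0 + i)) * z (σ (j0 + i)) t) := by
        apply Finset.sum_le_sum
        intro i _
        set j := σ (j0 + i) with hj
        have hjj : j0 ≤ j + 3 := by
          have := hσ.id_le (j0 + i)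
          simp only [id] at this
          omega
        obtain ⟨h4, h5⟩ := hτ (j + 3) hjj
        have h4' : τ ≤ Q j := h4
        have e1 : rho leb01 φ (fun t => (((2 : ℝ) ^ q)⁻¹ * a (j0 + i)) * z j t) =
            ENNReal.ofReal (φ (2 ^ (Q j - τ)) * m j) := by
          rw [← hrho j _ (by positivity)]
          apply rho_congr
          filter_upwards [hzc j] with t ht
          rw [ht]
          by_cases htE : t ∈ Eint m j
          · rw [indicator_of_mem htE, indicator_of_mem htE]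
            simp only [ha]
            rw [if_pos (Nat.le_add_right _ _)]
            have e2 : (2 : ℝ) ^ Q j = 2 ^ (Q j - τ) * (2 ^ T * 2 ^ q) := by
              rw [← pow_add, ← pow_add]
              congr 1
              omega
            rw [e2, inv_pow]
            field_simp
          · rw [indicator_of_notMem htE, indicator_of_notMem htE, mul_zero]
        rw [e1]
        apply ENNReal.ofReal_le_ofReal
        have h6 := hφlow (Q j - τ)
        have h7 := hφup (Q j)
        rw [hQ0, pow_zero, mul_one] at h7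
        have h8 : ((Q j - τ : ℕ) : ℤ) = (P (j + 3) : ℤ) - (τ : ℤ) := by
          rw [Nat.cast_sub h4']
        rw [h8] at h6
        have h9 : (2 : ℝ) ^ (2 * q + 9) ≤ 2 ^ (B ((P (j + 3) : ℤ) - (τ : ℤ))) :=
          pow_le_pow_right₀ (by norm_num) h5
        have h10 : (2 : ℝ) ^ (2 * q + 9) = 512 * 4 ^ q := by
          rw [pow_add, pow_mul]
          norm_num
          ring
        rw [hm]
        simp only
        rw [← div_eq_mul_inv, le_div_iff₀ (hφpos _)]
        have h11 : (4 : ℝ) ^ (Q j) = 4 ^ (Q j - τ) * (4 ^ T * 4 ^ q) := by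
          rw [← pow_add, ← pow_add]
          congr 1
          omega
        have h12 : (4 : ℝ)⁻¹ ^ T * 4 ^ T = 1 := by
          rw [← mul_pow]
          norm_num
        calc 2 * (4 : ℝ)⁻¹ ^ T * φ (2 ^ Q j) ≤ 2 * (4 : ℝ)⁻¹ ^ T * (16 * 4 ^ Q j) :=
              mul_le_mul_of_nonneg_left h7 (by positivity)
          _ = 32 * (4 ^ (Q j - τ) * 4 ^ q) * ((4 : ℝ)⁻¹ ^ T * 4 ^ T) := by
              rw [h11]
              ring
          _ = 1 / 16 * (4 ^ (Q j - τ) * (512 * 4 ^ q)) := by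
              rw [h12]
              ring
          _ ≤ 1 / 16 * (4 ^ (Q j - τ) * 2 ^ (B ((P (j + 3) : ℤ) - (τ : ℤ)))) := by
              rw [← h10]
              gcongr
          _ ≤ φ (2 ^ (Q j - τ)) := by linarith
      have h4 : ∑ i ∈ Finset.range (4 ^ T), ENNReal.ofReal (2 * (4 : ℝ)⁻¹ ^ T) = 2 := by
        simp only [Finset.sum_const, Finset.card_range, nsmul_eq_mul]
        have e1 : (((4 ^ T : ℕ)) : ℝ≥0∞) = ENNReal.ofReal ((4 : ℝ) ^ T) := by
          push_cast
          rw [ENNReal.ofReal_pow (by norm_num)]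
          norm_num
        rw [e1, ← ENNReal.ofReal_mul (by positivity)]
        have e2 : (4 : ℝ) ^ T * (2 * (4 : ℝ)⁻¹ ^ T) = 2 := by
          have : (4 : ℝ)⁻¹ ^ T * 4 ^ T = 1 := by
            rw [← mul_pow]
            norm_num
          linear_combination 2 * this
        rw [e2]
        norm_num
      rw [h4] at h3
      have h5 := (h3.trans le_add_self).trans h1
      exact absurd h5 (by norm_num)

end Pool.Agent.H27.Kato
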