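import Pool.Agent.H27.Kato.Basic

/-!
# The Orlicz function of a height path
-/

open MeasureTheory Set Filter Topology
open scoped ENNReal NNReal

namespace Pool.Agent.H27.Kato

/-- a height path: vanishing for `p ≤ 0`, with increments at most one in absolute value -/
structure IsHeight (B : ℤ → ℕ) : Prop where
  zero : ∀ p ≤ 0, B p = 0
  up : ∀ p, B (p + 1) ≤ B p + 1
  down : ∀ p, B p ≤ B (p + 1) + 1

namespace IsHeight

variable {B : ℤ → ℕ} (hB : IsHeight B)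
include hB

lemma add_nat (p : ℤ) (a : ℕ) : B (p + a) ≤ B p + a := by
  induction a with
  | zero => simp
  | succ n ih =>
    have := hB.up (p + n)
    push_cast
    rw [← add_assoc]
    omega

lemma sub_nat (p : ℤ) (a : ℕ) : B (p - a) ≤ B p + a := by
  induction a with
  | zero => simp
  | succ n ih =>
    have := hB.down (p - n - 1)
    have h2 : p - (n : ℤ) - 1 + 1 = p - n := by ring
    rw [h2] at this
    push_cast
    rw [← sub_sub]
    omega

lemma le_toNat (p : ℤ) : B p ≤ p.toNat := by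
  rcases le_total p 0 with h | h
  · rw [hB.zero p h]
    exact Nat.zero_le _
  · have := hB.add_nat 0 p.toNat
    rw [hB.zero 0 le_rfl, Int.toNat_of_nonneg h] at this
    simpa using this

end IsHeight

/-- the density of the Orlicz function, up to a constant -/
noncomputable def pfun (B : ℤ → ℕ) (t : ℝ) : ℝ :=
  if t ≤ 0 then 0 else (2 : ℝ) ^ (Int.log 2 t) * 2 ^ (B (Int.log 2 t))

section pfun

variable {B : ℤ → ℕ} (hB : IsHeight B)

lemma pfun_nonneg (t : ℝ) : 0 ≤ pfun B t := by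
  unfold pfun
  split_ifs
  · exact le_rfl
  · positivity

lemma pfun_pos {t : ℝ} (ht : 0 < t) : 0 < pfun B t := by
  unfold pfun
  rw [if_neg (not_le.2 ht)]
  positivity

include hB in
lemma qmono : Monotone (fun p : ℤ => (2 : ℝ) ^ p * 2 ^ (B p)) := by
  apply monotone_int_of_le_succ
  intro p
  have h1 : (2 : ℝ) ^ (B p) ≤ 2 * 2 ^ (B (p + 1)) := by
    rw [← pow_succ']
    exact pow_le_pow_right₀ (by norm_num) (hB.down p)
  rw [zpow_add_one₀ (by norm_num)]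
  have h2 : (0 : ℝ) < 2 ^ p := by positivity
  nlinarith

include hB in
lemma pfun_mono : Monotone (pfun B) := by
  intro s t hst
  unfold pfun
  split_ifs with h1 h2 h2
  · exact le_rfl
  · positivity
  · exact absurd (hst.trans h2) h1
  · exact qmono hB (Int.log_mono_right (not_le.1 h1) hst)

include hB in
lemma pfun_int (a b : ℝ) : IntervalIntegrable (pfun B) volume a b :=
  (pfun_mono hB).intervalIntegrable

/-- primitive of `pfun` -/
noncomputable def Pfun (B : ℤ → ℕ) (u : ℝ) : ℝ := ∫ t in (0 : ℝ)..u, pfun B t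

include hB in
lemma Pfun_sub (u v : ℝ) : Pfun B v - Pfun B u = ∫ t in u..v, pfun B t := by
  unfold Pfun
  rw [intervalIntegral.integral_interval_sub_left (pfun_int hB _ _) (pfun_int hB _ _)]

include hB in
lemma Pfun_lower {u v : ℝ} (huv : u ≤ v) : (v - u) * pfun B u ≤ Pfun B v - Pfun B u := by
  rw [Pfun_sub hB]
  have h := intervalIntegral.integral_mono_on huv (f := fun _ => pfun B u) (g := pfun B)
    (by simp) (pfun_int hB _ _) (fun x hx => pfun_mono hB hx.1)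
  simpa using h

include hB in
lemma Pfun_upper {u v : ℝ} (huv : u ≤ v) : Pfun B v - Pfun B u ≤ (v - u) * pfun B v := by
  rw [Pfun_sub hB]
  have h := intervalIntegral.integral_mono_on huv (g := fun _ => pfun B v) (f := pfun B)
    (pfun_int hB _ _) (by simp) (fun x hx => pfun_mono hB hx.2)
  simpa using h

lemma Pfun_zero : Pfun B 0 = 0 := by simp [Pfun]

include hB in
lemma Pfun_convex : ConvexOn ℝ univ (Pfun B) := by
  apply convexOn_of_slope_mono_adjacent convex_univ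
  intro x y z _ _ hxy hyz
  rw [div_le_div_iff₀ (by linarith) (by linarith)]
  have h1 := Pfun_upper hB hxy.le
  have h2 := Pfun_lower hB hyz.le
  nlinarith [mul_le_mul_of_nonneg_right h1 (show 0 ≤ z - y by linarith),
    mul_le_mul_of_nonneg_right h2 (show 0 ≤ y - x by linarith)]

include hB in
lemma Pfun_mono : Monotone (Pfun B) := by
  intro x y hxy
  have := Pfun_lower hB hxy
  nlinarith [pfun_nonneg (B := B) x]

include hB in
lemma Pfun_cont : Continuous (Pfun B) := by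
  have := (Pfun_convex hB).continuousOn isOpen_univ
  exact continuousOn_univ.1 this

lemma zlog_le {u : ℝ} (hu : 0 < u) : (2 : ℝ) ^ (Int.log 2 u) ≤ u := by
  have := Int.zpow_log_le_self (b := 2) (by norm_num) hu
  simpa using this

lemma lt_zlog {u : ℝ} : u < 2 * (2 : ℝ) ^ (Int.log 2 u) := by
  have := Int.lt_zpow_succ_log_self (b := 2) (by norm_num) u
  rw [← zpow_one_add₀ (by norm_num)]
  rw [add_comm]
  exact_mod_cast this

lemma log_two_pow {u : ℝ} (hu : 0 < u) (a : ℤ) : Int.log 2 ((2 : ℝ) ^ a * u) = Int.log 2 u + a := by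
  have h0 : 0 < (2 : ℝ) ^ a * u := by positivity
  apply le_antisymm
  · rw [← Int.lt_add_one_iff, ← Int.lt_zpow_iff_log_lt (by norm_num) h0]
    have := lt_zlog (u := u)
    have h2 : ((2 : ℕ) : ℝ) ^ (Int.log 2 u + a + 1) = (2 : ℝ) ^ a * (2 * 2 ^ Int.log 2 u) := by
      push_cast
      rw [zpow_add₀ (by norm_num), zpow_add₀ (by norm_num)]
      ring
    rw [h2]
    exact mul_lt_mul_of_pos_left this (by positivity)
  · rw [← Int.zpow_le_iff_le_log (by norm_num) h0]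
    have h2 : ((2 : ℕ) : ℝ) ^ (Int.log 2 u + a) = (2 : ℝ) ^ a * (2 ^ Int.log 2 u) := by
      push_cast
      rw [zpow_add₀ (by norm_num)]
      ring
    rw [h2]
    exact mul_le_mul_of_nonneg_left (zlog_le hu) (by positivity)

lemma pfun_le {u : ℝ} (hu : 0 < u) : pfun B u ≤ u * 2 ^ (B (Int.log 2 u)) := by
  unfold pfun
  rw [if_neg (not_le.2 hu)]
  exact mul_le_mul_of_nonneg_right (zlog_le hu) (by positivity)

include hB in
lemma le_pfun_half {u : ℝ} (hu : 0 < u) : u * 2 ^ (B (Int.log 2 u)) ≤ 8 * pfun B (u / 2) := by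
  unfold pfun
  rw [if_neg (by linarith)]
  have h1 : Int.log 2 (u / 2) = Int.log 2 u - 1 := by
    have := log_two_pow hu (-1)
    rw [zpow_neg_one] at this
    rw [show u / 2 = 2⁻¹ * u by ring, this]
    ring
  rw [h1, zpow_sub_one₀ (by norm_num)]
  have h2 := hB.up (Int.log 2 u - 1)
  rw [sub_add_cancel] at h2
  have h3 : (2 : ℝ) ^ (B (Int.log 2 u)) ≤ 2 * 2 ^ (B (Int.log 2 u - 1)) := by
    rw [← pow_succ']
    exact pow_le_pow_right₀ (by norm_num) h2
  have h4 := lt_zlog (u := u)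
  have h5 : (0 : ℝ) < 2 ^ (B (Int.log 2 u - 1)) := by positivity
  have h6 : (0 : ℝ) < 2 ^ (B (Int.log 2 u)) := by positivity
  calc u * 2 ^ (B (Int.log 2 u)) ≤ (2 * 2 ^ (Int.log 2 u)) * (2 * 2 ^ (B (Int.log 2 u - 1))) := by
        apply mul_le_mul h4.le h3 h6.le (by positivity)
    _ = 8 * (2 ^ Int.log 2 u * 2⁻¹ * 2 ^ (B (Int.log 2 u - 1))) := by ring

include hB in
lemma Pfun_le {u : ℝ} (hu : 0 < u) : Pfun B u ≤ u ^ 2 * 2 ^ (B (Int.log 2 u)) := by
  have h1 := Pfun_upper hB hu.le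
  rw [Pfun_zero, sub_zero, sub_zero] at h1
  have h2 := mul_le_mul_of_nonneg_left (pfun_le (B := B) hu) hu.le
  calc Pfun B u ≤ _ := h1
    _ ≤ _ := h2
    _ = _ := by ring

include hB in
lemma le_Pfun {u : ℝ} (hu : 0 < u) : u ^ 2 * 2 ^ (B (Int.log 2 u)) ≤ 16 * Pfun B u := by
  have h1 := Pfun_lower hB (show u / 2 ≤ u by linarith)
  have h3 : 0 ≤ Pfun B (u / 2) := by
    have := Pfun_mono hB (show (0 : ℝ) ≤ u / 2 by linarith)
    rwa [Pfun_zero] at this
  have h2 := mul_le_mul_of_nonneg_left (le_pfun_half hB hu) hu.le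
  nlinarith

include hB in
lemma Pfun_one : 1 ≤ 16 * Pfun B 1 ∧ Pfun B 1 ≤ 1 := by
  have h1 := le_Pfun hB one_pos
  have h2 := Pfun_le hB one_pos
  have h3 : Int.log 2 (1 : ℝ) = 0 := Int.log_one_right 2
  rw [h3, hB.zero 0 le_rfl] at h1 h2
  norm_num at h1 h2
  exact ⟨h1, h2⟩

end pfun

/-- The Orlicz function of a height path, normalized by `φ 1 = 1`. -/
noncomputable def phi (B : ℤ → ℕ) (hB : IsHeight B) : OrliczFn where
  toFun := fun u => (Pfun B 1)⁻¹ * Pfun B u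
  convex' := by
    have h := (Pfun_convex hB).subset (subset_univ (Ici (0 : ℝ))) (convex_Ici 0)
    have h0 : 0 ≤ (Pfun B 1)⁻¹ := by
      have := (Pfun_one hB).1
      exact inv_nonneg.2 (by linarith)
    simpa [smul_eq_mul] using h.smul h0
  mono' := by
    have h0 : 0 ≤ (Pfun B 1)⁻¹ := by
      have := (Pfun_one hB).1
      exact inv_nonneg.2 (by linarith)
    intro x _ y _ hxy
    exact mul_le_mul_of_nonneg_left (Pfun_mono hB hxy) h0
  cont' := (continuous_const.mul (Pfun_cont hB)).continuousOn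
  zero' := by simp [Pfun_zero]
  nonzero' := ⟨1, zero_le_one, by
    have h0 : 0 < Pfun B 1 := by
      have := (Pfun_one hB).1
      linarith
    rw [inv_mul_cancel₀ h0.ne']
    exact one_ne_zero⟩

/-- The relation between the Orlicz function and the height path which is all we use. -/
structure Rel (φ : OrliczFn) (B : ℤ → ℕ) : Prop where
  height : IsHeight B
  lower : ∀ u : ℝ, 0 < u → u ^ 2 * 2 ^ (B (Int.log 2 u)) ≤ 16 * φ u
  upper : ∀ u : ℝ, 0 < u → φ u ≤ 16 * (u ^ 2 * 2 ^ (B (Int.log 2 u)))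
  one : φ 1 = 1

lemma rel_phi (B : ℤ → ℕ) (hB : IsHeight B) : Rel (phi B hB) B := by
  obtain ⟨h1, h2⟩ := Pfun_one hB
  have h0 : 0 < Pfun B 1 := by linarith
  refine ⟨hB, ?_, ?_, ?_⟩
  · intro u hu
    show _ ≤ 16 * ((Pfun B 1)⁻¹ * Pfun B u)
    have h3 := le_Pfun hB hu
    have h4 : 1 ≤ (Pfun B 1)⁻¹ := (one_le_inv₀ h0).2 h2
    have h5 : 0 ≤ Pfun B u := by
      have := Pfun_mono hB hu.le
      rwa [Pfun_zero] at this
    nlinarith
  · intro u hu
    show (Pfun B 1)⁻¹ * Pfun B u ≤ _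
    have h3 := Pfun_le hB hu
    have h4 : (Pfun B 1)⁻¹ ≤ 16 := by
      rw [inv_le_comm₀ h0 (by norm_num)]
      linarith
    have h5 : 0 ≤ Pfun B u := by
      have := Pfun_mono hB hu.le
      rwa [Pfun_zero] at this
    calc (Pfun B 1)⁻¹ * Pfun B u ≤ 16 * Pfun B u := mul_le_mul_of_nonneg_right h4 h5
      _ ≤ _ := mul_le_mul_of_nonneg_left h3 (by norm_num)
  · show (Pfun B 1)⁻¹ * Pfun B 1 = 1
    exact inv_mul_cancel₀ h0.ne'

namespace Rel

variable {φ : OrliczFn} {B : ℤ → ℕ} (h : Rel φ B)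
include h

/-- scaling, upper estimate -/
lemma scale_upper {u : ℝ} (hu : 0 ≤ u) (a : ℕ) :
    2 ^ (B (Int.log 2 u)) * φ ((2 : ℝ)⁻¹ ^ a * u) ≤
      256 * ((4 : ℝ)⁻¹ ^ a * 2 ^ (B (Int.log 2 u - a)) * φ u) := by
  rcases hu.eq_or_lt with rfl | hu
  · simp [φ.zero']
  have e1 : (2 : ℝ)⁻¹ ^ a = (2 : ℝ) ^ (-(a : ℤ)) := by
    rw [zpow_neg, zpow_natCast, inv_pow]
  have h1 := h.upper ((2 : ℝ)⁻¹ ^ a * u) (by positivity)
  rw [e1, log_two_pow hu, ← sub_eq_add_neg, ← e1] at h1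
  have h2 := h.lower u hu
  have e2 : ((2 : ℝ)⁻¹ ^ a * u) ^ 2 = (4 : ℝ)⁻¹ ^ a * u ^ 2 := by
    rw [mul_pow, ← pow_mul, mul_comm a 2, pow_mul]
    norm_num
  rw [e2] at h1
  have h3 : (0 : ℝ) < 2 ^ (B (Int.log 2 u)) := by positivity
  have h4 : (0 : ℝ) < 4⁻¹ ^ a * 2 ^ (B (Int.log 2 u - a)) := by positivity
  calc 2 ^ (B (Int.log 2 u)) * φ ((2 : ℝ)⁻¹ ^ a * u)
      ≤ 2 ^ (B (Int.log 2 u)) * (16 * (4⁻¹ ^ a * u ^ 2 * 2 ^ (B (Int.log 2 u - a)))) :=
        mul_le_mul_of_nonneg_left h1 h3.le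
    _ = 16 * (4⁻¹ ^ a * 2 ^ (B (Int.log 2 u - a))) * (u ^ 2 * 2 ^ (B (Int.log 2 u))) := by ring
    _ ≤ 16 * (4⁻¹ ^ a * 2 ^ (B (Int.log 2 u - a))) * (16 * φ u) :=
        mul_le_mul_of_nonneg_left h2 (by positivity)
    _ = _ := by ring

/-- scaling, lower estimate -/
lemma scale_lower {u : ℝ} (hu : 0 ≤ u) (a : ℕ) :
    (4 : ℝ)⁻¹ ^ a * 2 ^ (B (Int.log 2 u - a)) * φ u ≤
      256 * (2 ^ (B (Int.log 2 u)) * φ ((2 : ℝ)⁻¹ ^ a * u)) := by
  rcases hu.eq_or_lt with rfl | hu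
  · simp [φ.zero']
  have e1 : (2 : ℝ)⁻¹ ^ a = (2 : ℝ) ^ (-(a : ℤ)) := by
    rw [zpow_neg, zpow_natCast, inv_pow]
  have h1 := h.lower ((2 : ℝ)⁻¹ ^ a * u) (by positivity)
  rw [e1, log_two_pow hu, ← sub_eq_add_neg, ← e1] at h1
  have h2 := h.upper u hu
  have e2 : ((2 : ℝ)⁻¹ ^ a * u) ^ 2 = (4 : ℝ)⁻¹ ^ a * u ^ 2 := by
    rw [mul_pow, ← pow_mul, mul_comm a 2, pow_mul]
    norm_num
  rw [e2] at h1
  have h3 : (0 : ℝ) < 2 ^ (B (Int.log 2 u)) := by positivity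
  have h4 : (0 : ℝ) < 4⁻¹ ^ a * 2 ^ (B (Int.log 2 u - a)) := by positivity
  calc 4⁻¹ ^ a * 2 ^ (B (Int.log 2 u - a)) * φ u
      ≤ 4⁻¹ ^ a * 2 ^ (B (Int.log 2 u - a)) * (16 * (u ^ 2 * 2 ^ (B (Int.log 2 u)))) :=
        mul_le_mul_of_nonneg_left h2 h4.le
    _ = 16 * 2 ^ (B (Int.log 2 u)) * (4⁻¹ ^ a * u ^ 2 * 2 ^ (B (Int.log 2 u - a))) := by ring
    _ ≤ 16 * 2 ^ (B (Int.log 2 u)) * (16 * φ ((2 : ℝ)⁻¹ ^ a * u)) :=
        mul_le_mul_of_nonneg_left h1 (by positivity)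
    _ = _ := by ring

/-- doubling -/
lemma double {u : ℝ} (hu : 0 ≤ u) : φ (2 * u) ≤ 2048 * φ u := by
  rcases hu.eq_or_lt with rfl | hu
  · simp [φ.zero']
  have h1 := h.upper (2 * u) (by positivity)
  have e1 : Int.log 2 (2 * u) = Int.log 2 u + 1 := by
    have := log_two_pow hu 1
    rwa [zpow_one] at this
  rw [e1] at h1
  have h2 := h.lower u hu
  have h3 : (2 : ℝ) ^ (B (Int.log 2 u + 1)) ≤ 2 * 2 ^ (B (Int.log 2 u)) := by
    rw [← pow_succ']
    exact pow_le_pow_right₀ (by norm_num) (h.height.up _)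
  calc φ (2 * u) ≤ _ := h1
    _ = 64 * u ^ 2 * 2 ^ (B (Int.log 2 u + 1)) := by ring
    _ ≤ 64 * u ^ 2 * (2 * 2 ^ (B (Int.log 2 u))) := mul_le_mul_of_nonneg_left h3 (by positivity)
    _ = 128 * (u ^ 2 * 2 ^ (B (Int.log 2 u))) := by ring
    _ ≤ 128 * (16 * φ u) := mul_le_mul_of_nonneg_left h2 (by norm_num)
    _ = _ := by ring

lemma double_pow {u : ℝ} (hu : 0 ≤ u) (q : ℕ) : φ (2 ^ q * u) ≤ 2048 ^ q * φ u := by
  induction q with
  | zero => simp
  | succ n ih =>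
    have := h.double (u := 2 ^ n * u) (by positivity)
    rw [pow_succ', mul_assoc]
    calc _ ≤ 2048 * φ (2 ^ n * u) := this
      _ ≤ 2048 * (2048 ^ n * φ u) := mul_le_mul_of_nonneg_left ih (by norm_num)
      _ = _ := by ring

lemma sq_le {u : ℝ} (hu : 0 ≤ u) : u ^ 2 ≤ 16 * φ u := by
  rcases hu.eq_or_lt with rfl | hu
  · simp [φ.zero']
  have h2 := h.lower u hu
  have h3 : (1 : ℝ) ≤ 2 ^ (B (Int.log 2 u)) := one_le_pow₀ (by norm_num)
  nlinarith [sq_nonneg u]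

lemma le_sq {u M : ℝ} (hu : 0 ≤ u) (hM : 1 ≤ M) (huM : u ≤ M) : φ u ≤ 16 * M * u ^ 2 := by
  rcases hu.eq_or_lt with rfl | hu
  · simp [φ.zero']
  have h1 := h.upper u hu
  have h3 : (2 : ℝ) ^ (B (Int.log 2 u)) ≤ M := by
    have h4 := h.height.le_toNat (Int.log 2 u)
    refine (pow_le_pow_right₀ (by norm_num) h4).trans ?_
    rcases le_total (Int.log 2 u) 0 with h5 | h5
    · rw [Int.toNat_of_nonpos h5]
      simpa using hM
    · have h6 := zlog_le hu
      have h7 : (2 : ℝ) ^ (Int.log 2 u) = 2 ^ (Int.log 2 u).toNat := by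
        rw [← zpow_natCast, Int.toNat_of_nonneg h5]
      rw [← h7]
      exact h6.trans huM
  calc φ u ≤ 16 * (u ^ 2 * 2 ^ (B (Int.log 2 u))) := h1
    _ ≤ 16 * (u ^ 2 * M) := by gcongr
    _ = _ := by ring

lemma le_fourth {u : ℝ} (hu : 0 ≤ u) : φ u ≤ 16 * (1 + u ^ 4) := by
  rcases le_total u 1 with h1 | h1
  · have h2 := h.le_sq hu le_rfl h1
    nlinarith [sq_nonneg u, pow_nonneg hu 4, mul_nonneg hu hu]
  · have h2 := h.le_sq hu h1 le_rfl
    have h3 : u ^ 3 ≤ u ^ 4 := pow_le_pow_right₀ h1 (by norm_num)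
    nlinarith

end Rel

end Pool.Agent.H27.Kato
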