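import Pool.Agent.H27.Kato.NotDH

/-!
# Orlicz spaces on `[0, 1]` are rearrangement invariant
-/

open MeasureTheory Set Filter Topology
open scoped ENNReal NNReal

namespace Pool.Agent.H27.Kato

lemma map_rho {φ : OrliczFn} {μ : Measure ℝ} (g f : ℝ →ₘ[μ] ℝ)
    (h : Measure.map (fun t => |g t|) μ = Measure.map (fun t => |f t|) μ) (s : ℝ) :
    rho μ φ (fun x => s * g x) = rho μ φ (fun x => s * f x) := by
  have key : ∀ k : ℝ →ₘ[μ] ℝ, rho μ φ (fun x => s * k x) =
      ∫⁻ v, ENNReal.ofReal (φ |s * v|) ∂(Measure.map (fun t => |k t|) μ) := by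
    intro k
    rw [lintegral_map]
    · unfold rho
      congr 1
      ext x
      rw [abs_mul, abs_mul, abs_abs]
    · apply Measurable.ennreal_ofReal
      exact (φ.continuous_abs.measurable).comp (measurable_const.mul measurable_id)
    · exact measurable_norm.comp (AEEqFun.measurable k)
  rw [key g, key f, h]

/-- Orlicz spaces on `[0, 1]` with `φ 1 = 1` are rearrangement invariant spaces. -/
theorem isRISpace_orlicz (φ : OrliczFn) (h1 : φ 1 = 1) :
    IsRISpace (OrliczSpace φ leb01) (orliczIncl φ leb01) where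
  complete := inferInstance
  injective := OrliczSpace.toAE_injective
  ideal := by
    intro f g hg
    refine ⟨OrliczSpace.ofLe g g.aestronglyMeasurable f hg, ?_, ?_⟩
    · apply AEEqFun.ext
      exact OrliczSpace.coe_ofLe g g.aestronglyMeasurable f hg
    · apply OrliczSpace.norm_mono
      filter_upwards [OrliczSpace.coe_ofLe g g.aestronglyMeasurable f hg, hg] with t h2 h3
      rw [h2]
      exact h3
  rearrangement := by
    intro f g hg
    have key := fun s : ℝ => map_rho (φ := φ) g f.toAE hg s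
    obtain ⟨s, hs⟩ := OrliczSpace.nset_nonempty f
    have hmem : ∃ s : ℝ, 0 < s ∧ ∫⁻ x, ENNReal.ofReal (φ (|g x| / s)) ∂leb01 < ∞ := by
      refine ⟨s, hs.1, ?_⟩
      rw [OrliczSpace.lint_eq_rho _ hs.1, key]
      exact hs.2.trans_lt ENNReal.one_lt_top
    obtain ⟨g', hg'⟩ : ∃ g' : OrliczSpace φ leb01, g'.toAE = g := ⟨⟨g, hmem⟩, rfl⟩
    refine ⟨g', hg', ?_⟩
    rw [OrliczSpace.norm_eq, OrliczSpace.norm_eq, OrliczSpace.norm_def, OrliczSpace.norm_def]
    congr 1
    ext s
    constructor
    · rintro ⟨h2, h3⟩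
      refine ⟨h2, ?_⟩
      rw [hg', key] at h3
      exact h3
    · rintro ⟨h2, h3⟩
      refine ⟨h2, ?_⟩
      rw [hg', key]
      exact h3
  fatou := by
    intro f g C hC hlim
    obtain ⟨g', hg1, hg2⟩ := OrliczSpace.fatou (f := f) g.aestronglyMeasurable hlim
      (Eventually.of_forall hC)
    exact ⟨g', AEEqFun.ext hg1, hg2⟩
  bounded := by
    intro g hg
    have h2 : rho leb01 φ g ≤ 1 := by
      calc rho leb01 φ g ≤ rho leb01 φ (fun _ => (1 : ℝ)) := by
            apply rho_mono
            filter_upwards [hg] with t ht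
            rwa [abs_one]
        _ = 1 := by
            unfold rho
            simp [h1]
    refine ⟨OrliczSpace.mk g g.aestronglyMeasurable (h2.trans_lt ENNReal.one_lt_top), ?_, ?_⟩
    · apply AEEqFun.ext
      exact OrliczSpace.coe_mk g g.aestronglyMeasurable (h2.trans_lt ENNReal.one_lt_top)
    · apply OrliczSpace.norm_le_of_rho_le le_rfl
      rw [rho_congr (OrliczSpace.coe_mk _ _ _), ENNReal.ofReal_one]
      exact h2
  integrable := by
    intro f
    -- `v ≤ φ v` for `v ≥ 1`
    have hφ : ∀ v : ℝ, 1 < v → 1 < φ v := by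
      intro v hv
      have h2 := φ.map_mul_le (u := v) (t := v⁻¹) (by linarith) (by positivity)
        (inv_le_one_of_one_le₀ hv.le)
      rw [inv_mul_cancel₀ (by positivity), h1, inv_mul_eq_div, le_div_iff₀ (by positivity)] at h2
      linarith
    obtain ⟨K, hK, hKf⟩ := OrliczSpace.lintegral_le (φ := φ) (μ := leb01)
    have hint : Integrable (fun t => |f t|) leb01 := by
      refine ⟨f.aesm.norm, ?_⟩
      rw [hasFiniteIntegral_iff_ofReal (Eventually.of_forall (fun _ => abs_nonneg _))]
      exact (hKf f).trans_lt (ENNReal.mul_lt_top hK.lt_top ENNReal.ofReal_lt_top)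
    have key : ∀ s : ℝ, ‖f‖ < s → ∫ t, |f t| ∂leb01 ≤ s := by
      intro s hs
      have hs0 : 0 < s := lt_of_le_of_lt (norm_nonneg f) hs
      have h2 := OrliczSpace.rho_inv_le_one hs
      have h3 : Integrable (fun t => φ |s⁻¹ * f t|) leb01 := by
        refine ⟨(φ.continuous_abs.comp_aestronglyMeasurable (f.aesm.const_mul _)), ?_⟩
        rw [hasFiniteIntegral_iff_ofReal (Eventually.of_forall (fun _ => φ.nonneg (abs_nonneg _)))]
        exact h2.trans_lt ENNReal.one_lt_top
      have h4 : ∫ t, φ |s⁻¹ * f t| ∂leb01 ≤ 1 := by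
        have h5 := ofReal_integral_eq_lintegral_ofReal h3
          (Eventually.of_forall (fun _ => φ.nonneg (abs_nonneg _)))
        have h6 : ENNReal.ofReal (∫ t, φ |s⁻¹ * f t| ∂leb01) ≤ ENNReal.ofReal 1 := by
          rw [h5, ENNReal.ofReal_one]
          exact h2
        rwa [ENNReal.ofReal_le_ofReal_iff zero_le_one] at h6
      have h5 : Integrable (fun t => |s⁻¹ * f t|) leb01 := by
        refine (hint.const_mul s⁻¹).congr (Eventually.of_forall (fun t => ?_))
        show s⁻¹ * |f t| = |s⁻¹ * f t|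
        rw [abs_mul, abs_of_pos (inv_pos.2 hs0)]
      have h6 := φ.convex'.map_integral_le (μ := leb01) (f := fun t => |s⁻¹ * f t|) φ.cont'
        isClosed_Ici (Eventually.of_forall (fun t => mem_Ici.2 (abs_nonneg _))) h5 h3
      have h7 : ∫ t, |s⁻¹ * f t| ∂leb01 ≤ 1 := by
        by_contra hlt
        rw [not_le] at hlt
        have := hφ _ hlt
        linarith
      have h8 : ∫ t, |s⁻¹ * f t| ∂leb01 = s⁻¹ * ∫ t, |f t| ∂leb01 := by
        rw [← integral_const_mul]
        congr 1
        ext t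
        rw [abs_mul, abs_of_pos (inv_pos.2 hs0)]
      rw [h8, inv_mul_le_iff₀ hs0, mul_one] at h7
      exact h7
    have h9 : ∫ t, |f t| ∂leb01 ≤ ‖f‖ := le_of_forall_gt_imp_ge_of_dense (fun s hs => key s hs)
    show ∫⁻ t, ENNReal.ofReal |f t| ∂leb01 ≤ ENNReal.ofReal ‖f‖
    rw [← ofReal_integral_eq_lintegral_ofReal hint (Eventually.of_forall (fun _ => abs_nonneg _))]
    exact ENNReal.ofReal_le_ofReal h9

end Pool.Agent.H27.Kato
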