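import Mathlib

/-!
# Orlicz spaces with the Luxemburg norm
-/

open MeasureTheory Set Filter Topology
open scoped ENNReal NNReal

namespace Pool.Agent.H27.Kato

/-- An Orlicz function: convex, nondecreasing and continuous on `[0, ∞)`, zero at `0`,
not identically zero there. -/
structure OrliczFn where
  toFun : ℝ → ℝ
  convex' : ConvexOn ℝ (Ici 0) toFun
  mono' : MonotoneOn toFun (Ici 0)
  cont' : ContinuousOn toFun (Ici 0)
  zero' : toFun 0 = 0
  nonzero' : ∃ u, 0 ≤ u ∧ toFun u ≠ 0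

instance : CoeFun OrliczFn (fun _ => ℝ → ℝ) := ⟨OrliczFn.toFun⟩

namespace OrliczFn

variable (φ : OrliczFn)

lemma nonneg {u : ℝ} (hu : 0 ≤ u) : 0 ≤ φ u := by
  have := φ.mono' (mem_Ici.2 le_rfl) (mem_Ici.2 hu) hu
  rwa [φ.zero'] at this

lemma mono {u v : ℝ} (hu : 0 ≤ u) (huv : u ≤ v) : φ u ≤ φ v :=
  φ.mono' (mem_Ici.2 hu) (mem_Ici.2 (hu.trans huv)) huv

lemma map_add_le {u v a b : ℝ} (hu : 0 ≤ u) (hv : 0 ≤ v) (ha : 0 ≤ a) (hb : 0 ≤ b)
    (hab : a + b = 1) : φ (a * u + b * v) ≤ a * φ u + b * φ v := by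
  have := φ.convex'.2 (mem_Ici.2 hu) (mem_Ici.2 hv) ha hb hab
  simpa [smul_eq_mul] using this

lemma map_mul_le {u t : ℝ} (hu : 0 ≤ u) (ht : 0 ≤ t) (ht1 : t ≤ 1) : φ (t * u) ≤ t * φ u := by
  have := φ.map_add_le hu (le_refl (0 : ℝ)) ht (sub_nonneg.2 ht1) (by ring)
  simpa [φ.zero'] using this

lemma exists_pos : ∃ u, 0 < u ∧ 0 < φ u := by
  obtain ⟨u, hu, h⟩ := φ.nonzero'
  have h1 : 0 < φ u := lt_of_le_of_ne (φ.nonneg hu) (Ne.symm h)
  refine ⟨u, lt_of_le_of_ne hu ?_, h1⟩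
  rintro rfl
  exact h φ.zero'

/-- `φ (|t|)` is a continuous function of `t : ℝ`. -/
lemma continuous_abs : Continuous (fun t : ℝ => φ |t|) := by
  have h := φ.cont'
  have := h.comp_continuous (f := fun t : ℝ => |t|) _root_.continuous_abs (fun t => abs_nonneg t)
  exact this

end OrliczFn

section rho

variable {Ω : Type*} [MeasurableSpace Ω] (μ : Measure Ω) (φ : OrliczFn)

/-- The modular `∫ φ(|g|) dμ`. -/
noncomputable def rho (g : Ω → ℝ) : ℝ≥0∞ := ∫⁻ x, ENNReal.ofReal (φ |g x|) ∂μ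

variable {μ φ}

lemma rho_congr {g h : Ω → ℝ} (e : g =ᵐ[μ] h) : rho μ φ g = rho μ φ h := by
  apply lintegral_congr_ae
  filter_upwards [e] with x hx
  rw [hx]

lemma rho_mono {g h : Ω → ℝ} (e : ∀ᵐ x ∂μ, |g x| ≤ |h x|) : rho μ φ g ≤ rho μ φ h := by
  apply lintegral_mono_ae
  filter_upwards [e] with x hx
  exact ENNReal.ofReal_le_ofReal (φ.mono (abs_nonneg _) hx)

@[simp] lemma rho_zero : rho μ φ (fun _ => (0 : ℝ)) = 0 := by
  simp [rho, φ.zero']

lemma aemeas_rho {g : Ω → ℝ} (hg : AEStronglyMeasurable g μ) :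
    AEMeasurable (fun x => ENNReal.ofReal (φ |g x|)) μ :=
  (φ.continuous_abs.measurable.comp_aemeasurable hg.aemeasurable).ennreal_ofReal

lemma rho_mul_le {g : Ω → ℝ} {t : ℝ} (ht : 0 ≤ t) (ht1 : t ≤ 1) :
    rho μ φ (fun x => t * g x) ≤ ENNReal.ofReal t * rho μ φ g := by
  unfold rho
  rw [← lintegral_const_mul' _ _ ENNReal.ofReal_ne_top]
  apply lintegral_mono
  intro x
  show ENNReal.ofReal (φ |t * g x|) ≤ ENNReal.ofReal t * ENNReal.ofReal (φ |g x|)
  rw [← ENNReal.ofReal_mul ht, abs_mul, abs_of_nonneg ht]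
  exact ENNReal.ofReal_le_ofReal (φ.map_mul_le (abs_nonneg _) ht ht1)

lemma rho_add_le {g h : Ω → ℝ} (hg : AEStronglyMeasurable g μ) {a b : ℝ} (ha : 0 ≤ a)
    (hb : 0 ≤ b) (hab : a + b = 1) :
    rho μ φ (fun x => a * g x + b * h x) ≤
      ENNReal.ofReal a * rho μ φ g + ENNReal.ofReal b * rho μ φ h := by
  unfold rho
  rw [← lintegral_const_mul' _ _ ENNReal.ofReal_ne_top,
    ← lintegral_const_mul' _ _ ENNReal.ofReal_ne_top,
    ← lintegral_add_left' ((aemeas_rho hg).const_mul _)]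
  apply lintegral_mono
  intro x
  show ENNReal.ofReal (φ |a * g x + b * h x|) ≤
    ENNReal.ofReal a * ENNReal.ofReal (φ |g x|) + ENNReal.ofReal b * ENNReal.ofReal (φ |h x|)
  rw [← ENNReal.ofReal_mul ha, ← ENNReal.ofReal_mul hb, ← ENNReal.ofReal_add
    (mul_nonneg ha (φ.nonneg (abs_nonneg _))) (mul_nonneg hb (φ.nonneg (abs_nonneg _)))]
  apply ENNReal.ofReal_le_ofReal
  have h1 : |a * g x + b * h x| ≤ a * |g x| + b * |h x| := by
    refine (abs_add_le _ _).trans ?_
    rw [abs_mul, abs_mul, abs_of_nonneg ha, abs_of_nonneg hb]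
  exact (φ.mono (abs_nonneg _) h1).trans
    (φ.map_add_le (abs_nonneg _) (abs_nonneg _) ha hb hab)

/-- Fatou property of the modular. -/
lemma rho_fatou {g : ℕ → Ω → ℝ} {f : Ω → ℝ} (hg : ∀ n, AEStronglyMeasurable (g n) μ)
    (h : ∀ᵐ x ∂μ, Tendsto (fun n => g n x) atTop (𝓝 (f x))) {C : ℝ≥0∞}
    (hC : ∀ᶠ n in atTop, rho μ φ (g n) ≤ C) : rho μ φ f ≤ C := by
  have h1 : rho μ φ f ≤ liminf (fun n => rho μ φ (g n)) atTop := by
    calc rho μ φ f = ∫⁻ x, liminf (fun n => ENNReal.ofReal (φ |g n x|)) atTop ∂μ := by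
          apply lintegral_congr_ae
          filter_upwards [h] with x hx
          have h2 : Tendsto (fun n => ENNReal.ofReal (φ |g n x|)) atTop
              (𝓝 (ENNReal.ofReal (φ |f x|))) :=
            ENNReal.tendsto_ofReal ((φ.continuous_abs.tendsto _).comp hx)
          exact h2.liminf_eq.symm
      _ ≤ _ := lintegral_liminf_le' (fun n => aemeas_rho (hg n))
  refine h1.trans ?_
  exact (liminf_le_limsup).trans (limsup_le_of_le (by isBoundedDefault) hC)

end rho

section space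

variable {Ω : Type*} [MeasurableSpace Ω]

/-- The Orlicz space `L_φ(μ)`, as a linear subspace of the space of classes of measurable
functions: the classes `f` with `∫ φ(|f| / s) dμ < ∞` for some `s > 0`. -/
noncomputable def orliczSubmodule (φ : OrliczFn) (μ : Measure Ω) :
    Submodule ℝ (Ω →ₘ[μ] ℝ) where
  carrier := {f | ∃ s : ℝ, 0 < s ∧ ∫⁻ x, ENNReal.ofReal (φ (|f x| / s)) ∂μ < ∞}
  zero_mem' := by
    refine ⟨1, one_pos, ?_⟩
    have h : ∀ᵐ x ∂μ, ENNReal.ofReal (φ (|(0 : Ω →ₘ[μ] ℝ) x| / 1)) = 0 := by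
      filter_upwards [AEEqFun.coeFn_zero (β := ℝ) (μ := μ)] with x hx
      rw [hx]
      simp [φ.zero']
    rw [lintegral_congr_ae h]
    simp
  add_mem' := by
    rintro f g ⟨s, hs, hfs⟩ ⟨t, ht, hgt⟩
    refine ⟨s + t, add_pos hs ht, ?_⟩
    have e1 : ∫⁻ x, ENNReal.ofReal (φ (|f x| / s)) ∂μ = rho μ φ (fun x => s⁻¹ * f x) := by
      unfold rho
      congr 1
      ext x
      rw [abs_mul, abs_of_pos (inv_pos.2 hs), div_eq_inv_mul]
    have e2 : ∫⁻ x, ENNReal.ofReal (φ (|g x| / t)) ∂μ = rho μ φ (fun x => t⁻¹ * g x) := by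
      unfold rho
      congr 1
      ext x
      rw [abs_mul, abs_of_pos (inv_pos.2 ht), div_eq_inv_mul]
    have e3 : ∫⁻ x, ENNReal.ofReal (φ (|(f + g) x| / (s + t))) ∂μ
        = rho μ φ (fun x => (s / (s + t)) * (s⁻¹ * f x) + (t / (s + t)) * (t⁻¹ * g x)) := by
      unfold rho
      apply lintegral_congr_ae
      filter_upwards [AEEqFun.coeFn_add f g] with x hx
      rw [hx, Pi.add_apply]
      have : s / (s + t) * (s⁻¹ * f x) + t / (s + t) * (t⁻¹ * g x) = (s + t)⁻¹ * (f x + g x) := by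
        field_simp
      rw [this, abs_mul, abs_of_pos (inv_pos.2 (add_pos hs ht)), div_eq_inv_mul]
    rw [e3]
    rw [e1] at hfs
    rw [e2] at hgt
    refine (rho_add_le ?_ ?_ ?_ ?_).trans_lt ?_
    · exact (f.aestronglyMeasurable).const_mul _
    · positivity
    · positivity
    · field_simp
    · exact ENNReal.add_lt_top.2 ⟨ENNReal.mul_lt_top ENNReal.ofReal_lt_top hfs,
        ENNReal.mul_lt_top ENNReal.ofReal_lt_top hgt⟩
  smul_mem' := by
    rintro c f ⟨s, hs, hfs⟩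
    refine ⟨(|c| + 1) * s, by positivity, ?_⟩
    refine lt_of_le_of_lt ?_ hfs
    apply lintegral_mono_ae
    filter_upwards [AEEqFun.coeFn_smul c f] with x hx
    apply ENNReal.ofReal_le_ofReal
    apply φ.mono (by positivity)
    rw [hx, Pi.smul_apply, smul_eq_mul, abs_mul]
    rw [div_le_div_iff₀ (by positivity) hs]
    nlinarith [mul_nonneg (abs_nonneg (f x)) hs.le]

/-- The Orlicz space `L_φ(μ)`. -/
def OrliczSpace (φ : OrliczFn) (μ : Measure Ω) : Type _ := ↥(orliczSubmodule φ μ)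

variable {φ : OrliczFn} {μ : Measure Ω}

noncomputable instance : AddCommGroup (OrliczSpace φ μ) :=
  inferInstanceAs (AddCommGroup ↥(orliczSubmodule φ μ))

noncomputable instance : Module ℝ (OrliczSpace φ μ) :=
  inferInstanceAs (Module ℝ ↥(orliczSubmodule φ μ))

/-- The class of measurable functions underlying an element of `L_φ(μ)`. -/
noncomputable def OrliczSpace.toAE (f : OrliczSpace φ μ) : Ω →ₘ[μ] ℝ := Subtype.val f

/-- The Luxemburg norm `inf {s > 0 : ∫ φ(|f| / s) dμ ≤ 1}`. -/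
noncomputable def OrliczSpace.luxNorm (f : OrliczSpace φ μ) : ℝ :=
  sInf {s : ℝ | 0 < s ∧ ∫⁻ x, ENNReal.ofReal (φ (|f.toAE x| / s)) ∂μ ≤ 1}

namespace OrliczSpace

noncomputable instance : CoeFun (OrliczSpace φ μ) (fun _ => Ω → ℝ) := ⟨fun f => f.toAE⟩

lemma aesm (f : OrliczSpace φ μ) : AEStronglyMeasurable (f : Ω → ℝ) μ :=
  AEEqFun.aestronglyMeasurable _

lemma toAE_add (f g : OrliczSpace φ μ) : (f + g).toAE = f.toAE + g.toAE := rfl
lemma toAE_smul (c : ℝ) (f : OrliczSpace φ μ) : (c • f).toAE = c • f.toAE := rfl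
lemma toAE_neg (f : OrliczSpace φ μ) : (-f).toAE = -f.toAE := rfl
lemma toAE_sub (f g : OrliczSpace φ μ) : (f - g).toAE = f.toAE - g.toAE := rfl
lemma toAE_zero : (0 : OrliczSpace φ μ).toAE = 0 := rfl
lemma toAE_injective : Function.Injective (toAE : OrliczSpace φ μ → _) :=
  Subtype.val_injective

lemma coe_add (f g : OrliczSpace φ μ) : ∀ᵐ x ∂μ, (f + g) x = f x + g x := by
  rw [toAE_add]
  filter_upwards [AEEqFun.coeFn_add f.toAE g.toAE] with x hx
  rw [hx, Pi.add_apply]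
lemma coe_sub (f g : OrliczSpace φ μ) : ∀ᵐ x ∂μ, (f - g) x = f x - g x := by
  rw [toAE_sub]
  filter_upwards [AEEqFun.coeFn_sub f.toAE g.toAE] with x hx
  rw [hx, Pi.sub_apply]
lemma coe_neg (f : OrliczSpace φ μ) : ∀ᵐ x ∂μ, (-f) x = - f x := by
  rw [toAE_neg]
  filter_upwards [AEEqFun.coeFn_neg f.toAE] with x hx
  rw [hx, Pi.neg_apply]
lemma coe_smul (c : ℝ) (f : OrliczSpace φ μ) : ∀ᵐ x ∂μ, (c • f) x = c * f x := by
  rw [toAE_smul]
  filter_upwards [AEEqFun.coeFn_smul c f.toAE] with x hx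
  rw [hx, Pi.smul_apply, smul_eq_mul]
lemma coe_zero : ∀ᵐ x ∂μ, (0 : OrliczSpace φ μ) x = 0 := by
  rw [toAE_zero]
  filter_upwards [AEEqFun.coeFn_zero (β := ℝ) (μ := μ)] with x hx
  rw [hx, Pi.zero_apply]

lemma coe_sum {ι : Type*} (s : Finset ι) (f : ι → OrliczSpace φ μ) :
    ∀ᵐ x ∂μ, (∑ i ∈ s, f i) x = ∑ i ∈ s, f i x := by
  classical
  induction s using Finset.induction_on with
  | empty => simpa using coe_zero
  | insert a s ha ih =>
    simp only [Finset.sum_insert ha]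
    filter_upwards [coe_add (f a) (∑ i ∈ s, f i), ih] with x h1 h2
    rw [h1, h2]

lemma ext_ae {f g : OrliczSpace φ μ} (h : ∀ᵐ x ∂μ, f x = g x) : f = g :=
  toAE_injective (AEEqFun.ext h)

lemma lint_eq_rho (f : Ω → ℝ) {s : ℝ} (hs : 0 < s) :
    ∫⁻ x, ENNReal.ofReal (φ (|f x| / s)) ∂μ = rho μ φ (fun x => s⁻¹ * f x) := by
  unfold rho
  congr 1
  ext x
  rw [abs_mul, abs_of_pos (inv_pos.2 hs), div_eq_inv_mul]

/-- the defining set of the Luxemburg norm -/
def nset (f : OrliczSpace φ μ) : Set ℝ := {s : ℝ | 0 < s ∧ rho μ φ (fun x => s⁻¹ * f x) ≤ 1}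

lemma norm_def (f : OrliczSpace φ μ) : luxNorm f = sInf (nset f) := by
  unfold luxNorm
  congr 1
  ext s
  simp only [nset, mem_ofPred_eq]
  constructor
  · rintro ⟨h, h2⟩
    exact ⟨h, by rwa [lint_eq_rho _ h] at h2⟩
  · rintro ⟨h, h2⟩
    exact ⟨h, by rwa [lint_eq_rho _ h]⟩

lemma nset_bdd (f : OrliczSpace φ μ) : BddBelow (nset f) := ⟨0, fun _ h => h.1.le⟩

lemma nset_up (f : OrliczSpace φ μ) {s t : ℝ} (hs : s ∈ nset f) (hst : s ≤ t) : t ∈ nset f := by
  refine ⟨hs.1.trans_le hst, le_trans (rho_mono ?_) hs.2⟩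
  filter_upwards with x
  rw [abs_mul, abs_mul, abs_of_pos (inv_pos.2 hs.1), abs_of_pos (inv_pos.2 (hs.1.trans_le hst))]
  exact mul_le_mul_of_nonneg_right (inv_anti₀ hs.1 hst) (abs_nonneg _)

lemma nset_nonempty (f : OrliczSpace φ μ) : (nset f).Nonempty := by
  obtain ⟨s, hs, h⟩ : ∃ s : ℝ, 0 < s ∧ ∫⁻ x, ENNReal.ofReal (φ (|f.toAE x| / s)) ∂μ < ∞ := f.2
  rw [lint_eq_rho _ hs] at h
  set r := rho μ φ (fun x => s⁻¹ * f.toAE x) with hr
  set K : ℝ := max 1 r.toReal with hK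
  have hK1 : 1 ≤ K := le_max_left _ _
  refine ⟨K * s, by positivity, ?_⟩
  have h1 : rho μ φ (fun x => K⁻¹ * (s⁻¹ * f.toAE x)) ≤ ENNReal.ofReal K⁻¹ * r :=
    rho_mul_le (by positivity) (inv_le_one_of_one_le₀ hK1)
  have h2 : (fun x => K⁻¹ * (s⁻¹ * f.toAE x)) = (fun x => (K * s)⁻¹ * f.toAE x) := by
    ext x
    rw [mul_inv]
    ring
  rw [h2] at h1
  refine h1.trans ?_
  rw [← ENNReal.ofReal_toReal h.ne, ← ENNReal.ofReal_mul (by positivity), ← ENNReal.ofReal_one]
  apply ENNReal.ofReal_le_ofReal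
  rw [inv_mul_le_iff₀ (by positivity), mul_one]
  exact le_max_right _ _

lemma norm_nonneg' (f : OrliczSpace φ μ) : 0 ≤ luxNorm f := by
  rw [norm_def]
  exact Real.sInf_nonneg (fun s hs => hs.1.le)

lemma mem_nset_of_norm_lt {f : OrliczSpace φ μ} {s : ℝ} (h : luxNorm f < s) : s ∈ nset f := by
  rw [norm_def, csInf_lt_iff (nset_bdd f) (nset_nonempty f)] at h
  obtain ⟨t, ht, hts⟩ := h
  exact nset_up f ht hts.le

lemma norm_le_of_mem {f : OrliczSpace φ μ} {s : ℝ} (h : s ∈ nset f) : luxNorm f ≤ s := by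
  rw [norm_def]
  exact csInf_le (nset_bdd f) h

lemma norm_zero' : luxNorm (0 : OrliczSpace φ μ) = 0 := by
  apply le_antisymm _ (norm_nonneg' _)
  apply le_of_forall_pos_le_add
  intro ε hε
  rw [zero_add]
  apply norm_le_of_mem
  refine ⟨hε, ?_⟩
  have : rho μ φ (fun x => ε⁻¹ * (0 : OrliczSpace φ μ) x) = 0 := by
    rw [← rho_zero (μ := μ) (φ := φ)]
    apply rho_congr
    filter_upwards [coe_zero (φ := φ) (μ := μ)] with x hx
    rw [hx, mul_zero]
  rw [this]
  exact zero_le_one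

lemma norm_add_le' (f g : OrliczSpace φ μ) : luxNorm (f + g) ≤ luxNorm f + luxNorm g := by
  apply le_of_forall_pos_le_add
  intro ε hε
  have h1 : luxNorm f + ε / 2 ∈ nset f := mem_nset_of_norm_lt (by linarith)
  have h2 : luxNorm g + ε / 2 ∈ nset g := mem_nset_of_norm_lt (by linarith)
  set s := luxNorm f + ε / 2
  set t := luxNorm g + ε / 2
  have hs : 0 < s := h1.1
  have ht : 0 < t := h2.1
  have : s + t ∈ nset (f + g) := by
    refine ⟨add_pos hs ht, ?_⟩
    have e3 : rho μ φ (fun x => (s + t)⁻¹ * (f + g) x)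
        = rho μ φ (fun x => (s / (s + t)) * (s⁻¹ * f x) + (t / (s + t)) * (t⁻¹ * g x)) := by
      apply rho_congr
      filter_upwards [coe_add f g] with x hx
      rw [hx]
      field_simp
    rw [e3]
    refine (rho_add_le (f.aesm.const_mul _) (by positivity) (by positivity)
      (by field_simp)).trans ?_
    calc ENNReal.ofReal (s / (s + t)) * rho μ φ (fun x => s⁻¹ * f x)
          + ENNReal.ofReal (t / (s + t)) * rho μ φ (fun x => t⁻¹ * g x)
        ≤ ENNReal.ofReal (s / (s + t)) * 1 + ENNReal.ofReal (t / (s + t)) * 1 :=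
          add_le_add (mul_le_mul_right h1.2 _) (mul_le_mul_right h2.2 _)
      _ = 1 := by
          rw [mul_one, mul_one, ← ENNReal.ofReal_add (by positivity) (by positivity),
            ← add_div, div_self (by positivity), ENNReal.ofReal_one]
  have := norm_le_of_mem this
  simp only [s, t] at this
  linarith

lemma norm_smul_le' (c : ℝ) (f : OrliczSpace φ μ) : luxNorm (c • f) ≤ |c| * luxNorm f := by
  apply le_of_forall_pos_le_add
  intro ε hε
  set s := luxNorm f + ε / (|c| + 1) with hs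
  have hs1 : s ∈ nset f := mem_nset_of_norm_lt (by simp only [s]; linarith [show 0 < ε / (|c| + 1) by positivity])
  have hs0 : 0 < s := hs1.1
  rcases eq_or_ne c 0 with rfl | hc
  · rw [zero_smul, norm_zero']
    have := norm_nonneg' f
    simp
    exact hε.le
  · have hc0 : 0 < |c| := abs_pos.2 hc
    have : |c| * s ∈ nset (c • f) := by
      refine ⟨by positivity, le_trans (rho_mono ?_) hs1.2⟩
      filter_upwards [coe_smul c f] with x hx
      rw [hx, abs_mul, abs_mul, abs_mul, abs_of_pos (by positivity : 0 < (|c| * s)⁻¹),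
        abs_of_pos (inv_pos.2 hs0)]
      apply le_of_eq
      field_simp
    refine (norm_le_of_mem this).trans ?_
    rw [hs, mul_add]
    have : |c| * (ε / (|c| + 1)) ≤ ε := by
      rw [← mul_div_assoc, div_le_iff₀ (by positivity)]
      nlinarith
    linarith

lemma norm_neg' (f : OrliczSpace φ μ) : luxNorm (-f) = luxNorm f := by
  have h1 : ∀ g : OrliczSpace φ μ, luxNorm (-g) ≤ luxNorm g := by
    intro g
    have := norm_smul_le' (-1) g
    simpa using this
  exact le_antisymm (h1 f) (by simpa using h1 (-f))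

lemma eq_zero_of_norm (f : OrliczSpace φ μ) (h : luxNorm f = 0) : f = 0 := by
  obtain ⟨u, hu, hpu⟩ := φ.exists_pos
  apply ext_ae
  have key : ∀ n : ℕ, μ {x | 1 / ((n : ℝ) + 1) ≤ |f x|} = 0 := by
    intro n
    -- for all `s` small: `φ(|f|/s) ≥ (1/(s (n+1)u)) φ u` on the set
    by_contra hne
    have hs : ∀ s : ℝ, 0 < s → s ≤ 1 / ((n + 1) * u) →
        ENNReal.ofReal ((1 / (s * (n + 1) * u)) * φ u) * μ {x | 1 / ((n : ℝ) + 1) ≤ |f x|} ≤ 1 := by
      intro s hs hsu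
      have hmem : s ∈ nset f := mem_nset_of_norm_lt (by rw [h]; exact hs)
      refine le_trans ?_ hmem.2
      have hmeas : AEMeasurable (fun x => ENNReal.ofReal (φ |s⁻¹ * f x|)) μ :=
        aemeas_rho (f.aesm.const_mul _)
      refine le_trans ?_ (mul_meas_ge_le_lintegral₀ hmeas
        (ENNReal.ofReal ((1 / (s * (n + 1) * u)) * φ u)))
      apply mul_le_mul_right
      apply measure_mono
      intro x hx
      simp only [mem_ofPred_eq] at hx ⊢
      apply ENNReal.ofReal_le_ofReal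
      have h1 : 1 / (s * (n + 1)) ≤ |s⁻¹ * f x| := by
        rw [abs_mul, abs_of_pos (inv_pos.2 hs)]
        calc 1 / (s * (n + 1)) = s⁻¹ * (1 / ((n : ℝ) + 1)) := by
              rw [one_div, mul_inv, one_div]
          _ ≤ _ := mul_le_mul_of_nonneg_left hx (by positivity)
      refine le_trans ?_ (φ.mono (by positivity) h1)
      set t : ℝ := s * (n + 1) * u with ht
      have ht0 : 0 < t := by positivity
      have ht1 : t ≤ 1 := by
        rw [ht]
        have := mul_le_mul_of_nonneg_right hsu (show 0 ≤ ((n : ℝ) + 1) * u by positivity)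
        rw [one_div, inv_mul_cancel₀ (by positivity)] at this
        linarith
      have h2 := φ.map_mul_le (u := 1 / (s * (n + 1))) (by positivity) ht0.le ht1
      have h3 : t * (1 / (s * (n + 1))) = u := by
        rw [ht]
        field_simp
      rw [h3] at h2
      rw [one_div, inv_mul_le_iff₀ ht0]
      exact h2
    -- let `s → 0`
    have hμ : 0 < μ {x | 1 / ((n : ℝ) + 1) ≤ |f x|} := pos_iff_ne_zero.2 hne
    obtain ⟨K, hK⟩ : ∃ K : ℕ, 1 < (K : ℝ≥0∞) * μ {x | 1 / ((n : ℝ) + 1) ≤ |f x|} := by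
      rcases eq_or_ne (μ {x | 1 / ((n : ℝ) + 1) ≤ |f x|}) ∞ with h0 | h0
      · exact ⟨1, by rw [h0]; simp⟩
      · obtain ⟨K, hK⟩ := ENNReal.exists_nat_gt (show (μ {x | 1 / ((n : ℝ) + 1) ≤ |f x|})⁻¹ ≠ ∞ by simpa using hne)
        refine ⟨K, ?_⟩
        rw [← ENNReal.inv_mul_cancel hne h0]
        rw [ENNReal.mul_lt_mul_iff_left hne h0]
        exact hK
    set s : ℝ := min (1 / ((n + 1) * u)) (φ u / ((K + 1) * ((n + 1) * u))) with hsdef
    have hs0 : 0 < s := by
      rw [hsdef]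
      apply lt_min <;> positivity
    have h4 := hs s hs0 (min_le_left _ _)
    have h5 : (K : ℝ) ≤ (1 / (s * (n + 1) * u)) * φ u := by
      rw [one_div, inv_mul_eq_div, le_div_iff₀ (by positivity)]
      have h6 : s ≤ φ u / ((K + 1) * ((n + 1) * u)) := min_le_right _ _
      rw [le_div_iff₀ (by positivity)] at h6
      have h7 : 0 ≤ s * ((n + 1) * u) := by positivity
      nlinarith
    have h8 : (K : ℝ≥0∞) ≤ ENNReal.ofReal ((1 / (s * (n + 1) * u)) * φ u) := by
      rw [← ENNReal.ofReal_natCast]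
      exact ENNReal.ofReal_le_ofReal h5
    have h9 := (mul_le_mul_left h8 (μ {x | 1 / ((n : ℝ) + 1) ≤ |f x|})).trans h4
    exact absurd hK (not_lt.2 h9)
  have : μ (⋃ n : ℕ, {x | 1 / ((n : ℝ) + 1) ≤ |f x|}) = 0 := measure_iUnion_null key
  have h0 : ∀ᵐ x ∂μ, f x = 0 := by
    rw [ae_iff]
    refine measure_mono_null ?_ this
    intro x hx
    simp only [mem_ofPred_eq] at hx
    obtain ⟨n, hn⟩ := exists_nat_one_div_lt (abs_pos.2 hx)
    exact mem_iUnion.2 ⟨n, hn.le⟩
  filter_upwards [h0, coe_zero (φ := φ) (μ := μ)] with x h1 h2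
  rw [h1, h2]

end OrliczSpace

noncomputable instance : NormedAddCommGroup (OrliczSpace φ μ) :=
  AddGroupNorm.toNormedAddCommGroup
    { toFun := fun f => OrliczSpace.luxNorm f
      map_zero' := OrliczSpace.norm_zero'
      add_le' := OrliczSpace.norm_add_le'
      neg' := OrliczSpace.norm_neg'
      eq_zero_of_map_eq_zero' := OrliczSpace.eq_zero_of_norm }

noncomputable instance : NormedSpace ℝ (OrliczSpace φ μ) where
  norm_smul_le := fun c f => by
    rw [Real.norm_eq_abs]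
    exact OrliczSpace.norm_smul_le' c f

end space

end Pool.Agent.H27.Kato
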