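import Pool.Agent.H27.Kato.Blocks

/-!
# Extraction of subsequences: disjointification and splitting
-/

open MeasureTheory Set Filter Topology
open scoped ENNReal NNReal

namespace Pool.Agent.H27.Kato

/-- extraction with a relation between earlier and later terms -/
lemma exists_extraction (R : ℕ → ℕ → Prop) (hR : ∀ k, ∀ᶠ l in atTop, R k l) :
    ∃ σ : ℕ → ℕ, StrictMono σ ∧ ∀ k l, k < l → R (σ k) (σ l) := by
  obtain ⟨f, -, hf⟩ := exists_seq_of_forall_finset_exists (α := ℕ) (fun _ => True)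
    (fun k l => k < l ∧ R k l) (by
      intro s _
      have h1 : ∀ᶠ l in atTop, ∀ k ∈ s, k < l ∧ R k l := by
        rw [Filter.eventually_all_finset]
        intro k _
        exact (eventually_gt_atTop k).and (hR k)
      obtain ⟨y, hy⟩ := h1.exists
      exact ⟨y, trivial, hy⟩)
  exact ⟨f, fun m n hmn => (hf m n hmn).1, fun k l hkl => (hf k l hkl).2⟩

/-- pointwise convergent subsequence in `[0, ∞]`, for countably many functions at once -/
lemma exists_ptwise (F : ℕ → ℕ → ℝ≥0∞) : ∃ σ : ℕ → ℕ, StrictMono σ ∧ ∃ G : ℕ → ℝ≥0∞,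
    ∀ m, Tendsto (fun n => F (σ n) m) atTop (𝓝 (G m)) := by
  obtain ⟨G, σ, hσ, hG⟩ := SeqCompactSpace.tendsto_subseq (X := ℕ → ℝ≥0∞) F
  refine ⟨σ, hσ, G, fun m => ?_⟩
  rw [tendsto_pi_nhds] at hG
  exact hG m

variable {Ω : Type*} [MeasurableSpace Ω] {μ : Measure Ω} {φ : OrliczFn} {B : ℤ → ℕ}

lemma rho_indicator {S : Set Ω} (hS : MeasurableSet S) (g : Ω → ℝ) :
    rho μ φ (S.indicator g) = ∫⁻ x in S, ENNReal.ofReal (φ |g x|) ∂μ := by
  rw [← lintegral_indicator hS]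
  unfold rho
  congr 1
  ext x
  by_cases hx : x ∈ S
  · simp [hx]
  · simp [hx, φ.zero']

/-- Disjointification. -/
lemma disjointify (f : ℕ → Ω → ℝ≥0∞) (hf : ∀ k, ∫⁻ x, f k x ∂μ ≠ ∞) (A : ℕ → Set Ω)
    (hA : ∀ k, MeasurableSet (A k)) (C : ℝ≥0∞) (hC : C ≠ ∞)
    (hμ : ∀ k, μ (A k) ≤ C * (4⁻¹ : ℝ≥0∞) ^ k) (τ : ℕ → ℝ≥0∞) (hτ : ∀ k, τ k ≠ 0) :
    ∃ σ : ℕ → ℕ, StrictMono σ ∧ ∃ D : ℕ → Set Ω, (∀ k, MeasurableSet (D k)) ∧
      (∀ k, D k ⊆ A (σ k)) ∧ (∀ k l, k ≠ l → Disjoint (D k) (D l)) ∧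
      ∀ k, ∫⁻ x in A (σ k) \ D k, f (σ k) x ∂μ ≤ τ (σ k) := by
  have h1 : ∀ k, ∃ δ : ℝ≥0∞, 0 < δ ∧ δ ≤ 1 ∧ ∀ s, μ s < δ → ∫⁻ x in s, f k x ∂μ ≤ τ k := by
    intro k
    obtain ⟨δ, hδ, h⟩ := exists_pos_setLIntegral_lt_of_measure_lt (hf k) (hτ k)
    exact ⟨min δ 1, lt_min hδ one_pos, min_le_right _ _,
      fun s hs => (h s (hs.trans_le (min_le_left _ _))).le⟩
  choose δ hδ0 hδ1 hδ using h1
  have hR : ∀ k, ∀ᶠ l in atTop, μ (A l) ≤ (δ k / 2) * (2⁻¹ : ℝ≥0∞) ^ (l + 1) := by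
    intro k
    have h2 : Tendsto (fun l : ℕ => C * (2⁻¹ : ℝ≥0∞) ^ l) atTop (𝓝 (C * 0)) := by
      apply ENNReal.Tendsto.const_mul _ (Or.inr hC)
      exact ENNReal.tendsto_pow_atTop_nhds_zero_of_lt_one (by
        rw [ENNReal.inv_lt_one]; norm_num)
    rw [mul_zero] at h2
    have h3 : (0 : ℝ≥0∞) < δ k / 2 * 2⁻¹ := by
      apply ENNReal.mul_pos
      · exact (ENNReal.div_pos (hδ0 k).ne' (by norm_num)).ne'
      · norm_num
    filter_upwards [h2.eventually_lt_const h3] with l hl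
    refine (hμ l).trans ?_
    have e4 : (4⁻¹ : ℝ≥0∞) = 2⁻¹ * 2⁻¹ := by
      rw [← ENNReal.mul_inv (by simp) (by simp)]
      norm_num
    rw [e4, mul_pow, ← mul_assoc, pow_succ']
    calc C * 2⁻¹ ^ l * 2⁻¹ ^ l ≤ (δ k / 2 * 2⁻¹) * 2⁻¹ ^ l := mul_le_mul_left hl.le _
      _ = _ := by ring
  obtain ⟨σ, hσ, hσR⟩ := exists_extraction _ hR
  refine ⟨σ, hσ, fun k => A (σ k) \ ⋃ l : ℕ, A (σ (k + 1 + l)), ?_, ?_, ?_, ?_⟩
  · intro k
    exact (hA _).diff (MeasurableSet.iUnion (fun l => hA _))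
  · intro k
    exact sdiff_subset
  · have key : ∀ k l, k < l → Disjoint (A (σ k) \ ⋃ m : ℕ, A (σ (k + 1 + m)))
        (A (σ l) \ ⋃ m : ℕ, A (σ (l + 1 + m))) := by
      intro k l hkl
      rw [Set.disjoint_left]
      rintro x ⟨_, hx⟩ ⟨hx2, _⟩
      apply hx
      obtain ⟨m, rfl⟩ : ∃ m, l = k + 1 + m := ⟨l - (k + 1), by omega⟩
      exact mem_iUnion.2 ⟨m, hx2⟩
    intro k l hkl
    rcases lt_or_gt_of_ne hkl with h | h
    · exact key k l h
    · exact (key l k h).symm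
  · intro k
    have hsub : A (σ k) \ (A (σ k) \ ⋃ l : ℕ, A (σ (k + 1 + l))) ⊆ ⋃ l : ℕ, A (σ (k + 1 + l)) := by
      intro x hx
      by_contra hn
      exact hx.2 ⟨hx.1, hn⟩
    refine (lintegral_mono_set hsub).trans (hδ (σ k) _ ?_)
    have hfin : δ (σ k) ≠ ∞ := ((hδ1 _).trans_lt ENNReal.one_lt_top).ne
    calc μ (⋃ l : ℕ, A (σ (k + 1 + l))) ≤ ∑' l : ℕ, μ (A (σ (k + 1 + l))) := measure_iUnion_le _
      _ ≤ ∑' l : ℕ, (δ (σ k) / 2) * (2⁻¹ : ℝ≥0∞) ^ (l + 1) := by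
          apply ENNReal.tsum_le_tsum
          intro l
          refine (hσR k (k + 1 + l) (by omega)).trans ?_
          apply mul_le_mul_right
          apply pow_le_pow_right_of_le_one' (by simp)
          have := hσ.id_le (k + 1 + l)
          simp only [id] at this
          omega
      _ = δ (σ k) / 2 := by
          rw [ENNReal.tsum_mul_left, ENNReal.tsum_geometric_add_one, ENNReal.one_sub_inv_two,
            inv_inv, ENNReal.inv_mul_cancel (by norm_num) (by norm_num), mul_one]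
      _ < δ (σ k) := ENNReal.half_lt_self (hδ0 _).ne' hfin

namespace Rel

variable (h : Rel φ B)
include h

lemma meas_large (f : OrliczSpace φ μ) {C : ℝ≥0∞} (hf : rho μ φ f ≤ C) (k : ℕ) :
    μ {x | (2 : ℝ) ^ k < |f x|} ≤ 16 * C * (4⁻¹ : ℝ≥0∞) ^ k := by
  have h1 : (4 : ℝ≥0∞) ^ k * μ {x | (4 : ℝ≥0∞) ^ k ≤ ENNReal.ofReal (f x ^ 2)} ≤
      ∫⁻ x, ENNReal.ofReal (f x ^ 2) ∂μ := by
    apply mul_meas_ge_le_lintegral₀
    exact (f.aesm.aemeasurable.pow_const 2).ennreal_ofReal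
  have h2 : {x | (2 : ℝ) ^ k < |f x|} ⊆ {x | (4 : ℝ≥0∞) ^ k ≤ ENNReal.ofReal (f x ^ 2)} := by
    intro x hx
    have hx' : (2 : ℝ) ^ k < |f x| := hx
    show (4 : ℝ≥0∞) ^ k ≤ ENNReal.ofReal (f x ^ 2)
    have e : (4 : ℝ≥0∞) ^ k = ENNReal.ofReal ((4 : ℝ) ^ k) := by
      rw [ENNReal.ofReal_pow (by norm_num)]
      norm_num
    rw [e]
    apply ENNReal.ofReal_le_ofReal
    rw [← sq_abs (f x)]
    have : (4 : ℝ) ^ k = (2 ^ k) ^ 2 := by
      rw [← pow_mul, mul_comm, pow_mul]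
      norm_num
    rw [this]
    exact pow_le_pow_left₀ (by positivity) hx'.le 2
  have h3 : (4 : ℝ≥0∞) ^ k * μ {x | (2 : ℝ) ^ k < |f x|} ≤ 16 * C :=
    (mul_le_mul_right (measure_mono h2) _).trans (h1.trans ((h.lintegral_sq_le _).trans
      (mul_le_mul_right hf _)))
  rw [← ENNReal.inv_pow]
  rw [← div_eq_mul_inv, ENNReal.le_div_iff_mul_le (Or.inl (by simp)) (Or.inl (by simp)), mul_comm]
  exact h3

omit h in
lemma meas_abs_gt (f : OrliczSpace φ μ) (M : ℝ) : MeasurableSet {x | M < |f x|} := by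
  have hm : Measurable (f : Ω → ℝ) := AEEqFun.measurable f.toAE
  exact measurableSet_lt measurable_const (measurable_norm.comp hm)

/-- An almost disjoint subsequence of a bounded sequence which tends to zero in `L²`. -/
lemma almost_disjoint (y : ℕ → OrliczSpace φ μ) {C : ℝ≥0∞} (hC : C ≠ ∞)
    (hy : ∀ n, rho μ φ (y n) ≤ C)
    (h0 : Tendsto (fun n => ∫⁻ x, ENNReal.ofReal (y n x ^ 2) ∂μ) atTop (𝓝 0)) :
    ∃ σ : ℕ → ℕ, StrictMono σ ∧ ∃ z : ℕ → OrliczSpace φ μ, PDisj z ∧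
      ∀ n, ‖y (σ n) - z n‖ ≤ (2 : ℝ)⁻¹ ^ n := by
  -- tolerances
  have hη : ∀ k : ℕ, ∃ η : ℝ, 0 < η ∧ ∀ f : OrliczSpace φ μ,
    rho μ φ f ≤ ENNReal.ofReal η → ‖f‖ ≤ (2 : ℝ)⁻¹ ^ k := fun k => h.norm_small (by positivity)
  choose η hη0 hη1 using hη
  -- first subsequence
  have hP : ∀ k : ℕ, ∀ᶠ n in atTop,
      ∫⁻ x in {x | (2 : ℝ) ^ k < |y n x|}ᶜ, ENNReal.ofReal (φ |y n x|) ∂μ ≤
        ENNReal.ofReal (η k / 2) := by
    intro k
    have h1 : Tendsto (fun n => ENNReal.ofReal (16 * 2 ^ k) *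
        ∫⁻ x, ENNReal.ofReal (y n x ^ 2) ∂μ) atTop (𝓝 (ENNReal.ofReal (16 * 2 ^ k) * 0)) :=
      ENNReal.Tendsto.const_mul h0 (Or.inr ENNReal.ofReal_ne_top)
    rw [mul_zero] at h1
    have h2 : (0 : ℝ≥0∞) < ENNReal.ofReal (η k / 2) :=
      ENNReal.ofReal_pos.2 (half_pos (hη0 k))
    filter_upwards [h1.eventually_lt_const h2] with n hn
    refine le_trans ?_ hn.le
    have hms : MeasurableSet ({x | (2 : ℝ) ^ k < |y n x|}ᶜ) := (meas_abs_gt (y n) _).compl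
    rw [← rho_indicator hms]
    refine (h.rho_le_sq (M := 2 ^ k) (one_le_pow₀ (by norm_num)) ?_).trans ?_
    · filter_upwards with x
      by_cases hx : x ∈ {x | (2 : ℝ) ^ k < |y n x|}ᶜ
      · rw [indicator_of_mem hx]
        have : ¬ (2 : ℝ) ^ k < |y n x| := hx
        exact not_lt.1 this
      · rw [indicator_of_notMem hx, abs_zero]
        positivity
    · apply mul_le_mul_right
      apply lintegral_mono
      intro x
      apply ENNReal.ofReal_le_ofReal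
      by_cases hx : x ∈ {x | (2 : ℝ) ^ k < |y n x|}ᶜ
      · rw [indicator_of_mem hx]
      · rw [indicator_of_notMem hx]
        have := sq_nonneg (y n x)
        norm_num
        exact this
  obtain ⟨σ1, hσ1, hσP⟩ := extraction_forall_of_eventually hP
  -- second subsequence
  obtain ⟨σ2, hσ2, D, hDm, hDA, hDd, hDi⟩ := disjointify
    (μ := μ) (fun k x => ENNReal.ofReal (φ |y (σ1 k) x|))
    (fun k => ((hy (σ1 k)).trans_lt hC.lt_top).ne)
    (fun k => {x | (2 : ℝ) ^ k < |y (σ1 k) x|}) (fun k => meas_abs_gt _ _)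
    (16 * C) (ENNReal.mul_ne_top (by norm_num) hC)
    (fun k => h.meas_large (y (σ1 k)) (hy _) k) (fun k => ENNReal.ofReal (η k / 2))
    (fun k => (ENNReal.ofReal_pos.2 (half_pos (hη0 k))).ne')
  refine ⟨σ1 ∘ σ2, hσ1.comp hσ2, fun k => OrliczSpace.res (D k) (hDm k) (y (σ1 (σ2 k))), ?_, ?_⟩
  · intro i j hij
    filter_upwards [OrliczSpace.coe_res (D i) (hDm i) (y (σ1 (σ2 i))),
      OrliczSpace.coe_res (D j) (hDm j) (y (σ1 (σ2 j)))] with t h1 h2
    rw [h1, h2]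
    by_cases ht : t ∈ D i
    · right
      exact indicator_of_notMem (Set.disjoint_left.1 (hDd i j hij) ht) _
    · left
      exact indicator_of_notMem ht _
  · intro k
    have hle : (2 : ℝ)⁻¹ ^ (σ2 k) ≤ (2 : ℝ)⁻¹ ^ k :=
      pow_le_pow_of_le_one (by norm_num) (by norm_num) (hσ2.id_le k)
    refine le_trans (hη1 (σ2 k) _ ?_) hle
    set f := y (σ1 (σ2 k)) with hf
    set A := {x | (2 : ℝ) ^ (σ2 k) < |f x|} with hA
    have hAm : MeasurableSet A := meas_abs_gt _ _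
    have e1 : rho μ φ ((f - OrliczSpace.res (D k) (hDm k) f : OrliczSpace φ μ)) =
        ∫⁻ x in (D k)ᶜ, ENNReal.ofReal (φ |f x|) ∂μ := by
      rw [← rho_indicator (hDm k).compl]
      apply rho_congr
      filter_upwards [OrliczSpace.coe_sub f (OrliczSpace.res (D k) (hDm k) f),
        OrliczSpace.coe_res (D k) (hDm k) f] with t h1 h2
      rw [h1, h2]
      by_cases ht : t ∈ D k
      · simp [ht]
      · simp [ht]
    show rho μ φ ((f - OrliczSpace.res (D k) (hDm k) f : OrliczSpace φ μ)) ≤ _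
    rw [e1]
    have hsub : (D k)ᶜ ⊆ (A \ D k) ∪ Aᶜ := by
      intro x hx
      by_cases hxA : x ∈ A
      · exact Or.inl ⟨hxA, hx⟩
      · exact Or.inr hxA
    refine (lintegral_mono_set hsub).trans ((lintegral_union_le _ _ _).trans ?_)
    have h3 := hDi k
    have h4 := hσP (σ2 k)
    calc _ ≤ ENNReal.ofReal (η (σ2 k) / 2) + ENNReal.ofReal (η (σ2 k) / 2) := add_le_add h3 h4
      _ = _ := by
        rw [← ENNReal.ofReal_add (half_pos (hη0 _)).le (half_pos (hη0 _)).le, add_halves]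

/-- Subsequence splitting. -/
lemma splitting (f : ℕ → OrliczSpace φ μ) (hf : ∀ n, ‖f n‖ ≤ 1) {ε : ℝ} (hε : 0 < ε) :
    ∃ σ : ℕ → ℕ, StrictMono σ ∧ ∃ M : ℝ, ∃ b d : ℕ → OrliczSpace φ μ,
      (∀ n, ∀ᵐ t ∂μ, |b n t| ≤ M) ∧ PDisj d ∧ (∀ n, ‖d n‖ ≤ 1) ∧ (∀ n, ‖b n‖ ≤ 1) ∧
      ∀ n, ‖f (σ n) - b n - d n‖ ≤ ε := by
  have hf1 : ∀ n, rho μ φ (f n) ≤ 1 := fun n => OrliczSpace.rho_le_one (hf n)
  obtain ⟨η4, hη40, hη41⟩ := h.norm_small (μ := μ) hε
  set η : ℝ := η4 / 4 with hη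
  have hη0 : 0 < η := by positivity
  -- the large parts
  set F : ℕ → ℕ → ℝ≥0∞ := fun n m =>
    ∫⁻ x in {x | (2 : ℝ) ^ m < |f n x|}, ENNReal.ofReal (φ |f n x|) ∂μ with hF
  have hF1 : ∀ n m, F n m ≤ 1 := fun n m => (setLIntegral_le_lintegral _ _).trans (hf1 n)
  have hFanti : ∀ n, Antitone (F n) := by
    intro n m m' hmm
    apply lintegral_mono_set
    intro x hx
    have hx' : (2 : ℝ) ^ m' < |f n x| := hx
    exact lt_of_le_of_lt (pow_le_pow_right₀ (by norm_num) hmm) hx'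
  obtain ⟨σ0, hσ0, G, hG⟩ := exists_ptwise F
  set α : ℝ≥0∞ := ⨅ m, G m with hα
  have hG1 : ∀ m, G m ≤ 1 := fun m => le_of_tendsto' (hG m) (fun n => hF1 _ _)
  have hαfin : α ≠ ∞ := ((iInf_le _ 0).trans_lt ((hG1 0).trans_lt ENNReal.one_lt_top)).ne
  obtain ⟨m0, hm0⟩ : ∃ m0, G m0 < α + ENNReal.ofReal η := by
    apply iInf_lt_iff.1
    exact ENNReal.lt_add_right hαfin (ENNReal.ofReal_pos.2 hη0).ne'
  have hP : ∀ k : ℕ, ∀ᶠ n in atTop, F (σ0 n) m0 ≤ F (σ0 n) (m0 + k) + ENNReal.ofReal (2 * η) := by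
    intro k
    have h1 : ∀ᶠ n in atTop, F (σ0 n) m0 < α + ENNReal.ofReal η := (hG m0).eventually_lt_const hm0
    have h2 : Tendsto (fun n => F (σ0 n) (m0 + k) + ENNReal.ofReal η) atTop
        (𝓝 (G (m0 + k) + ENNReal.ofReal η)) := (hG _).add_const _
    have h3 : α < G (m0 + k) + ENNReal.ofReal η :=
      lt_of_lt_of_le (ENNReal.lt_add_right hαfin (ENNReal.ofReal_pos.2 hη0).ne')
        (add_le_add_left (iInf_le _ _) _)
    filter_upwards [h1, h2.eventually_const_lt h3] with n hn1 hn2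
    calc F (σ0 n) m0 ≤ α + ENNReal.ofReal η := hn1.le
      _ ≤ (F (σ0 n) (m0 + k) + ENNReal.ofReal η) + ENNReal.ofReal η := add_le_add_left hn2.le _
      _ = _ := by
        rw [add_assoc, ← ENNReal.ofReal_add hη0.le hη0.le, two_mul]
  obtain ⟨σ1, hσ1, hσP⟩ := extraction_forall_of_eventually hP
  -- disjointify
  obtain ⟨σ2, hσ2, D, hDm, hDA, hDd, hDi⟩ := disjointify
    (μ := μ) (fun k x => ENNReal.ofReal (φ |f (σ0 (σ1 k)) x|))
    (fun k => ((hf1 (σ0 (σ1 k))).trans_lt ENNReal.one_lt_top).ne)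
    (fun k => {x | (2 : ℝ) ^ (m0 + k) < |f (σ0 (σ1 k)) x|}) (fun k => meas_abs_gt _ _)
    (16 * 1) (by norm_num)
    (fun k => (h.meas_large (f (σ0 (σ1 k))) (hf1 _) (m0 + k)).trans (by
      apply mul_le_mul_right
      apply pow_le_pow_right_of_le_one' _ (by omega)
      rw [ENNReal.inv_le_one]
      norm_num))
    (fun k => ENNReal.ofReal η)
    (fun k => (ENNReal.ofReal_pos.2 hη0).ne')
  set σ := fun k => σ0 (σ1 (σ2 k)) with hσ
  have hσm : StrictMono σ := hσ0.comp (hσ1.comp hσ2)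
  set A0 : ℕ → Set Ω := fun k => {x | (2 : ℝ) ^ m0 < |f (σ k) x|} with hA0
  have hA0m : ∀ k, MeasurableSet (A0 k) := fun k => meas_abs_gt _ _
  set b : ℕ → OrliczSpace φ μ := fun k => OrliczSpace.res (A0 k)ᶜ (hA0m k).compl (f (σ k)) with hb
  set d : ℕ → OrliczSpace φ μ := fun k => OrliczSpace.res (D k) (hDm k) (f (σ k)) with hd
  have hnorm : ∀ (S : Set Ω) (hS : MeasurableSet S) (g : OrliczSpace φ μ),
      ‖OrliczSpace.res S hS g‖ ≤ ‖g‖ := by
    intro S hS g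
    apply OrliczSpace.norm_mono
    filter_upwards [OrliczSpace.coe_res S hS g] with t ht
    rw [ht]
    by_cases h1 : t ∈ S
    · rw [indicator_of_mem h1]
    · rw [indicator_of_notMem h1, abs_zero]
      exact abs_nonneg _
  refine ⟨σ, hσm, 2 ^ m0, b, d, ?_, ?_, fun n => (hnorm _ _ _).trans (hf _),
    fun n => (hnorm _ _ _).trans (hf _), ?_⟩
  · intro n
    filter_upwards [OrliczSpace.coe_res (A0 n)ᶜ (hA0m n).compl (f (σ n))] with t ht
    rw [hb]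
    simp only
    rw [ht]
    by_cases h1 : t ∈ (A0 n)ᶜ
    · rw [indicator_of_mem h1]
      have : ¬ (2 : ℝ) ^ m0 < |f (σ n) t| := h1
      exact not_lt.1 this
    · rw [indicator_of_notMem h1, abs_zero]
      positivity
  · intro i j hij
    filter_upwards [OrliczSpace.coe_res (D i) (hDm i) (f (σ i)),
      OrliczSpace.coe_res (D j) (hDm j) (f (σ j))] with t h1 h2
    rw [hd]
    simp only
    rw [h1, h2]
    by_cases ht : t ∈ D i
    · right
      exact indicator_of_notMem (Set.disjoint_left.1 (hDd i j hij) ht) _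
    · left
      exact indicator_of_notMem ht _
  · intro k
    apply hη41
    set A1 := {x | (2 : ℝ) ^ (m0 + σ2 k) < |f (σ k) x|} with hA1
    have hA1m : MeasurableSet A1 := meas_abs_gt _ _
    have hA10 : A1 ⊆ A0 k := by
      intro x hx
      have hx' : (2 : ℝ) ^ (m0 + σ2 k) < |f (σ k) x| := hx
      exact lt_of_le_of_lt (pow_le_pow_right₀ (by norm_num) (by omega)) hx'
    have hDA' : D k ⊆ A0 k := (hDA k).trans hA10
    have e1 : rho μ φ ((f (σ k) - b k - d k : OrliczSpace φ μ)) =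
        ∫⁻ x in A0 k \ D k, ENNReal.ofReal (φ |f (σ k) x|) ∂μ := by
      rw [← rho_indicator ((hA0m k).diff (hDm k))]
      apply rho_congr
      filter_upwards [OrliczSpace.coe_sub (f (σ k) - b k) (d k),
        OrliczSpace.coe_sub (f (σ k)) (b k),
        OrliczSpace.coe_res (D k) (hDm k) (f (σ k)),
        OrliczSpace.coe_res (A0 k)ᶜ (hA0m k).compl (f (σ k))] with t h1 h2 h3 h4
      have h3' : (d k) t = (D k).indicator (f (σ k)) t := h3
      have h4' : (b k) t = ((A0 k)ᶜ).indicator (f (σ k)) t := h4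
      rw [h1, h2, h3', h4']
      by_cases ht : t ∈ D k
      · have ht0 : t ∈ A0 k := hDA' ht
        simp [ht, ht0]
      · by_cases ht0 : t ∈ A0 k
        · simp [ht, ht0]
        · simp [ht, ht0]
    rw [e1]
    have hsub : A0 k \ D k ⊆ (A1 \ D k) ∪ (A0 k \ A1) := by
      rintro x ⟨hx, hx2⟩
      by_cases hxA : x ∈ A1
      · exact Or.inl ⟨hxA, hx2⟩
      · exact Or.inr ⟨hx, hxA⟩
    refine (lintegral_mono_set hsub).trans ((lintegral_union_le _ _ _).trans ?_)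
    have h3 : ∫⁻ x in A1 \ D k, ENNReal.ofReal (φ |f (σ k) x|) ∂μ ≤ ENNReal.ofReal η := hDi k
    have h4 : ∫⁻ x in A0 k \ A1, ENNReal.ofReal (φ |f (σ k) x|) ∂μ ≤ ENNReal.ofReal (2 * η) := by
      have h5 := hσP (σ2 k)
      have h6 : F (σ k) m0 = (∫⁻ x in A1, ENNReal.ofReal (φ |f (σ k) x|) ∂μ) +
          ∫⁻ x in A0 k \ A1, ENNReal.ofReal (φ |f (σ k) x|) ∂μ := by
        have := lintegral_inter_add_sdiff (μ := μ) (fun x => ENNReal.ofReal (φ |f (σ k) x|))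
          (A0 k) hA1m
        rw [inter_eq_self_of_subset_right hA10] at this
        exact this.symm
      have h7 : F (σ0 (σ1 (σ2 k))) m0 = F (σ k) m0 := rfl
      have h8 : F (σ0 (σ1 (σ2 k))) (m0 + σ2 k) =
          ∫⁻ x in A1, ENNReal.ofReal (φ |f (σ k) x|) ∂μ := rfl
      rw [h7, h6, h8] at h5
      have h9 : ∫⁻ x in A1, ENNReal.ofReal (φ |f (σ k) x|) ∂μ ≠ ∞ :=
        ((hF1 (σ k) (m0 + σ2 k)).trans_lt ENNReal.one_lt_top).ne
      exact (ENNReal.add_le_add_iff_left h9).1 h5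
    refine (add_le_add h3 h4).trans ?_
    rw [← ENNReal.ofReal_add hη0.le (by positivity)]
    apply ENNReal.ofReal_le_ofReal
    rw [hη]
    linarith

end Rel

end Pool.Agent.H27.Kato
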